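import Pool.Agent.Helper94_PP.Defs

/-!
# Squad PP: functions and elements of the group ring
-/

open scoped BigOperators

set_option linter.unusedSectionVars false

noncomputable section

namespace Pool.Agent.PP

section bridge

variable {F H : Type} [Field F] [Group H] [Finite H]

/-- The function `a` as an element of the group ring. -/
def ma (a : H → F) : MonoidAlgebra F H := MonoidAlgebra.ofCoeff (Finsupp.equivFunOnFinite.symm a)

theorem ma_coeff (a : H → F) (t : H) : (ma a).coeff t = a t := rfl

theorem ma_ext {x y : MonoidAlgebra F H} (h : ∀ t, x.coeff t = y.coeff t) : x = y := by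
  apply MonoidAlgebra.coeff_injective
  exact Finsupp.ext h

/-- the linear equivalence -/
def maL : (H → F) ≃ₗ[F] MonoidAlgebra F H where
  toFun := ma
  invFun x := fun t => x.coeff t
  map_add' a b := ma_ext fun t => by
    rw [MonoidAlgebra.coeff_add]; rfl
  map_smul' c a := ma_ext fun t => by
    rw [MonoidAlgebra.coeff_smul]; rfl
  left_inv a := rfl
  right_inv x := ma_ext fun t => rfl

theorem maL_apply (a : H → F) : maL a = ma a := rfl

theorem ma_injective : Function.Injective (ma : (H → F) → MonoidAlgebra F H) :=
  maL.injective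

theorem ma_surjective : Function.Surjective (ma : (H → F) → MonoidAlgebra F H) :=
  maL.surjective

theorem ma_add (a b : H → F) : ma (a + b) = ma a + ma b := map_add maL a b

theorem ma_sub (a b : H → F) : ma (a - b) = ma a - ma b := map_sub maL a b

theorem ma_zero : ma (0 : H → F) = 0 := map_zero maL

theorem ma_smul (c : F) (a : H → F) : ma (c • a) = c • ma a := map_smul maL c a

theorem ma_sum {ι : Type*} (s : Finset ι) (a : ι → H → F) :
    ma (∑ i ∈ s, a i) = ∑ i ∈ s, ma (a i) := map_sum maL a s

/-- the coefficients of a product -/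
theorem coeff_mul' (x y : MonoidAlgebra F H) (m : H) :
    (x * y).coeff m = ∑ᶠ t, x.coeff t * y.coeff (t⁻¹ * m) := by
  classical
  have := Fintype.ofFinite H
  rw [finsum_eq_sum_of_fintype, MonoidAlgebra.coeff_mul, Finsupp.sum_fintype]
  · refine Finset.sum_congr rfl fun t _ => ?_
    rw [Finsupp.sum_fintype]
    · rw [Finset.sum_eq_single (t⁻¹ * m)]
      · rw [mul_inv_cancel_left, if_pos rfl]
      · intro b _ hb
        rw [if_neg]
        rintro rfl
        exact hb (by rw [inv_mul_cancel_left])
      · intro h
        exact absurd (Finset.mem_univ _) h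
    · intro i
      rw [mul_zero, ite_self]
  · intro i
    rw [Finsupp.sum_fintype]
    · refine Finset.sum_eq_zero fun t _ => ?_
      rw [zero_mul, ite_self]
    · intro j
      rw [mul_zero, ite_self]

theorem ma_mul (a b : H → F) : ma (mulF a b) = ma a * ma b :=
  ma_ext fun m => (coeff_mul' (ma a) (ma b) m).symm

theorem ma_iterate (a b : H → F) (n : ℕ) : ma ((mulF a)^[n] b) = ma a ^ n * ma b := by
  induction n with
  | zero => rw [Function.iterate_zero, id, pow_zero, one_mul]
  | succ n ih => rw [Function.iterate_succ_apply', ma_mul, ih, ← mul_assoc, pow_succ']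

theorem mulF_assoc (a b c : H → F) : mulF (mulF a b) c = mulF a (mulF b c) := by
  apply ma_injective
  rw [ma_mul, ma_mul, ma_mul, ma_mul, mul_assoc]

/-- the function of a group element -/
def dl (F : Type) [Field F] {H : Type} [Group H] (x : H) : H → F :=
  open Classical in fun t => if t = x then 1 else 0

theorem ma_dl (x : H) : ma (dl F x) = MonoidAlgebra.single x 1 := by
  classical
  apply ma_ext
  intro t
  rw [ma_coeff, dl, MonoidAlgebra.single]
  change _ = (Finsupp.single x (1 : F)) t
  rw [Finsupp.single_apply]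
  by_cases h : t = x
  · rw [if_pos h, if_pos h.symm]
  · rw [if_neg h, if_neg (fun h' => h h'.symm)]

theorem mem_center_iff (x : MonoidAlgebra F H) :
    x ∈ Subalgebra.center F (MonoidAlgebra F H) ↔ ∀ g t, x.coeff (g * t * g⁻¹) = x.coeff t := by
  classical
  have key : ∀ g t : H, (MonoidAlgebra.single g 1 * x).coeff t = x.coeff (g⁻¹ * t) := by
    intro g t
    have := Fintype.ofFinite H
    rw [coeff_mul', finsum_eq_sum_of_fintype, Finset.sum_eq_single g]
    · change (Finsupp.single g (1 : F)) g * _ = _
      rw [Finsupp.single_eq_same, one_mul]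
    · intro b _ hb
      change (Finsupp.single g (1 : F)) b * _ = _
      rw [Finsupp.single_eq_of_ne hb, zero_mul]
    · intro h
      exact absurd (Finset.mem_univ _) h
  have key2 : ∀ g t : H, (x * MonoidAlgebra.single g 1).coeff t = x.coeff (t * g⁻¹) := by
    intro g t
    have := Fintype.ofFinite H
    rw [coeff_mul', finsum_eq_sum_of_fintype, Finset.sum_eq_single (t * g⁻¹)]
    · change _ * (Finsupp.single g (1 : F)) _ = _
      rw [mul_inv_rev, inv_inv, inv_mul_cancel_right, Finsupp.single_eq_same, mul_one]
    · intro b _ hb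
      change _ * (Finsupp.single g (1 : F)) _ = _
      rw [Finsupp.single_eq_of_ne, mul_zero]
      intro h
      apply hb
      rw [← h]
      group
    · intro h
      exact absurd (Finset.mem_univ _) h
  rw [Subalgebra.mem_center_iff]
  constructor
  · intro h g t
    have h1 := congrArg (fun z => MonoidAlgebra.coeff z (g * t)) (h (MonoidAlgebra.single g 1))
    simp only [key, key2] at h1
    rw [← h1]
    congr 1
    group
  · intro h b
    induction b using MonoidAlgebra.induction_linear with
    | zero => rw [zero_mul, mul_zero]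
    | add f g hf hg => rw [add_mul, mul_add, hf, hg]
    | single g r =>
      have e : MonoidAlgebra.single g r = r • (MonoidAlgebra.single g 1 : MonoidAlgebra F H) := by
        rw [MonoidAlgebra.smul_single, smul_eq_mul, mul_one]
      rw [e, smul_mul_assoc, mul_smul_comm]
      congr 1
      apply ma_ext
      intro t
      rw [key, key2, ← h g⁻¹ (t * g⁻¹)]
      congr 1
      group

theorem isCl_iff (a : H → F) : IsCl a ↔ ma a ∈ Subalgebra.center F (MonoidAlgebra F H) := by
  rw [mem_center_iff]
  exact ⟨fun h g t => h t g, fun h x y => h y x⟩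

theorem isIdem_iff (e : H → F) : IsIdem e ↔
    ma e ∈ Subalgebra.center F (MonoidAlgebra F H) ∧ IsIdempotentElem (ma e) := by
  rw [← isCl_iff, IsIdem, IsIdempotentElem, ← ma_mul]
  exact and_congr_right fun _ => (ma_injective.eq_iff).symm

/-- The algebra homomorphism of a matrix representation. -/
def repA {n : ℕ} (ρ : H →* Matrix (Fin n) (Fin n) F) :
    MonoidAlgebra F H →ₐ[F] Matrix (Fin n) (Fin n) F := MonoidAlgebra.lift F _ H ρ

theorem repA_single {n : ℕ} (ρ : H →* Matrix (Fin n) (Fin n) F) (x : H) (c : F) :
    repA ρ (MonoidAlgebra.single x c) = c • ρ x := MonoidAlgebra.lift_single _ _ _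

theorem ma_eq_sum (a : H → F) : ma a = ∑ᶠ t, MonoidAlgebra.single t (a t) := by
  classical
  have := Fintype.ofFinite H
  rw [finsum_eq_sum_of_fintype]
  apply ma_ext
  intro t
  rw [ma_coeff]
  have e : ∀ s : Finset H, (∑ x ∈ s, MonoidAlgebra.single x (a x)).coeff t =
      ∑ x ∈ s, (Finsupp.single x (a x)) t := by
    intro s
    induction s using Finset.induction_on with
    | empty => rw [Finset.sum_empty, Finset.sum_empty]; rfl
    | insert x s hx ih =>
      rw [Finset.sum_insert hx, Finset.sum_insert hx, MonoidAlgebra.coeff_add, Finsupp.add_apply,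
        ih]
      rfl
  rw [e, Finset.sum_eq_single t]
  · rw [Finsupp.single_eq_same]
  · intro b _ hb
    rw [Finsupp.single_eq_of_ne (fun h => hb h.symm)]
  · intro h
    exact absurd (Finset.mem_univ _) h

theorem ev_eq {n : ℕ} (ρ : H →* Matrix (Fin n) (Fin n) F) (a : H → F) :
    ev ρ a = repA ρ (ma a) := by
  have := Fintype.ofFinite H
  rw [ma_eq_sum, ev, finsum_eq_sum_of_fintype, finsum_eq_sum_of_fintype, map_sum]
  exact Finset.sum_congr rfl fun t _ => (repA_single ρ t (a t)).symm

theorem ev_mulF {n : ℕ} (ρ : H →* Matrix (Fin n) (Fin n) F) (a b : H → F) :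
    ev ρ (mulF a b) = ev ρ a * ev ρ b := by
  rw [ev_eq, ev_eq, ev_eq, ma_mul, map_mul]

theorem ev_add {n : ℕ} (ρ : H →* Matrix (Fin n) (Fin n) F) (a b : H → F) :
    ev ρ (a + b) = ev ρ a + ev ρ b := by
  rw [ev_eq, ev_eq, ev_eq, ma_add, map_add]

theorem ev_smul {n : ℕ} (ρ : H →* Matrix (Fin n) (Fin n) F) (c : F) (a : H → F) :
    ev ρ (c • a) = c • ev ρ a := by
  rw [ev_eq, ev_eq, ma_smul, map_smul]

theorem ev_iterate {n : ℕ} (ρ : H →* Matrix (Fin n) (Fin n) F) (a b : H → F) (k : ℕ) :
    ev ρ ((mulF a)^[k] b) = ev ρ a ^ k * ev ρ b := by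
  rw [ev_eq, ev_eq, ev_eq, ma_iterate, map_mul, map_pow]

theorem ev_dl {n : ℕ} (ρ : H →* Matrix (Fin n) (Fin n) F) (x : H) : ev ρ (dl F x) = ρ x := by
  rw [ev_eq, ma_dl, repA_single, one_smul]

/-- The linear functional with the values `f` at the group elements. -/
def fl (f : H → F) : MonoidAlgebra F H →ₗ[F] F where
  toFun x := ∑ᶠ t, x.coeff t * f t
  map_add' x y := by
    have := Fintype.ofFinite H
    simp only [finsum_eq_sum_of_fintype, MonoidAlgebra.coeff_add, Finsupp.add_apply, add_mul,
      Finset.sum_add_distrib]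
  map_smul' c x := by
    have := Fintype.ofFinite H
    simp only [finsum_eq_sum_of_fintype, MonoidAlgebra.coeff_smul, Finsupp.smul_apply, smul_eq_mul,
      RingHom.id_apply, Finset.mul_sum, mul_assoc]

theorem fl_ma (a f : H → F) : fl f (ma a) = ∑ᶠ t, a t * f t := rfl

theorem fl_single (f : H → F) (x : H) (c : F) : fl f (MonoidAlgebra.single x c) = c * f x := by
  have := Fintype.ofFinite H
  change ∑ᶠ t, (Finsupp.single x c) t * f t = _
  rw [finsum_eq_sum_of_fintype, Finset.sum_eq_single x]
  · rw [Finsupp.single_eq_same]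
  · intro b _ hb
    rw [Finsupp.single_eq_of_ne hb, zero_mul]
  · intro h
    exact absurd (Finset.mem_univ _) h

theorem actF_eq (a f : H → F) (x : H) :
    actF a f x = fl f (ma a * MonoidAlgebra.single x 1) := by
  have := Fintype.ofFinite H
  rw [ma_eq_sum, finsum_eq_sum_of_fintype, Finset.sum_mul, map_sum, actF, finsum_eq_sum_of_fintype]
  refine Finset.sum_congr rfl fun t _ => ?_
  rw [MonoidAlgebra.single_mul_single, fl_single, mul_one]

theorem fl_actF (a f : H → F) (x : MonoidAlgebra F H) : fl (actF a f) x = fl f (ma a * x) := by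
  induction x using MonoidAlgebra.induction_linear with
  | zero => rw [mul_zero, map_zero, map_zero]
  | add y z hy hz => rw [mul_add, map_add, map_add, hy, hz]
  | single g r =>
    have e : MonoidAlgebra.single g r = r • (MonoidAlgebra.single g 1 : MonoidAlgebra F H) := by
      rw [MonoidAlgebra.smul_single, smul_eq_mul, mul_one]
    rw [fl_single, actF_eq, e, mul_smul_comm, map_smul, smul_eq_mul]

theorem actF_mulF (a b f : H → F) : actF (mulF a b) f = actF b (actF a f) := by
  funext x
  rw [actF_eq, actF_eq, fl_actF, ma_mul, mul_assoc]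

theorem tr_ma {n : ℕ} (ρ : H →* Matrix (Fin n) (Fin n) F) (x : MonoidAlgebra F H) :
    fl (tr ρ) x = (repA ρ x).trace := by
  induction x using MonoidAlgebra.induction_linear with
  | zero => rw [map_zero, map_zero, Matrix.trace_zero]
  | add y z hy hz => rw [map_add, map_add, Matrix.trace_add, hy, hz]
  | single g r => rw [fl_single, repA_single, Matrix.trace_smul, smul_eq_mul]; rfl

theorem actF_tr {n : ℕ} (ρ : H →* Matrix (Fin n) (Fin n) F) (a : H → F) (x : H) :
    actF a (tr ρ) x = (ev ρ a * ρ x).trace := by
  rw [actF_eq, tr_ma, map_mul, ev_eq, repA_single, one_smul]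

/-- A functional is a trace form if and only if the function is a class function. -/
theorem fl_comm {f : H → F} (hf : IsCl f) (x y : MonoidAlgebra F H) :
    fl f (x * y) = fl f (y * x) := by
  induction x using MonoidAlgebra.induction_linear with
  | zero => rw [mul_zero, zero_mul]
  | add u v hu hv => rw [mul_add, add_mul, map_add, map_add, hu, hv]
  | single g r =>
    induction y using MonoidAlgebra.induction_linear with
    | zero => rw [mul_zero, zero_mul]
    | add u v hu hv => rw [mul_add, add_mul, map_add, map_add, hu, hv]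
    | single h s =>
      rw [MonoidAlgebra.single_mul_single, MonoidAlgebra.single_mul_single, fl_single, fl_single,
        mul_comm r s]
      congr 1
      have := hf (h * g) g
      rw [← this]
      congr 1
      group

/-- Schur's lemma. -/
theorem schur {n : ℕ} {ρ : H →* Matrix (Fin n) (Fin n) F} (hρ : IsIrr ρ)
    (A : Matrix (Fin n) (Fin n) F) (hA : ∀ h, A * ρ h = ρ h * A) :
    ∃ w : F, A = Matrix.scalar (Fin n) w := by
  have h1 : ∀ B : Matrix (Fin n) (Fin n) F, A * B = B * A := by
    intro B
    have hB : B ∈ Submodule.span F (Set.range ρ) := by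
      rw [hρ.2]; trivial
    induction hB using Submodule.span_induction with
    | mem x hx =>
      obtain ⟨h, rfl⟩ := hx
      exact hA h
    | zero => rw [mul_zero, zero_mul]
    | add x y _ _ hx hy => rw [mul_add, add_mul, hx, hy]
    | smul c x _ hx => rw [mul_smul_comm, smul_mul_assoc, hx]
  have h2 : A ∈ Set.range (Matrix.scalar (Fin n) : F →+* Matrix (Fin n) (Fin n) F) := by
    rw [Matrix.mem_range_scalar_iff_commute_single']
    intro i j
    exact (h1 _).symm
  obtain ⟨w, hw⟩ := h2
  exact ⟨w, hw.symm⟩

end bridge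

end Pool.Agent.PP
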