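import Pool.Agent.Helper94_PP.LemP
import Pool.Agent.Helper75_PP.Blk

/-!
# Squad PP, the relative form of the final theorem, step (R3)

Let `N` be normal in `G`, let `χ` be an irreducible character of `G` over `ψ ∈ Irr(N)`, let `e` be
the block of `χ` and `b` the block of `ψ`.  Then all blocks `c` of `N` with `e c ≠ 0` are conjugate
to `b`; if `b` is positive, then `Pos(e, N)` holds.
-/

open scoped BigOperators

set_option linter.unusedSectionVars false

noncomputable section

namespace Pool.Agent.PP.H94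

open Pool.Agent.Helper51_AWC Pool.Agent.Helper79_WRA Pool.Agent.PP
open Pool.Agent.PP.H75 (wC act_eq_wC res_eq_red res_mulF res_zero lf lf_integral red_lf Om Bd)

section restr

/-- irreducible characters are eigenfunctions of the convolution with a class function -/
theorem eig_conv {H : Type} [Group H] [Fintype H] {χ : H → ℂ} (hχ : χ ∈ Irr H) {A : H → ℂ}
    (hA : ∀ g h, A (h * g * h⁻¹) = A g) (x : H) :
    ∑ t, A t * χ (t * x) = wC A χ * χ x := by
  have h1 := irr_one_ne hχ
  obtain ⟨n, ρ, hρ, hch⟩ := hχ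
  have h2 := act_eq_wC hρ hch h1 hA
  have h3 : LinearMap.trace ℂ (Fin n → ℂ) (act ρ A * ρ x) = ∑ t, A t * χ (t * x) := by
    unfold act
    rw [Finset.sum_mul, map_sum]
    apply Finset.sum_congr rfl
    intro t _
    rw [smul_mul_assoc, ← map_mul, map_smul, smul_eq_mul, ← hch]
    rfl
  rw [← h3, h2, ← hch]
  have h4 : (wC A (ρ.character) • (LinearMap.id : (Fin n → ℂ) →ₗ[ℂ] (Fin n → ℂ))) * ρ x =
      wC A (ρ.character) • ρ x := by
    apply LinearMap.ext
    intro v
    rfl
  rw [h4, map_smul, smul_eq_mul]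
  rfl

open scoped ComplexOrder in
/-- the complex conjugate of a character -/
theorem irr_star {H : Type} [Group H] [Finite H] {χ : H → ℂ} (hχ : χ ∈ Irr H) (g : H) :
    starRingEnd ℂ (χ g) = χ g⁻¹ := by
  have := Fintype.ofFinite H
  obtain ⟨n, R, hR⟩ := irr_matrix hχ
  set P : Matrix (Fin n) (Fin n) ℂ := ∑ h, (R h).conjTranspose * R h with hP
  have hpos : P.PosDef := by
    apply Matrix.posDef_sum Finset.univ_nonempty
    intro h _
    apply Matrix.PosDef.conjTranspose_mul_self
    intro v w hvw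
    have h1 := congrArg (fun u => (R h⁻¹).mulVec u) hvw
    simp only [Matrix.mulVec_mulVec, ← map_mul, inv_mul_cancel, map_one, Matrix.one_mulVec] at h1
    exact h1
  obtain ⟨U, hU⟩ := hpos.isUnit
  have h1 : (R g).conjTranspose * P * R g = P := by
    rw [hP, Finset.mul_sum, Finset.sum_mul, ← Equiv.sum_comp (Equiv.mulRight g)
      (fun h => (R h).conjTranspose * R h)]
    apply Finset.sum_congr rfl
    intro h _
    rw [Equiv.coe_mulRight, map_mul, Matrix.conjTranspose_mul]
    simp only [Matrix.mul_assoc]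
  have h2 : (R g).conjTranspose * P = P * R g⁻¹ := by
    calc (R g).conjTranspose * P = (R g).conjTranspose * P * (R g * R g⁻¹) := by
          rw [← map_mul, mul_inv_cancel, map_one, Matrix.mul_one]
      _ = ((R g).conjTranspose * P * R g) * R g⁻¹ := (Matrix.mul_assoc _ _ _).symm
      _ = P * R g⁻¹ := by rw [h1]
  have h3 : (R g).conjTranspose = P * R g⁻¹ * (U⁻¹ : (Matrix (Fin n) (Fin n) ℂ)ˣ) := by
    rw [← h2, ← hU, Matrix.mul_assoc, Units.mul_inv, Matrix.mul_one]
  have h4 : ((R g).conjTranspose).trace = (R g⁻¹).trace := by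
    rw [h3, ← hU, Matrix.trace_mul_comm, ← Matrix.mul_assoc, Units.inv_mul, Matrix.one_mul]
  rw [Matrix.trace_conjTranspose, hR, hR] at h4
  exact h4

variable {G : Type} [Group G]

/-- the central characters of `χ` and of a constituent `ψ` of the restriction of `χ` to a normal
subgroup agree on the class functions supported on the subgroup -/
theorem wC_over [Fintype G] (N : Subgroup G) [Fintype N] {χ : G → ℂ} (hχ : χ ∈ Irr G) {ψ : N → ℂ}
    (hψ : ψ ∈ Irr N) (hover : (∑ n : N, χ n * ψ n⁻¹) ≠ 0) {A : G → ℂ}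
    (hA : ∀ g h, A (h * g * h⁻¹) = A g) (hs : ∀ x, x ∉ N → A x = 0) :
    wC A χ = wC (fun t : N => A t) ψ := by
  classical
  have hA' : ∀ g h : N, (fun t : N => A t) (h * g * h⁻¹) = (fun t : N => A t) g :=
    fun g h => hA g h
  apply mul_right_cancel₀ hover
  have e1 : ∀ x : G, ∑ t : N, A t * χ (t * x) = wC A χ * χ x := by
    intro x
    rw [← eig_conv hχ hA x]
    have e2 : ∑ t : G, A t * χ (t * x) =
        ∑ t ∈ Finset.univ.filter (fun t : G => t ∈ N), A t * χ (t * x) := by
      symm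
      apply Finset.sum_subset (Finset.filter_subset _ _)
      intro t _ ht
      rw [Finset.mem_filter, not_and] at ht
      rw [hs t (ht (Finset.mem_univ _)), zero_mul]
    rw [e2]
    symm
    apply Finset.sum_subtype
    intro t
    rw [Finset.mem_filter]
    exact ⟨fun h => h.2, fun h => ⟨Finset.mem_univ _, h⟩⟩
  have e3 : ∀ y : N, ∑ t : N, A t * ψ (y⁻¹ * t) = wC (fun t : N => A t) ψ * ψ y⁻¹ := by
    intro y
    rw [← eig_conv hψ hA' y⁻¹]
    apply Finset.sum_congr rfl
    intro t _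
    rw [irr_mul_comm hψ]
  calc wC A χ * ∑ n : N, χ n * ψ n⁻¹ = ∑ n : N, (wC A χ * χ n) * ψ n⁻¹ := by
        rw [Finset.mul_sum]
        exact Finset.sum_congr rfl fun n _ => (mul_assoc _ _ _).symm
    _ = ∑ n : N, ∑ t : N, A t * χ ((t * n : N) : G) * ψ n⁻¹ := by
        apply Finset.sum_congr rfl
        intro n _
        rw [← e1, Finset.sum_mul]
        rfl
    _ = ∑ t : N, ∑ n : N, A t * χ ((t * n : N) : G) * ψ n⁻¹ := Finset.sum_comm
    _ = ∑ t : N, ∑ y : N, A t * χ (y : G) * ψ (y⁻¹ * t) := by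
        apply Finset.sum_congr rfl
        intro t _
        rw [← Equiv.sum_comp (Equiv.mulLeft t) (fun y : N => A t * χ (y : G) * ψ (y⁻¹ * t))]
        apply Finset.sum_congr rfl
        intro n _
        rw [Equiv.coe_mulLeft, mul_inv_rev, inv_mul_cancel_right]
    _ = ∑ y : N, ∑ t : N, A t * χ (y : G) * ψ (y⁻¹ * t) := Finset.sum_comm
    _ = ∑ y : N, wC (fun t : N => A t) ψ * (χ y * ψ y⁻¹) := by
        apply Finset.sum_congr rfl
        intro y _
        have e4 := e3 y
        calc ∑ t : N, A t * χ (y : G) * ψ (y⁻¹ * t) = χ (y : G) * ∑ t : N, A t * ψ (y⁻¹ * t) := by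
              rw [Finset.mul_sum]
              exact Finset.sum_congr rfl fun t _ => by ring
          _ = _ := by rw [e4]; ring
    _ = wC (fun t : N => A t) ψ * ∑ n : N, χ n * ψ n⁻¹ := by rw [Finset.mul_sum]

variable {M : Ideal (integralClosure ℤ ℂ)} [Finite G]

/-- the residues of the central characters of `χ` and `ψ` agree on the class functions supported
on `N` -/
theorem res_over [M.IsMaximal] (N : Subgroup G) (hN : N.Normal) {χ : G → ℂ} (hχ : χ ∈ Irr G)
    {ψ : N → ℂ} (hψ : ψ ∈ Irr N) (hover : (∑ᶠ n : N, χ n * ψ n⁻¹) ≠ 0) :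
    letI := Ideal.Quotient.field M
    ∀ {a : G → FF M}, IsCl a → (∀ x, x ∉ N → a x = 0) →
      res M a χ = res M (fun t : N => a t) ψ := by
  classical
  let _ := Ideal.Quotient.field M
  intro a ha hs
  have := Fintype.ofFinite G
  have := Fintype.ofFinite N
  set A : G → ℂ := fun g => if g ∈ N then lf M (a g) else 0 with hA
  have hA1 : ∀ g h, A (h * g * h⁻¹) = A g := by
    intro g h
    change (if h * g * h⁻¹ ∈ N then lf M (a (h * g * h⁻¹)) else 0) = if g ∈ N then lf M (a g) else 0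
    by_cases hg : g ∈ N
    · rw [if_pos hg, if_pos (hN.conj_mem g hg h), ha]
    · rw [if_neg hg, if_neg]
      intro h'
      apply hg
      have := hN.conj_mem _ h' h⁻¹
      have e : h⁻¹ * (h * g * h⁻¹) * h⁻¹⁻¹ = g := by group
      rwa [e] at this
  have hA2 : ∀ g, IsIntegral ℤ (A g) := by
    intro g
    change IsIntegral ℤ (if g ∈ N then lf M (a g) else 0)
    split_ifs
    · exact lf_integral _
    · exact isIntegral_zero
  have hA3 : ∀ g, red M (A g) = a g := by
    intro g
    change red M (if g ∈ N then lf M (a g) else 0) = a g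
    by_cases hg : g ∈ N
    · rw [if_pos hg, red_lf]
    · rw [if_neg hg, hs g hg, red_zero]
  obtain ⟨_, r1⟩ := res_eq_red hχ hA1 hA2 a hA3
  obtain ⟨_, r2⟩ := res_eq_red hψ (A := fun t : N => A t) (fun g h => hA1 g h) (fun g => hA2 g)
    (fun t : N => a t) (fun g => hA3 g)
  rw [finsum_eq_sum_of_fintype] at hover
  rw [r1, r2, wC_over N hχ hψ hover hA1 (fun x hx => if_neg hx)]

end restr

section conj

variable {F G : Type} [Field F] [Group G] [Finite G]

/-- conjugation as an automorphism of a normal subgroup -/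
theorem card_cent_conj {H : Type} [Group H] (θ : MulAut H) (x : H) :
    Nat.card (Subgroup.centralizer ({θ x} : Set H) ⊓ ⊤ : Subgroup H) =
      Nat.card (Subgroup.centralizer ({x} : Set H) ⊓ ⊤ : Subgroup H) := by
  refine Nat.card_congr
    { toFun := fun y => ⟨θ.symm y.1, ?_⟩
      invFun := fun y => ⟨θ y.1, ?_⟩
      left_inv := fun y => Subtype.ext (θ.apply_symm_apply _)
      right_inv := fun y => Subtype.ext (θ.symm_apply_apply _) }
  · have h := (Subgroup.mem_inf.1 y.2).1
    rw [Subgroup.mem_centralizer_singleton_iff] at h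
    rw [Subgroup.mem_inf, Subgroup.mem_centralizer_singleton_iff]
    refine ⟨?_, Subgroup.mem_top _⟩
    apply θ.injective
    rw [map_mul, map_mul, θ.apply_symm_apply, h]
  · have h := (Subgroup.mem_inf.1 y.2).1
    rw [Subgroup.mem_centralizer_singleton_iff] at h
    rw [Subgroup.mem_inf, Subgroup.mem_centralizer_singleton_iff]
    exact ⟨by rw [← map_mul, h, map_mul], Subgroup.mem_top _⟩

theorem clsum_aut {H : Type} [Group H] (θ : MulAut H) (x y : H) :
    clsum F ⊤ (θ x) (θ y) = clsum F ⊤ x y := by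
  classical
  unfold clsum
  have hiff : (∃ q ∈ (⊤ : Subgroup H), θ y = q * θ x * q⁻¹) ↔
      ∃ q ∈ (⊤ : Subgroup H), y = q * x * q⁻¹ := by
    constructor
    · rintro ⟨q, _, h⟩
      refine ⟨θ.symm q, Subgroup.mem_top _, ?_⟩
      apply θ.injective
      rw [h, map_mul, map_mul, map_inv, θ.apply_symm_apply]
    · rintro ⟨q, _, rfl⟩
      exact ⟨θ q, Subgroup.mem_top _, by rw [map_mul, map_mul, map_inv]⟩
  by_cases h : ∃ q ∈ (⊤ : Subgroup H), y = q * x * q⁻¹
  · rw [if_pos h, if_pos (hiff.2 h)]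
  · rw [if_neg h, if_neg (fun h' => h (hiff.1 h'))]

theorem mulF_aut {H : Type} [Group H] (θ : MulAut H) (a b : H → F) (x : H) :
    mulF a b (θ x) = mulF (fun y => a (θ y)) (fun y => b (θ y)) x := by
  unfold mulF
  rw [← finsum_comp_equiv θ.toEquiv]
  apply finsum_congr
  intro t
  change a (θ t) * b ((θ t)⁻¹ * θ x) = a (θ t) * b (θ (t⁻¹ * x))
  rw [map_mul, map_inv]

/-- positivity is invariant under automorphisms -/
theorem pos_aut {H : Type} [Group H] {ℓ : ℕ} (θ : MulAut H) {b : H → F} (h : Pos ℓ b ⊤) :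
    Pos ℓ (fun y => b (θ y)) ⊤ := by
  intro x _ hd
  rw [← card_cent_conj θ x] at hd
  obtain ⟨n, hn⟩ := h (θ x) (Subgroup.mem_top _) hd
  refine ⟨n, ?_⟩
  have key : ∀ (n : ℕ) (y : H), (mulF (clsum F ⊤ x))^[n] (fun y => b (θ y)) y =
      (mulF (clsum F ⊤ (θ x)))^[n] b (θ y) := by
    intro n
    induction n with
    | zero => intro y; rfl
    | succ n ih =>
      intro y
      rw [Function.iterate_succ_apply', Function.iterate_succ_apply', mulF_aut]
      have e1 : (fun y => clsum F ⊤ (θ x) (θ y)) = clsum F ⊤ x := funext fun y => clsum_aut θ x y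
      have e2 : (fun y => (mulF (clsum F ⊤ (θ x)))^[n] b (θ y)) =
          (mulF (clsum F ⊤ x))^[n] (fun y => b (θ y)) := funext fun y => (ih y).symm
      rw [e1, e2]
  funext y
  rw [key, hn]
  rfl

/-- conjugation by an element of the group on a normal subgroup -/
def cjN (N : Subgroup G) (hN : N.Normal) (g : G) : MulAut N where
  toFun t := ⟨g * t * g⁻¹, hN.conj_mem _ t.2 g⟩
  invFun t := ⟨g⁻¹ * t * g, by
    have := hN.conj_mem _ t.2 g⁻¹
    rwa [inv_inv] at this⟩
  left_inv t := Subtype.ext (by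
    change g⁻¹ * (g * t * g⁻¹) * g = t
    group)
  right_inv t := Subtype.ext (by
    change g * (g⁻¹ * t * g) * g⁻¹ = t
    group)
  map_mul' s t := Subtype.ext (by
    change g * (s * t) * g⁻¹ = g * s * g⁻¹ * (g * t * g⁻¹)
    group)

/-- blocks are mapped to blocks by automorphisms -/
theorem isBlk_aut {H : Type} [Group H] (θ : MulAut H) {b : H → F} (hb : IsBlk b) :
    IsBlk (fun y => b (θ y)) := by
  have hid : ∀ (θ : MulAut H) (g : H → F), IsIdem g → IsIdem (fun y => g (θ y)) := by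
    intro θ g hg
    constructor
    · intro x y
      change g (θ (y * x * y⁻¹)) = g (θ x)
      rw [map_mul, map_mul, map_inv, hg.1]
    · funext x
      rw [← mulF_aut, hg.2]
  have hback : ∀ g : H → F, (fun y => (fun z => g (θ⁻¹ z)) (θ y)) = g := by
    intro g
    funext y
    change g (θ⁻¹ (θ y)) = g y
    rw [MulAut.inv_apply_self]
  refine ⟨hid θ b hb.1, ?_, ?_⟩
  · intro h0
    apply hb.2.1
    funext y
    have := congrFun h0 (θ⁻¹ y)
    change b (θ (θ⁻¹ y)) = 0 at this
    rwa [MulAut.apply_inv_self] at this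
  · intro g hg
    have h1 : ∀ x, mulF (fun y => b (θ y)) g x = mulF b (fun z => g (θ⁻¹ z)) (θ x) := by
      intro x
      rw [mulF_aut, hback]
    rcases hb.2.2 _ (hid θ⁻¹ g hg) with h2 | h2
    · left
      funext x
      rw [h1, h2]
    · right
      funext x
      rw [h1, h2]
      rfl

end conj

section lemq

variable {M : Ideal (integralClosure ℤ ℂ)} {G : Type} [Group G] [Finite G]

/-- (R3): the blocks of `N` under the block of `χ` are conjugate to the block of `ψ`. -/
theorem blk_over [M.IsMaximal] (N : Subgroup G) (hN : N.Normal) {χ : G → ℂ}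
    (hχ : χ ∈ Irr G) {ψ : N → ℂ} (hψ : ψ ∈ Irr N) (hover : (∑ᶠ n : N, χ n * ψ n⁻¹) ≠ 0) :
    letI := Ideal.Quotient.field M
    ∀ {e : G → FF M}, IsBlk e → res M e χ = 1 → ∀ {b : N → FF M}, IsBlk b → res M b ψ = 1 →
      ∀ c : N → FF M, IsBlk c → mulF e (ext0 N c) ≠ 0 → ∃ g : G, c = fun t => b (cjN N hN g t) := by
  classical
  let _ := Ideal.Quotient.field M
  intro e he he1 b hb hb1 c hc hec
  -- the block `b` as a function on `G`
  have hB : Bd N (ext0 N b) := ⟨hN, fun x hx => H46.ext0_of_not_mem _ hx, by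
    rw [H46.restr_ext0]; exact hb⟩
  have := Fintype.ofFinite (Om (ext0 N b))
  set h : G → FF M := fun x => ∑ f : Om (ext0 N b), f.1 x with hh
  have hidem : IsIdem h := hB.fam.isIdem
  have hsupp : ∀ x, x ∉ N → h x = 0 := by
    intro x hx
    exact Finset.sum_eq_zero fun f _ => hB.supp2 f x hx
  -- `h b = b`
  have hhb : mulF h (ext0 N b) = ext0 N b := by
    have := hB.fam.mul_sum Finset.univ (Finset.mem_univ (H75.omk (ext0 N b) 1))
    rw [H75.omk_one] at this
    exact this
  -- the residue of `h` at `χ` is one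
  have hN1 : IsIdem (fun t : N => h t) := by
    refine ⟨fun x y => hidem.1 _ _, ?_⟩
    rw [← H75.mulF_res N h hsupp, hidem.2]
  have h1 : mulF (fun t : N => h t) b = b := by
    have e1 := H75.mulF_res N (ext0 N b) hsupp
    rw [H46.restr_ext0, hhb, H46.restr_ext0] at e1
    exact e1.symm
  have h2 : res M (fun t : N => h t) ψ = 1 := by
    have e1 := res_mulF hψ hN1.1 hb.1.1
    rw [h1, hb1, mul_one] at e1
    exact e1.symm
  have h3 : res M h χ = 1 := by
    rw [res_over N hN hχ hψ hover hidem.1 hsupp, h2]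
  have h4 : mulF e h ≠ 0 := by
    intro h0
    have e1 := res_mulF hχ he.1.1 hidem.1
    rw [h0, res_zero, he1, h3, mul_one] at e1
    exact zero_ne_one e1
  have h5 : mulF e h = e := (he.2.2 h hidem).resolve_right h4
  -- `c` is not orthogonal to `h`
  have h6 : mulF h (ext0 N c) ≠ 0 := by
    intro h0
    apply hec
    rw [← h5, mulF_assoc, h0, H46.mulF_zero]
  have h7 : ∃ f : Om (ext0 N b), mulF f.1 (ext0 N c) ≠ 0 := by
    by_contra hcon
    push Not at hcon
    apply h6
    apply ma_injective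
    rw [ma_mul, hh, H75.ma_finsum, Finset.sum_mul, ma_zero]
    apply Finset.sum_eq_zero
    intro f _
    rw [← ma_mul, hcon, ma_zero]
  obtain ⟨f, hf⟩ := h7
  obtain ⟨g, rfl⟩ := H75.omk_surj f
  change mulF (H75.cj g (ext0 N b)) (ext0 N c) ≠ 0 at hf
  -- the conjugate of `b`
  have h8 : H75.cj g (ext0 N b) = ext0 N (fun t : N => b (cjN N hN g⁻¹ t)) := by
    funext x
    by_cases hx : x ∈ N
    · rw [H46.ext0_of_mem _ hx, H75.cj]
      have h9 : g⁻¹ * x * g ∈ N := by
        have := hN.conj_mem x hx g⁻¹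
        rwa [inv_inv] at this
      rw [H46.ext0_of_mem _ h9]
      congr 1
      apply Subtype.ext
      change g⁻¹ * x * g = g⁻¹ * x * g⁻¹⁻¹
      rw [inv_inv]
    · rw [H46.ext0_of_not_mem _ hx]
      exact hB.cj_supp g x hx
  rw [h8, ← H46.ext0_mul] at hf
  have h9 : mulF (fun t : N => b (cjN N hN g⁻¹ t)) c ≠ 0 := by
    intro h0
    apply hf
    rw [h0, ext0_zero']
  have h10 : IsBlk (fun t : N => b (cjN N hN g⁻¹ t)) := isBlk_aut _ hb
  refine ⟨g⁻¹, ?_⟩
  have h11 := (h10.2.2 c hc.1).resolve_right h9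
  have h12 : mulF c (fun t : N => b (cjN N hN g⁻¹ t)) ≠ 0 := by
    rw [H46.mulF_comm hc.1.1]
    exact h9
  have h13 := (hc.2.2 _ h10.1).resolve_right h12
  rw [← h13, H46.mulF_comm hc.1.1, h11]

/-- (R2) and (R3): positivity of the block of `χ` over `N` from positivity of the block of `ψ`. -/
theorem pos_over (ℓ : ℕ) [M.IsMaximal] (N : Subgroup G) (hN : N.Normal) {χ : G → ℂ}
    (hχ : χ ∈ Irr G) {ψ : N → ℂ} (hψ : ψ ∈ Irr N) (hover : (∑ᶠ n : N, χ n * ψ n⁻¹) ≠ 0) :
    letI := Ideal.Quotient.field M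
    ∀ {e : G → FF M}, IsBlk e → res M e χ = 1 → ∀ {b : N → FF M}, IsBlk b → res M b ψ = 1 →
      Pos ℓ b ⊤ → Pos ℓ e N := by
  let _ := Ideal.Quotient.field M
  intro e he he1 b hb hb1 hp
  apply pos_of_blocks ℓ N e he.1.1
  intro c hc hec
  obtain ⟨g, rfl⟩ := blk_over N hN hχ hψ hover he he1 hb hb1 c hc hec
  exact pos_aut _ hp

/-- LemQ in the form used for the final theorem -/
theorem lemQ [M.IsMaximal] (N : Subgroup G) (hN : N.Normal) {χ : G → ℂ} (hχ : χ ∈ Irr G)
    {ψ : N → ℂ} (hψ : ψ ∈ Irr N) (hover : (∑ᶠ n : N, χ n * starRingEnd ℂ (ψ n)) ≠ 0) :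
    letI := Ideal.Quotient.field M
    ∀ {e : G → FF M}, IsBlk e → res M e χ = 1 → ∀ {b b' : N → FF M}, IsBlk b → res M b ψ = 1 →
      IsBlk b' → mulF e (ext0 N b') ≠ 0 → ∃ g : G, ∀ n : N, b' n = ext0 N b (g * n * g⁻¹) := by
  let _ := Ideal.Quotient.field M
  intro e he he1 b b' hb hb1 hb' hne
  have hover' : (∑ᶠ n : N, χ n * ψ n⁻¹) ≠ 0 := by
    have e1 : (fun n : N => χ n * starRingEnd ℂ (ψ n)) = fun n : N => χ n * ψ n⁻¹ :=
      funext fun n => by rw [irr_star hψ n]
    rw [e1] at hover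
    exact hover
  obtain ⟨g, rfl⟩ := blk_over N hN hχ hψ hover' he he1 hb hb1 b' hb' hne
  refine ⟨g, fun n => ?_⟩
  rw [H46.ext0_of_mem _ (hN.conj_mem _ n.2 g)]
  rfl

end lemq

end Pool.Agent.PP.H94
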