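import Pool.Agent.Helper94_PP.Defs

/-!
# Squad PP, part KR: statements

Text: `AWC_KR.md`.  Modular characters, Brauer's theorem, the second main theorem, the theorem of
Knörr and Robinson, transfer from ordinary characters.
-/

open scoped BigOperators

noncomputable section

namespace Pool.Agent.PP

open Pool.Agent.Helper51_AWC Pool.Agent.Helper79_WRA

/-! ## 0. The residue field -/

/-- FLD: the residue field of the algebraic integers. -/
def FldStmt : Prop := ∀ (ℓ : ℕ), ℓ.Prime → ∀ (M : Ideal (integralClosure ℤ ℂ)) [M.IsMaximal],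
  (ℓ : integralClosure ℤ ℂ) ∈ M → letI := Ideal.Quotient.field M; GoodF ℓ (FF M)

/-! ## 1. Simple modules as functions -/

/-- IBF: there are only finitely many irreducible modular characters, they are linearly
independent. -/
def IbfStmt : Prop := ∀ (ℓ : ℕ) (F : Type) [Field F], GoodF ℓ F → ∀ (H : Type) [Group H] [Finite H],
  (IBr F H).Finite ∧ LinearIndependent F (fun f : IBr F H => (f : H → F))

/-- IBC: representations with equal traces are conjugate. -/
def IbcStmt : Prop := ∀ (ℓ : ℕ) (F : Type) [Field F], GoodF ℓ F → ∀ (H : Type) [Group H] [Finite H]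
  (n m : ℕ) (ρ : H →* Matrix (Fin n) (Fin n) F) (σ : H →* Matrix (Fin m) (Fin m) F), IsIrr ρ →
  IsIrr σ → tr ρ = tr σ → ∃ (X : Matrix (Fin m) (Fin n) F) (Y : Matrix (Fin n) (Fin m) F),
    n = m ∧ X * Y = 1 ∧ Y * X = 1 ∧ ∀ h, X * ρ h = σ h * X

/-- IBJ: the group ring maps onto the product of the matrix algebras of different irreducible
representations. -/
def IbjStmt : Prop := ∀ (ℓ : ℕ) (F : Type) [Field F], GoodF ℓ F → ∀ (H : Type) [Group H] [Finite H]
  (ι : Type) [Finite ι] (n : ι → ℕ) (ρ : ∀ i, H →* Matrix (Fin (n i)) (Fin (n i)) F),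
  (∀ i, IsIrr (ρ i)) → Function.Injective (fun i => tr (ρ i)) →
  ∀ B : ∀ i, Matrix (Fin (n i)) (Fin (n i)) F, ∃ a : H → F, ∀ i, ev (ρ i) a = B i

/-- IBN: an element of the group ring which acts as zero in all irreducible representations is
nilpotent (its powers, formed with `mulF`, vanish). -/
def IbnStmt : Prop := ∀ (ℓ : ℕ) (F : Type) [Field F], GoodF ℓ F → ∀ (H : Type) [Group H] [Finite H]
  (a : H → F), (∀ (n : ℕ) (ρ : H →* Matrix (Fin n) (Fin n) F), IsIrr ρ → ev ρ a = 0) →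
  ∃ k : ℕ, (mulF a)^[k] a = 0

/-- EIG: a class function acts on an irreducible modular character by a scalar, a central
idempotent by zero or one. -/
def EigStmt : Prop := ∀ (F : Type) [Field F] (H : Type) [Group H] [Finite H] (n : ℕ)
  (ρ : H →* Matrix (Fin n) (Fin n) F), IsIrr ρ → ∀ a : H → F, IsCl a →
  ∃ w : F, ev ρ a = Matrix.scalar (Fin n) w ∧ actF a (tr ρ) = w • tr ρ ∧ (IsIdem a → w = 0 ∨ w = 1)

/-! ## 2. Brauer's theorem -/

/-- ORB: sums over orbits of an `ℓ`-group. -/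
def OrbStmt : Prop := ∀ (ℓ : ℕ) (F V R T : Type) [Field F] [AddCommGroup V] [Module F V] [Group R]
  [Finite R] [Finite T] [MulAction R T], ℓ.Prime → CharP F ℓ → IsPGroup ℓ R → ∀ h : T → V,
  (∀ (r : R) (t : T), h (r • t) = h t) →
    ∑ᶠ t, h t = ∑ᶠ (t : T) (_ : t ∈ MulAction.fixedPoints R T), h t

/-- RGL: a central idempotent preserves the class functions vanishing at all `ℓ`-regular
elements. -/
def RglStmt : Prop := ∀ (ℓ : ℕ) (F : Type) [Field F], GoodF ℓ F → ∀ (H : Type) [Group H] [Finite H]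
  (e g : H → F), IsIdem e → IsCl g → (∀ x, Reg ℓ x → g x = 0) → ∀ x, Reg ℓ x → actF e g x = 0

/-- BRT: Brauer's theorem, the irreducible modular characters span the class functions which
depend only on the `ℓ'`-part. -/
def BrtStmt : Prop := ∀ (ℓ : ℕ) (F : Type) [Field F], GoodF ℓ F → ∀ (H : Type) [Group H] [Finite H],
  Submodule.span F (IBr F H) = TT F H ℓ

/-- RNK: the rank of a central idempotent on this space. -/
def RnkStmt : Prop := ∀ (ℓ : ℕ) (F : Type) [Field F], GoodF ℓ F → ∀ (H : Type) [Group H] [Finite H]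
  (e : H → F), IsIdem e → rk e (TT F H ℓ) = {f : H → F | f ∈ IBr F H ∧ actF e f = f}.ncard

/-! ## 3. Normal `ℓ`-subgroups -/

/-- NLS: a normal `ℓ`-subgroup acts trivially, and a class function acts like its restriction to
the centraliser. -/
def NlsStmt : Prop := ∀ (ℓ : ℕ) (F : Type) [Field F], GoodF ℓ F → ∀ (H : Type) [Group H] [Finite H]
  (R : Subgroup H), R.Normal → IsPGroup ℓ R → ∀ (n : ℕ) (ρ : H →* Matrix (Fin n) (Fin n) F),
  IsIrr ρ → (∀ r ∈ R, ρ r = 1) ∧
    ∀ a : H → F, IsCl a → ev ρ a = ev ρ (br R a) ∧ actF a (tr ρ) = actF (br R a) (tr ρ)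

/-- BRM: the Brauer map sends central idempotents to central idempotents. -/
def BrmStmt : Prop := ∀ (ℓ : ℕ) (F : Type) [Field F], GoodF ℓ F → ∀ (G : Type) [Group G] [Finite G]
  (R X : Subgroup G), IsPGroup ℓ R → Subgroup.centralizer (R : Set G) ≤ X →
  X ≤ Subgroup.normalizer (R : Set G) →
  (∀ a b : G → F, IsCl a → IsCl b → br R (mulF a b) = mulF (br R a) (br R b)) ∧
  (∀ a b : G → F, (fun t : X => mulF (br R a) (br R b) t) =
    mulF (fun t : X => br R a t) (fun t : X => br R b t)) ∧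
  ∀ e : G → F, IsIdem e → IsIdem (fun t : X => br R e t)

/-! ## 5. The second main theorem -/

/-- SMA: the action on the coset of an `ℓ`-element. -/
def SmaStmt : Prop := ∀ (ℓ : ℕ) (F : Type) [Field F], GoodF ℓ F → ∀ (H : Type) [Group H] [Finite H]
  (a f : H → F), IsCl a → IsCl f → ∀ u : H, (∃ n : ℕ, u ^ ℓ ^ n = 1) →
  ∀ x : Subgroup.centralizer ({u} : Set H), actF a f (u * x) =
    actF (fun t : Subgroup.centralizer ({u} : Set H) => a t)
      (fun w : Subgroup.centralizer ({u} : Set H) => f (u * w)) x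

open Classical in
/-- SMT: the second main theorem as a formula for ranks. -/
def SmtStmt : Prop := ∀ (ℓ : ℕ) (F : Type) [Field F], GoodF ℓ F → ∀ (H : Type) [Group H] [Fintype H]
  (e : H → F), IsIdem e →
  Nat.card H * rk e (cfs F H) = ∑ u ∈ Finset.univ.filter (fun u : H => ∃ n : ℕ, u ^ ℓ ^ n = 1),
    Nat.card (Subgroup.centralizer ({u} : Set H)) * lnum (Subgroup.centralizer ({u} : Set H)) e

/-! ## 6. Normal chains, the theorem of Knörr and Robinson -/

/-- The largest member of a chain. -/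
def top {G : Type} [Group G] (d : Finset (Subgroup G)) : Subgroup G := sSup (d : Set (Subgroup G))

/-- A chain is normal if all members are normal in the largest one. -/
def NormalChain {G : Type} [Group G] (d : Finset (Subgroup G)) : Prop :=
  ∀ D ∈ d, top d ≤ Subgroup.normalizer (D : Set G)

open Classical in
/-- NCH: only the normal chains matter (AWC_A, A1). -/
def NchStmt : Prop := ∀ (ℓ : ℕ) [Fact ℓ.Prime] (G : Type) [Group G] [Finite G] (Q : Subgroup G)
  (w : Subgroup G → Subgroup G → ℤ),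
  ∑ d ∈ chainsOn (psubIn ℓ Q) ⊥, (-1) ^ (d.card + 1) * w (stab d) (top d) =
    ∑ d ∈ (chainsOn (psubIn ℓ Q) ⊥).filter NormalChain, (-1) ^ (d.card + 1) * w (stab d) (top d)

/-- KNA: the theorem of Knörr and Robinson for all chains, with Brauer maps. -/
def KnaStmt : Prop := ∀ (ℓ : ℕ) (F : Type) [Field F], GoodF ℓ F → ∀ (G : Type) [Group G] [Finite G]
  (e : G → F), IsIdem e →
  ∑ d ∈ chainsOn (psubIn ℓ (⊤ : Subgroup G)) ⊥, (-1) ^ (d.card + 1) *
      ((Nat.card (stab d) : ℤ) * (rk (fun t : stab d => br (top d) e t) (cfs F (stab d)) : ℤ)) =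
    ∑ d ∈ chainsOn (psubIn ℓ (⊤ : Subgroup G)) ⊥, (-1) ^ (d.card + 1) *
      ((Nat.card (stab d) : ℤ) * (lnum (stab d) (br (top d) e) : ℤ))

/-- KNR: the theorem of Knörr and Robinson. -/
def KnrStmt : Prop := ∀ (ℓ : ℕ) (F : Type) [Field F], GoodF ℓ F → ∀ (G : Type) [Group G] [Finite G]
  (e : G → F), IsIdem e →
  ∑ d ∈ chainsOn (psubIn ℓ (⊤ : Subgroup G)) ⊥, (-1) ^ (d.card + 1) *
      ((Nat.card (stab d) : ℤ) * (rk (fun t : stab d => br (top d) e t) (cfs F (stab d)) : ℤ)) =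
    YY ℓ ⊤ e

/-! ## 4. Transfer from ordinary characters -/

section transfer

variable (M : Ideal (integralClosure ℤ ℂ))

/-- The residue of the central character of `ϑ` at the class function `a`. -/
def res {H : Type} [Group H] (a : H → FF M) (ϑ : H → ℂ) : FF M :=
  ∑ᶠ c : ConjClasses H, a (Quotient.out c) *
    red M (omega (MonoidHom.id H) ϑ (Quotient.out c))

end transfer

/-- CHP: the rank of a central idempotent on the class functions is the number of ordinary
characters in it. -/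
def ChpStmt : Prop := ∀ (ℓ : ℕ), ℓ.Prime → ∀ (M : Ideal (integralClosure ℤ ℂ)) [M.IsMaximal],
  (ℓ : integralClosure ℤ ℂ) ∈ M → letI := Ideal.Quotient.field M;
  ∀ (H : Type) [Group H] [Finite H] (e : H → FF M), IsIdem e →
    rk e (cfs (FF M) H) = {ϑ : H → ℂ | ϑ ∈ Irr H ∧ res M e ϑ = 1}.ncard

/-- BID: block idempotents. -/
def BidStmt : Prop := ∀ (ℓ : ℕ), ℓ.Prime → ∀ (M : Ideal (integralClosure ℤ ℂ)) [M.IsMaximal],
  (ℓ : integralClosure ℤ ℂ) ∈ M → letI := Ideal.Quotient.field M;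
  ∀ (G : Type) [Group G] [Finite G], ∀ χ ∈ Irr G, ∃ e : G → FF M, IsBlk e ∧ res M e χ = 1 ∧
    ∀ ψ ∈ Irr G, labF M ψ ≠ labF M χ → res M e ψ = 0

/-- DIC: the label condition for normal chains. -/
def DicStmt : Prop := ∀ (ℓ : ℕ), ℓ.Prime → ∀ (M : Ideal (integralClosure ℤ ℂ)) [M.IsMaximal],
  (ℓ : integralClosure ℤ ℂ) ∈ M → letI := Ideal.Quotient.field M;
  ∀ (G : Type) [Group G] [Finite G], ∀ χ ∈ Irr G, ∀ e : G → FF M, IsBlk e → res M e χ = 1 →
    (∀ ψ ∈ Irr G, labF M ψ ≠ labF M χ → res M e ψ = 0) →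
    ∀ d ∈ chainsOn (psubIn ℓ (⊤ : Subgroup G)) ⊥, NormalChain d →
      {a | a ∈ IrrS (stab d) ∧ labF M a = labF M χ}.ncard =
        rk (fun t : stab d => br (top d) e t) (cfs (FF M) (stab d))

/-- LDP: positive defect. -/
def LdpStmt : Prop := ∀ (ℓ : ℕ), ℓ.Prime → ∀ (M : Ideal (integralClosure ℤ ℂ)) [M.IsMaximal],
  (ℓ : integralClosure ℤ ℂ) ∈ M → letI := Ideal.Quotient.field M;
  ∀ (G : Type) [Group G] [Finite G], opCore ℓ G = ⊥ → ∀ χ ∈ Irr G, ∀ e : G → FF M, IsBlk e →
    res M e χ = 1 → (LargeDefect ℓ M χ ↔ Pos ℓ e ⊤)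

/-- TRF: the alternating sum of the problem is the alternating sum of `ℓ`-numbers. -/
def TrfStmt : Prop := ∀ (ℓ : ℕ), ℓ.Prime → ∀ (M : Ideal (integralClosure ℤ ℂ)) [M.IsMaximal],
  (ℓ : integralClosure ℤ ℂ) ∈ M → letI := Ideal.Quotient.field M;
  ∀ (G : Type) [Group G] [Finite G], opCore ℓ G = ⊥ → ∀ χ ∈ Irr G, ∃ e : G → FF M, IsBlk e ∧
    (LargeDefect ℓ M χ ↔ Pos ℓ e ⊤) ∧ (Nat.card G : ℤ) * altSum ℓ M χ = YY ℓ ⊤ e

end Pool.Agent.PP
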