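import Pool.Agent.Helper94_PP.StmtsKR
import Pool.Agent.Helper79_WRA.Basic

/-!
# Squad PP, module NCH: only the normal chains matter
-/

open scoped BigOperators

set_option linter.unusedSectionVars false

noncomputable section

namespace Pool.Agent.PP.H94

open Pool.Agent.Helper51_AWC Pool.Agent.Helper79_WRA Pool.Agent.PP

variable {G : Type} [Group G]

/-- normalisers grow in `ℓ`-groups -/
theorem grow {ℓ : ℕ} [Fact ℓ.Prime] [Finite G] {R D : Subgroup G} (hD : IsPGroup ℓ D)
    (h : R < D) : ∃ x ∈ D, x ∉ R ∧ x ∈ Subgroup.normalizer (R : Set G) := by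
  have hn : Group.IsNilpotent D := hD.isNilpotent
  have h1 : R.subgroupOf D < ⊤ := by
    rw [lt_top_iff_ne_top, Ne, Subgroup.subgroupOf_eq_top]
    exact not_le_of_gt h
  obtain ⟨x, hx1, hx2⟩ := SetLike.exists_of_lt
    (Group.normalizerCondition_of_isNilpotent (R.subgroupOf D) h1)
  rw [Subgroup.mem_subgroupOf] at hx2
  refine ⟨x, x.2, hx2, ?_⟩
  rw [← Subgroup.subgroupOf_normalizer_eq h.le, Subgroup.mem_subgroupOf] at hx1
  exact hx1

/-- a member which does not normalise a smaller one -/
def bad (d : Finset (Subgroup G)) (D : Subgroup G) : Prop :=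
  ∃ D' ∈ d, D' < D ∧ ¬ D ≤ Subgroup.normalizer (D' : Set G)

/-- the elements of `B` normalising all smaller members -/
def loc (d : Finset (Subgroup G)) (B : Subgroup G) : Subgroup G :=
  B ⊓ ⨅ (D : Subgroup G) (_ : D ∈ d ∧ D < B), Subgroup.normalizer (D : Set G)

theorem mem_loc {d : Finset (Subgroup G)} {B : Subgroup G} {x : G} :
    x ∈ loc d B ↔ x ∈ B ∧ ∀ D ∈ d, D < B → x ∈ Subgroup.normalizer (D : Set G) := by
  simp only [loc, Subgroup.mem_inf, Subgroup.mem_iInf]
  exact and_congr_right fun _ => ⟨fun h D h1 h2 => h D ⟨h1, h2⟩, fun h D h1 => h D h1.1 h1.2⟩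

/-- the smallest bad member -/
def IsB (d : Finset (Subgroup G)) (B : Subgroup G) : Prop :=
  B ∈ d ∧ bad d B ∧ ∀ D ∈ d, bad d D → B ≤ D

theorem IsB.unique {d : Finset (Subgroup G)} {B B' : Subgroup G} (h : IsB d B) (h' : IsB d B') :
    B = B' := le_antisymm (h.2.2 _ h'.1 h'.2.1) (h'.2.2 _ h.1 h.2.1)

theorem mem_stab' {d : Finset (Subgroup G)} {g : G} :
    g ∈ stab d ↔ ∀ D ∈ d, g ∈ Subgroup.normalizer (D : Set G) := by
  simp only [stab, Subgroup.mem_iInf]

theorem stab_le_loc {d : Finset (Subgroup G)} {B : Subgroup G} (hB : B ∈ d) :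
    stab d ≤ Subgroup.normalizer (loc d B : Set G) := by
  intro g hg
  rw [mem_stab'] at hg
  rw [Subgroup.mem_normalizer_iff]
  intro x
  rw [mem_loc, mem_loc]
  refine and_congr ((Subgroup.mem_normalizer_iff.1 (hg B hB)) x) ?_
  refine forall_congr' fun D => forall_congr' fun hD => forall_congr' fun _ => ?_
  have h1 := hg D hD
  constructor
  · intro h
    exact mul_mem (mul_mem h1 h) (inv_mem h1)
  · intro h
    have h2 := mul_mem (mul_mem (inv_mem h1) h) h1
    have e : g⁻¹ * (g * x * g⁻¹) * g = x := by group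
    rwa [e] at h2

theorem top_mem {d : Finset (Subgroup G)} (hd : IsChain (· ≤ ·) (d : Set (Subgroup G)))
    (hne : d.Nonempty) : top d ∈ d ∧ ∀ D ∈ d, D ≤ top d := by
  obtain ⟨T, hT, hmax⟩ := exists_greatest hd hne
  have e : top d = T := le_antisymm (sSup_le fun D hD => hmax D hD) (le_sSup hT)
  rw [e]
  exact ⟨hT, hmax⟩

theorem exists_isB {d : Finset (Subgroup G)} (hd : IsChain (· ≤ ·) (d : Set (Subgroup G)))
    (hn : ¬ NormalChain d) : ∃ B, IsB d B := by
  classical
  rw [NormalChain] at hn
  push Not at hn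
  obtain ⟨D, hD, hDn⟩ := hn
  obtain ⟨hT, hmax⟩ := top_mem hd ⟨D, hD⟩
  have hbad : bad d (top d) := by
    refine ⟨D, hD, lt_of_le_of_ne (hmax D hD) ?_, hDn⟩
    intro h
    apply hDn
    rw [← h]
    exact Subgroup.le_normalizer
  obtain ⟨B, hB, hmin⟩ := exists_least (d := d.filter (fun D => bad d D))
    (hd.mono (fun y hy => Finset.mem_of_mem_filter y hy)) ⟨top d, Finset.mem_filter.2 ⟨hT, hbad⟩⟩
  rw [Finset.mem_filter] at hB
  exact ⟨B, hB.1, hB.2, fun D hD hb => hmin D (Finset.mem_filter.2 ⟨hD, hb⟩)⟩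

section main

variable {ℓ : ℕ} [Fact ℓ.Prime] [Finite G] {P : Finset (Subgroup G)} {d : Finset (Subgroup G)}
  {B : Subgroup G}

theorem loc_lt (hB : IsB d B) : loc d B < B := by
  refine lt_of_le_of_ne inf_le_left ?_
  intro h
  obtain ⟨D, hD, hlt, hn⟩ := hB.2.1
  apply hn
  intro x hx
  rw [← h, mem_loc] at hx
  exact hx.2 D hD hlt

theorem le_loc (hd : IsChain (· ≤ ·) (d : Set (Subgroup G))) (hB : IsB d B) {D : Subgroup G}
    (hD : D ∈ d) (hlt : D < B) : D ≤ loc d B := by
  intro x hx
  rw [mem_loc]
  refine ⟨hlt.le hx, fun D' hD' hlt' => ?_⟩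
  rcases chain_total hd hD' hD with h | h
  · rcases eq_or_lt_of_le h with h | h
    · rw [h]
      exact Subgroup.le_normalizer hx
    · by_contra hn
      have hb : bad d D := ⟨D', hD', h, fun hle => hn (hle hx)⟩
      exact absurd (hB.2.2 D hD hb) (not_le_of_gt hlt)
  · exact Subgroup.le_normalizer (h hx)

/-- the properties preserved by the toggle -/
theorem toggle_props [DecidableEq (Subgroup G)] (hPp : ∀ D ∈ P, IsPGroup ℓ D)
    (hPl : ∀ c : Finset (Subgroup G), c ⊆ P → IsChain (· ≤ ·) (c : Set (Subgroup G)) →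
      ∀ D ∈ c, loc c D ∈ P) (hd : d ∈ chainsOn P ⊥) (hB : IsB d B) :
    toggle d (loc d B) ∈ chainsOn P ⊥ ∧ IsB (toggle d (loc d B)) B ∧
      loc (toggle d (loc d B)) B = loc d B ∧ top (toggle d (loc d B)) = top d ∧
      stab (toggle d (loc d B)) = stab d := by
  rw [mem_chainsOn] at hd
  obtain ⟨hsub, hbot, hch⟩ := hd
  have hBp := hPp _ (hsub hB.1)
  have hlt := loc_lt hB
  have hRp : loc d B ∈ P := hPl d hsub hch B hB.1
  set R := loc d B with hR
  by_cases hmem : R ∈ d
  · -- removal
    have et : toggle d R = d.erase R := by rw [toggle, if_pos hmem]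
    rw [et]
    have hBe : B ∈ d.erase R := Finset.mem_erase.2 ⟨hlt.ne', hB.1⟩
    have hRle : R ≤ loc (d.erase R) B := by
      intro x hx
      have hx' := hx
      rw [hR, mem_loc] at hx'
      rw [mem_loc]
      exact ⟨hx'.1, fun D hD => hx'.2 D (Finset.mem_of_mem_erase hD)⟩
    have hloc : loc (d.erase R) B = R := by
      by_contra hne
      have hlt' : R < loc (d.erase R) B := lt_of_le_of_ne hRle (fun h => hne h.symm)
      have hp : IsPGroup ℓ (loc (d.erase R) B) := hBp.to_le inf_le_left
      obtain ⟨x, hx1, hx2, hx3⟩ := grow hp hlt'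
      apply hx2
      rw [mem_loc] at hx1
      rw [hR, mem_loc]
      refine ⟨hx1.1, fun D hD hDB => ?_⟩
      by_cases hDR : D = R
      · rw [hDR]
        exact hx3
      · exact hx1.2 D (Finset.mem_erase.2 ⟨hDR, hD⟩) hDB
    have hIsB : IsB (d.erase R) B := by
      refine ⟨hBe, ?_, ?_⟩
      · by_contra hnb
        rw [bad] at hnb
        push Not at hnb
        have h1 : loc (d.erase R) B = B := by
          refine le_antisymm inf_le_left fun x hx => ?_
          rw [mem_loc]
          exact ⟨hx, fun D hD hDB => hnb D hD hDB hx⟩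
        rw [hloc] at h1
        exact hlt.ne h1
      · rintro D hD ⟨D', hD', h1, h2⟩
        exact hB.2.2 D (Finset.mem_of_mem_erase hD) ⟨D', Finset.mem_of_mem_erase hD', h1, h2⟩
    have hRbot : (⊥ : Subgroup G) ≠ R := by
      intro h
      obtain ⟨D, hD, h1, h2⟩ := hB.2.1
      apply h2
      have h3 := le_loc hch hB hD h1
      rw [← hR, ← h, le_bot_iff] at h3
      rw [h3]
      intro x _
      rw [Subgroup.mem_normalizer_iff]
      intro y
      rw [Subgroup.mem_bot, Subgroup.mem_bot, mul_inv_eq_one, mul_eq_left]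
    have htop : top (d.erase R) = top d := by
      refine le_antisymm (sSup_le_sSup fun D hD => Finset.mem_of_mem_erase hD) ?_
      refine sSup_le fun D hD => ?_
      by_cases hDR : D = R
      · rw [hDR]
        exact hlt.le.trans (le_sSup hBe)
      · exact le_sSup (Finset.mem_erase.2 ⟨hDR, hD⟩)
    have hst : stab (d.erase R) = stab d := by
      apply le_antisymm
      · intro g hg
        rw [mem_stab']
        intro D hD
        by_cases hDR : D = R
        · rw [hDR]
          have := stab_le_loc hBe hg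
          rwa [hloc] at this
        · exact (mem_stab'.1 hg) D (Finset.mem_erase.2 ⟨hDR, hD⟩)
      · intro g hg
        rw [mem_stab'] at hg ⊢
        exact fun D hD => hg D (Finset.mem_of_mem_erase hD)
    refine ⟨?_, hIsB, hloc, htop, hst⟩
    rw [mem_chainsOn]
    exact ⟨(Finset.erase_subset _ _).trans hsub, Finset.mem_erase.2 ⟨hRbot, hbot⟩,
      hch.mono (fun y hy => Finset.mem_of_mem_erase hy)⟩
  · -- insertion
    have et : toggle d R = insert R d := by rw [toggle, if_neg hmem]
    rw [et]
    have hBi : B ∈ insert R d := Finset.mem_insert_of_mem hB.1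
    have hRn : ∀ D ∈ d, D < B → R ≤ Subgroup.normalizer (D : Set G) := by
      intro D hD hDB x hx
      rw [hR, mem_loc] at hx
      exact hx.2 D hD hDB
    have hloc : loc (insert R d) B = R := by
      ext x
      rw [mem_loc]
      constructor
      · rintro ⟨h1, h2⟩
        rw [hR, mem_loc]
        exact ⟨h1, fun D hD => h2 D (Finset.mem_insert_of_mem hD)⟩
      · intro hx
        refine ⟨hlt.le hx, fun D hD hDB => ?_⟩
        rcases Finset.mem_insert.1 hD with h | h
        · rw [h]
          exact Subgroup.le_normalizer hx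
        · exact hRn D h hDB hx
    have hcmp : ∀ D ∈ d, D ≤ R ∨ R ≤ D := by
      intro D hD
      rcases chain_total hch hD hB.1 with h | h
      · rcases eq_or_lt_of_le h with h | h
        · rw [h]
          exact Or.inr hlt.le
        · exact Or.inl (le_loc hch hB hD h)
      · exact Or.inr (hlt.le.trans h)
    have hIsB : IsB (insert R d) B := by
      refine ⟨hBi, ?_, ?_⟩
      · obtain ⟨D, hD, h1, h2⟩ := hB.2.1
        exact ⟨D, Finset.mem_insert_of_mem hD, h1, h2⟩
      · rintro D hD ⟨D', hD', h1, h2⟩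
        rcases Finset.mem_insert.1 hD with h | h
        · subst h
          rcases Finset.mem_insert.1 hD' with h' | h'
          · exact absurd h' h1.ne
          · exact absurd (hRn D' h' (h1.trans hlt)) h2
        · by_contra hBD
          have hDB : D < B := by
            rcases chain_total hch h hB.1 with h3 | h3
            · exact lt_of_le_of_ne h3 (fun e => hBD e.ge)
            · exact absurd h3 hBD
          rcases Finset.mem_insert.1 hD' with h' | h'
          · rw [h'] at h1
            exact absurd (le_loc hch hB h hDB) (not_le_of_gt h1)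
          · exact hBD (hB.2.2 D h ⟨D', h', h1, h2⟩)
    have htop : top (insert R d) = top d := by
      refine le_antisymm (sSup_le fun D hD => ?_) (sSup_le_sSup fun D hD =>
        Finset.mem_insert_of_mem hD)
      rcases Finset.mem_insert.1 hD with h | h
      · rw [h]
        exact hlt.le.trans (le_sSup hB.1)
      · exact le_sSup h
    have hst : stab (insert R d) = stab d := by
      apply le_antisymm
      · intro g hg
        rw [mem_stab'] at hg ⊢
        exact fun D hD => hg D (Finset.mem_insert_of_mem hD)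
      · intro g hg
        rw [mem_stab']
        intro D hD
        rcases Finset.mem_insert.1 hD with h | h
        · rw [h]
          exact stab_le_loc hB.1 hg
        · exact (mem_stab'.1 hg) D h
    refine ⟨?_, hIsB, hloc, htop, hst⟩
    rw [mem_chainsOn]
    refine ⟨?_, Finset.mem_insert_of_mem hbot, ?_⟩
    · intro D hD
      rcases Finset.mem_insert.1 hD with h | h
      · rw [h]
        exact hRp
      · exact hsub h
    · rw [Finset.coe_insert]
      refine hch.insert ?_
      intro D hD _
      rcases hcmp D hD with h | h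
      · exact Or.inr h
      · exact Or.inl h

end main

open Classical in
/-- NCF: only the normal chains matter, for a family of `ℓ`-subgroups. -/
theorem ncf (ℓ : ℕ) [Fact ℓ.Prime] [Finite G] (P : Finset (Subgroup G))
    (hPp : ∀ D ∈ P, IsPGroup ℓ D)
    (hPl : ∀ c : Finset (Subgroup G), c ⊆ P → IsChain (· ≤ ·) (c : Set (Subgroup G)) →
      ∀ D ∈ c, loc c D ∈ P) (w : Subgroup G → Subgroup G → ℤ) :
    ∑ d ∈ chainsOn P ⊥, (-1) ^ (d.card + 1) * w (stab d) (top d) =
      ∑ d ∈ (chainsOn P ⊥).filter NormalChain, (-1) ^ (d.card + 1) * w (stab d) (top d) := by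
  set S := (chainsOn P ⊥).filter (fun d => ¬ NormalChain d) with hS
  have key : ∑ d ∈ S, (-1) ^ (d.card + 1) * w (stab d) (top d) = 0 := by
    have hex : ∀ d : Finset (Subgroup G), ∃ B, d ∈ S → IsB d B := by
      intro d
      by_cases hd : d ∈ S
      · rw [hS, Finset.mem_filter, mem_chainsOn] at hd
        obtain ⟨B, hB⟩ := exists_isB hd.1.2.2 hd.2
        exact ⟨B, fun _ => hB⟩
      · exact ⟨⊥, fun h => absurd h hd⟩
    choose B hB using hex
    have hmem : ∀ d ∈ S, toggle d (loc d (B d)) ∈ S := by
      intro d hd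
      have h1 := hB d hd
      rw [hS, Finset.mem_filter] at hd ⊢
      obtain ⟨a1, a2, a3, a4, a5⟩ := toggle_props hPp hPl hd.1 h1
      refine ⟨a1, fun hn => ?_⟩
      obtain ⟨D, hD, b1, b2⟩ := a2.2.1
      have := hn D hD
      exact b2 (((top_mem (mem_chainsOn.1 a1).2.2 ⟨D, hD⟩).2 _ a2.1).trans this)
    apply sum_toggle S (fun d => loc d (B d))
    · exact hmem
    · intro d hd
      have h1 := hB d hd
      obtain ⟨a1, a2, a3, a4, a5⟩ := toggle_props hPp hPl (Finset.mem_filter.1 hd).1 h1
      have h2 := hB _ (hmem d hd)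
      have h3 : B (toggle d (loc d (B d))) = B d := h2.unique a2
      change loc (toggle d (loc d (B d))) (B (toggle d (loc d (B d)))) = _
      rw [h3, a3]
    · intro d hd
      obtain ⟨a1, a2, a3, a4, a5⟩ := toggle_props hPp hPl (Finset.mem_filter.1 hd).1 (hB d hd)
      rw [a4, a5]
      have hc : (-1 : ℤ) ^ ((toggle d (loc d (B d))).card + 1) = - (-1) ^ (d.card + 1) := by
        by_cases hm : loc d (B d) ∈ d
        · have et : toggle d (loc d (B d)) = d.erase (loc d (B d)) := by rw [toggle, if_pos hm]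
          rw [et, Finset.card_erase_of_mem hm]
          have : 0 < d.card := Finset.card_pos.2 ⟨_, hm⟩
          obtain ⟨k, hk⟩ : ∃ k, d.card = k + 1 := ⟨d.card - 1, by omega⟩
          rw [hk, Nat.add_sub_cancel]
          ring
        · have et : toggle d (loc d (B d)) = insert (loc d (B d)) d := by rw [toggle, if_neg hm]
          rw [et, Finset.card_insert_of_notMem hm]
          ring
      rw [hc]
      ring
  rw [← Finset.sum_filter_add_sum_filter_not (chainsOn P ⊥) NormalChain, key, add_zero]

/-- NCH -/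
theorem nch : NchStmt := by
  classical
  intro ℓ _ G _ _ Q w
  refine ncf ℓ (psubIn ℓ Q) (fun D hD => (mem_psubIn.1 hD).2) ?_ w
  intro c hc _ D hD
  have h := mem_psubIn.1 (hc hD)
  exact mem_psubIn.2 ⟨inf_le_left.trans h.1, h.2.to_le inf_le_left⟩

end Pool.Agent.PP.H94
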