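import Pool.Agent.Helper94_PP.Clr

/-!
# Squad PP, module POS2: positivity over a normal subgroup implies positivity
-/

open scoped BigOperators

set_option linter.unusedSectionVars false

noncomputable section

namespace Pool.Agent.PP

open Pool.Agent.Helper51_AWC Pool.Agent.Helper79_WRA

/-- POS2: positivity over a normal subgroup implies positivity. -/
def Pos2Stmt : Prop := ∀ (ℓ : ℕ) (F : Type) [Field F], GoodF ℓ F → ∀ (H : Type) [Group H] [Finite H]
  (Q : Subgroup H), Q.Normal → ∀ e : H → F, IsIdem e → Pos ℓ e Q → Pos ℓ e ⊤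

namespace H94

variable {F : Type} [Field F] {H : Type} [Group H]

open Classical in
/-- the sum over all conjugates -/
theorem sum_conj {V : Type} [AddCommGroup V] [Fintype H] (x : H) (f : H → V) :
    ∑ g : H, f (g * x * g⁻¹) = Nat.card (Subgroup.centralizer ({x} : Set H)) •
      ∑ y : H, if ∃ g : H, y = g * x * g⁻¹ then f y else 0 := by
  have h1 : ∑ g : H, f (g * x * g⁻¹) =
      ∑ y : H, ∑ g ∈ Finset.univ.filter (fun g : H => g * x * g⁻¹ = y), f (g * x * g⁻¹) :=
    (Finset.sum_fiberwise _ _ _).symm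
  rw [h1, Finset.smul_sum]
  refine Finset.sum_congr rfl fun y _ => ?_
  by_cases hy : ∃ g : H, y = g * x * g⁻¹
  · rw [if_pos hy]
    obtain ⟨g₀, hg₀⟩ := hy
    have h2 : ∑ g ∈ Finset.univ.filter (fun g : H => g * x * g⁻¹ = y), f (g * x * g⁻¹) =
        ∑ g ∈ Finset.univ.filter (fun g : H => g * x * g⁻¹ = y), f y := by
      refine Finset.sum_congr rfl fun g hg => ?_
      rw [(Finset.mem_filter.1 hg).2]
    rw [h2, Finset.sum_const]
    congr 1
    rw [Nat.card_eq_fintype_card, ← Finset.card_univ]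
    symm
    refine Finset.card_bij (fun c _ => g₀ * (c : H)) ?_ ?_ ?_
    · intro c _
      rw [Finset.mem_filter]
      refine ⟨Finset.mem_univ _, ?_⟩
      have hc := Subgroup.mem_centralizer_singleton_iff.1 c.2
      rw [hg₀]
      have : g₀ * (c : H) * x * (g₀ * (c : H))⁻¹ = g₀ * ((c : H) * x) * (c : H)⁻¹ * g₀⁻¹ := by
        group
      rw [this, hc]
      group
    · intro c _ c' _ h
      exact Subtype.ext (mul_left_cancel h)
    · intro g hg
      have hg' := (Finset.mem_filter.1 hg).2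
      refine ⟨⟨g₀⁻¹ * g, ?_⟩, Finset.mem_univ _, by rw [mul_inv_cancel_left]⟩
      rw [Subgroup.mem_centralizer_singleton_iff]
      rw [hg₀] at hg'
      have h3 : g * x = g₀ * x * g₀⁻¹ * g := by
        rw [← hg', inv_mul_cancel_right]
      rw [mul_assoc, h3]
      group
  · rw [if_neg hy, smul_zero]
    refine Finset.sum_eq_zero fun g hg => ?_
    exact absurd ⟨g, (Finset.mem_filter.1 hg).2.symm⟩ hy

theorem clsum_isCl (Q : Subgroup H) [Q.Normal] (x : H) :
    ∀ z y, y ∈ Q → clsum F Q x (y * z * y⁻¹) = clsum F Q x z := by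
  classical
  intro z y hy
  unfold clsum
  congr 1
  apply propext
  constructor
  · rintro ⟨q, hq, h⟩
    refine ⟨y⁻¹ * q, Q.mul_mem (Q.inv_mem hy) hq, ?_⟩
    have : z = y⁻¹ * (y * z * y⁻¹) * y := by group
    rw [this, h]
    group
  · rintro ⟨q, hq, rfl⟩
    exact ⟨y * q, Q.mul_mem hy hq, by group⟩

theorem card_cent (Q : Subgroup H) (x : Q) :
    Nat.card (Subgroup.centralizer ({x} : Set Q)) =
      Nat.card (Subgroup.centralizer ({(x : H)} : Set H) ⊓ Q : Subgroup H) := by
  refine Nat.card_congr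
    { toFun := fun c => ⟨(c : Q), ?_, (c : Q).2⟩
      invFun := fun c => ⟨⟨c, c.2.2⟩, ?_⟩
      left_inv := fun c => rfl
      right_inv := fun c => rfl }
  · have := Subgroup.mem_centralizer_singleton_iff.1 c.2
    exact Subgroup.mem_centralizer_singleton_iff.2 (congrArg Subtype.val this)
  · have := Subgroup.mem_centralizer_singleton_iff.1 c.2.1
    exact Subgroup.mem_centralizer_singleton_iff.2 (Subtype.ext this)

/-- The value of a function vanishing outside of a subgroup. -/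
theorem ev_restrict [Finite H] {n : ℕ} (ρ : H →* Matrix (Fin n) (Fin n) F) (Q : Subgroup H)
    (b : H → F) (hb : ∀ x, x ∉ Q → b x = 0) :
    ev ρ b = ev (ρ.comp Q.subtype) (fun q : Q => b q) := by
  classical
  have := Fintype.ofFinite H
  rw [ev, ev, finsum_eq_sum_of_fintype, finsum_eq_sum_of_fintype]
  rw [← Finset.sum_subset (Finset.subset_univ (Finset.univ.filter (fun x : H => x ∈ Q)))]
  · refine (Finset.sum_bij (fun (q : Q) _ => (q : H)) ?_ ?_ ?_ ?_).symm
    · intro q _
      exact Finset.mem_filter.2 ⟨Finset.mem_univ _, q.2⟩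
    · intro q _ q' _ h
      exact Subtype.ext h
    · intro x hx
      exact ⟨⟨x, (Finset.mem_filter.1 hx).2⟩, Finset.mem_univ _, rfl⟩
    · intro q _
      rfl
  · intro x _ hx
    rw [hb x (fun h => hx (Finset.mem_filter.2 ⟨Finset.mem_univ _, h⟩)), zero_smul]

/-- sums over a group by cosets of a subgroup -/
theorem sum_cosets {V : Type} [AddCommGroup V] [Fintype H] (Q : Subgroup H) (f : H → V)
    (h0 : ∀ r : H, ∑ᶠ q : Q, f (r * q) = 0) : ∑ h : H, f h = 0 := by
  classical
  have hb : Function.Bijective (fun p : (H ⧸ Q) × Q => p.1.out * (p.2 : H)) := by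
    constructor
    · rintro ⟨c, q⟩ ⟨c', q'⟩ h
      have h1 : c.out * (q : H) = c'.out * (q' : H) := h
      have h2 : c = c' := by
        have e1 : ((c.out * (q : H) : H) : H ⧸ Q) = c := by
          rw [QuotientGroup.mk_mul_of_mem _ q.2]
          exact Quotient.out_eq' c
        have e2 : ((c'.out * (q' : H) : H) : H ⧸ Q) = c' := by
          rw [QuotientGroup.mk_mul_of_mem _ q'.2]
          exact Quotient.out_eq' c'
        rw [← e1, ← e2, h1]
      subst h2
      rw [Prod.mk.injEq]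
      exact ⟨rfl, Subtype.ext (mul_left_cancel h1)⟩
    · intro h
      refine ⟨⟨(h : H ⧸ Q), ⟨((h : H ⧸ Q)).out⁻¹ * h, ?_⟩⟩, ?_⟩
      · rw [← QuotientGroup.eq]
        exact Quotient.out_eq' _
      · exact mul_inv_cancel_left _ _
  rw [← (Equiv.ofBijective _ hb).sum_comp f, Fintype.sum_prod_type]
  refine Finset.sum_eq_zero fun c _ => ?_
  rw [← h0 c.out, finsum_eq_sum_of_fintype]
  rfl

/-- `ev` as a linear map -/
def evL [Finite H] {n : ℕ} (ρ : H →* Matrix (Fin n) (Fin n) F) :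
    (H → F) →ₗ[F] Matrix (Fin n) (Fin n) F := (repA ρ).toLinearMap ∘ₗ maL.toLinearMap

theorem evL_apply [Finite H] {n : ℕ} (ρ : H →* Matrix (Fin n) (Fin n) F) (a : H → F) :
    evL ρ a = ev ρ a := (ev_eq ρ a).symm

theorem evL_surj [Finite H] {n : ℕ} {ρ : H →* Matrix (Fin n) (Fin n) F} (hρ : IsIrr ρ) :
    Function.Surjective (evL ρ) := (repA_surj hρ).comp maL.surjective

theorem ev_clsum [Fintype H] {n : ℕ} (ρ : H →* Matrix (Fin n) (Fin n) F) (x : H) :
    ∑ g : H, ρ g * ρ x * ρ g⁻¹ =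
      (Nat.card (Subgroup.centralizer ({x} : Set H)) : F) • ev ρ (clsum F ⊤ x) := by
  classical
  have h1 := sum_conj x (fun y => ρ y)
  have h2 : ∑ g : H, ρ g * ρ x * ρ g⁻¹ = ∑ g : H, ρ (g * x * g⁻¹) :=
    Finset.sum_congr rfl fun g _ => by rw [map_mul, map_mul]
  rw [h2, h1, ← Nat.cast_smul_eq_nsmul F, ev, finsum_eq_sum_of_fintype]
  congr 1
  refine Finset.sum_congr rfl fun y _ => ?_
  unfold clsum
  by_cases hy : ∃ g : H, y = g * x * g⁻¹
  · rw [if_pos hy, if_pos (by obtain ⟨g, hg⟩ := hy; exact ⟨g, trivial, hg⟩), one_smul]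
  · rw [if_neg hy, if_neg (by rintro ⟨g, _, hg⟩; exact hy ⟨g, hg⟩), zero_smul]

theorem clsum_restrict (Q : Subgroup H) (y : Q) :
    (fun q : Q => clsum F Q (y : H) q) = clsum F (⊤ : Subgroup Q) y := by
  classical
  funext q
  unfold clsum
  congr 1
  apply propext
  constructor
  · rintro ⟨r, hr, h⟩
    exact ⟨⟨r, hr⟩, trivial, Subtype.ext h⟩
  · rintro ⟨r, _, h⟩
    exact ⟨r, r.2, congrArg Subtype.val h⟩

theorem clsum_outside (Q : Subgroup H) (y : Q) (x : H) (hx : x ∉ Q) :
    clsum F Q (y : H) x = 0 := by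
  classical
  unfold clsum
  rw [if_neg]
  rintro ⟨q, hq, rfl⟩
  exact hx (Q.mul_mem (Q.mul_mem hq y.2) (Q.inv_mem hq))

theorem ev_intertwine [Finite H] {n m : ℕ} (ρ : H →* Matrix (Fin n) (Fin n) F)
    (τ : H →* Matrix (Fin m) (Fin m) F) (Y : Matrix (Fin n) (Fin m) F)
    (h : ∀ g, ρ g * Y = Y * τ g) (a : H → F) : ev ρ a * Y = Y * ev τ a := by
  have := Fintype.ofFinite H
  rw [ev, ev, finsum_eq_sum_of_fintype, finsum_eq_sum_of_fintype, Matrix.sum_mul, Matrix.mul_sum]
  refine Finset.sum_congr rfl fun t _ => ?_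
  rw [Matrix.smul_mul, Matrix.mul_smul, h]

theorem mul_single_mul {a b : ℕ} (A : Matrix (Fin a) (Fin a) F) (B : Matrix (Fin b) (Fin b) F)
    (i j : Fin a) (k l : Fin b) :
    (A * Matrix.single j k (1 : F) * B) i l = A i j * B k l := by
  rw [Matrix.mul_apply, Finset.sum_eq_single k]
  · rw [Matrix.mul_single_apply_same, mul_one]
  · intro c _ hc
    rw [Matrix.mul_single_apply_of_ne _ _ _ _ _ hc, zero_mul]
  · intro h
    exact absurd (Finset.mem_univ _) h

theorem bil_zero {ι : Type} [Fintype ι] {a b n : ℕ}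
    (L : Matrix (Fin a) (Fin a) F →ₗ[F] Matrix (Fin n) (Fin n) F)
    (R : Matrix (Fin b) (Fin b) F →ₗ[F] Matrix (Fin n) (Fin n) F) (Z : Matrix (Fin n) (Fin n) F)
    (A : ι → Matrix (Fin a) (Fin a) F) (B : ι → Matrix (Fin b) (Fin b) F)
    (h : ∀ (j : Fin a) (k : Fin b), ∑ q, A q * Matrix.single j k (1 : F) * B q = 0) :
    ∑ q, L (A q) * Z * R (B q) = 0 := by
  classical
  have hexp : ∀ {c : ℕ} (T : Matrix (Fin c) (Fin c) F →ₗ[F] Matrix (Fin n) (Fin n) F)
      (X : Matrix (Fin c) (Fin c) F), T X = ∑ i, ∑ j, X i j • T (Matrix.single i j 1) := by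
    intro c T X
    conv_lhs => rw [Matrix.matrix_eq_sum_single X]
    rw [map_sum]
    refine Finset.sum_congr rfl fun i _ => ?_
    rw [map_sum]
    refine Finset.sum_congr rfl fun j _ => ?_
    rw [← map_smul, Matrix.smul_single, smul_eq_mul, mul_one]
  have e2 : ∀ q, L (A q) * Z * R (B q) = ∑ i, ∑ j, ∑ k, ∑ l, (A q i j * B q k l) •
      (L (Matrix.single i j 1) * Z * R (Matrix.single k l 1)) := by
    intro q
    rw [hexp L (A q), Finset.sum_mul, Finset.sum_mul]
    refine Finset.sum_congr rfl fun i _ => ?_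
    rw [Finset.sum_mul, Finset.sum_mul]
    refine Finset.sum_congr rfl fun j _ => ?_
    rw [hexp R (B q), Finset.mul_sum]
    refine Finset.sum_congr rfl fun k _ => ?_
    rw [Finset.mul_sum]
    refine Finset.sum_congr rfl fun l _ => ?_
    rw [smul_mul_assoc, smul_mul_assoc, mul_smul_comm, smul_smul]
  simp only [e2]
  rw [Finset.sum_comm]
  refine Finset.sum_eq_zero fun i _ => ?_
  rw [Finset.sum_comm]
  refine Finset.sum_eq_zero fun j _ => ?_
  rw [Finset.sum_comm]
  refine Finset.sum_eq_zero fun k _ => ?_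
  rw [Finset.sum_comm]
  refine Finset.sum_eq_zero fun l _ => ?_
  rw [← Finset.sum_smul]
  have h1 := congrFun (congrFun (h j k) i) l
  rw [Matrix.sum_apply] at h1
  simp only [mul_single_mul] at h1
  rw [h1]
  exact zero_smul _ _

/-- POS2 -/
theorem pos2 : Pos2Stmt := by
  classical
  intro ℓ F _ hF H _ _ Q hQ e he hpos x _ hx
  have := hF.closed
  have := hF.char
  have hfH := Fintype.ofFinite H
  have hfQ := Fintype.ofFinite Q
  by_contra hcon
  push Not at hcon
  set K := clsum F (⊤ : Subgroup H) x with hK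
  have hKc : IsCl K := fun z y => clsum_isCl ⊤ x z y trivial
  -- an irreducible representation
  obtain ⟨n, ρ, hρ, hne⟩ : ∃ (n : ℕ) (ρ : H →* Matrix (Fin n) (Fin n) F),
      IsIrr ρ ∧ ev ρ (mulF K e) ≠ 0 := by
    by_contra hc
    push Not at hc
    obtain ⟨k, hk⟩ := H20.ibn ℓ F hF H (mulF K e) hc
    apply hcon (k + 1)
    apply ma_injective
    rw [ma_iterate, ma_zero]
    have h1 := congrArg ma hk
    rw [ma_iterate, ma_mul, ma_zero, ← pow_succ] at h1
    have hcomm : Commute (ma K) (ma e) :=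
      ((Subalgebra.mem_center_iff.1 ((isCl_iff K).1 hKc)) (ma e)).symm
    rw [hcomm.mul_pow, ((isIdem_iff e).1 he).2.pow_succ_eq] at h1
    exact h1
  obtain ⟨κ, hκ, -, -⟩ := H20.eig F H n ρ hρ K hKc
  obtain ⟨w, hw, -, hw01⟩ := H20.eig F H n ρ hρ e he.1
  rw [ev_mulF, hκ, hw] at hne
  have hκ0 : κ ≠ 0 := by
    rintro rfl
    apply hne
    rw [map_zero, zero_mul]
  have hw1 : w = 1 := by
    rcases hw01 he with h | h
    · subst h
      exact absurd (by rw [map_zero, mul_zero]) hne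
    · exact h
  subst hw1
  rw [map_one] at hw
  set ρ' : Q →* Matrix (Fin n) (Fin n) F := ρ.comp Q.subtype with hρ'
  have hn0 : NeZero n := ⟨hρ.1.ne'⟩
  -- the irreducible representations of `Q`
  obtain ⟨hfin, -⟩ := H20.ibf ℓ F hF Q
  have hfin' : Finite (IBr F Q) := hfin
  have hft := Fintype.ofFinite (IBr F Q)
  choose d σ hσ htr using fun i : IBr F Q => i.2
  have hinj : Function.Injective (fun i => tr (σ i)) := by
    intro i j h
    exact Subtype.ext ((htr i).trans (h.trans (htr j).symm))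
  have hJ : ∀ a : Q → F, (∀ i, ev (σ i) a = 0) → ev ρ' a = 0 := by
    intro a ha
    apply clr' Q hρ
    intro k τ hτ
    have hm : tr τ ∈ IBr F Q := ⟨k, τ, hτ, rfl⟩
    obtain ⟨X, Y, hkd, hXY, hYX, hX⟩ := H20.ibc ℓ F hF Q _ _ τ (σ ⟨tr τ, hm⟩) hτ (hσ _)
      (htr ⟨tr τ, hm⟩)
    have h2 : X * ev τ a = ev (σ ⟨tr τ, hm⟩) a * X := by
      exact (ev_intertwine _ _ X (fun g => (hX g).symm) a).symm
    rw [ha, Matrix.zero_mul] at h2
    calc ev τ a = Y * (X * ev τ a) := by rw [← Matrix.mul_assoc, hYX, Matrix.one_mul]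
      _ = 0 := by rw [h2, Matrix.mul_zero]
  have hf : ∀ i, ∃ f : Q → F, ∀ j, ev (σ j) f = if j = i then 1 else 0 := fun i =>
    H20.ibj ℓ F hF Q (IBr F Q) d σ hσ hinj (fun j => if j = i then 1 else 0)
  choose f hf using hf
  have hev_sum : ∀ {m : ℕ} (τ : Q →* Matrix (Fin m) (Fin m) F) (s : IBr F Q → Q → F),
      ev τ (∑ i, s i) = ∑ i, ev τ (s i) := by
    intro m τ s
    rw [← evL_apply, map_sum]
    exact Finset.sum_congr rfl fun i _ => evL_apply τ _
  have hev_sub : ∀ {m : ℕ} (τ : Q →* Matrix (Fin m) (Fin m) F) (a b : Q → F),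
      ev τ (a - b) = ev τ a - ev τ b := by
    intro m τ a b
    rw [← evL_apply, map_sub, evL_apply, evL_apply]
  set P : IBr F Q → Matrix (Fin n) (Fin n) F := fun i => ev ρ' (f i) with hP
  have hone : ∑ i, P i = 1 := by
    have h1 := hJ (dl F 1 - ∑ i, f i) (by
      intro j
      rw [hev_sub, ev_dl, map_one, hev_sum]
      simp only [hf]
      rw [Finset.sum_ite_eq Finset.univ j, if_pos (Finset.mem_univ _), sub_self])
    rw [hev_sub, ev_dl, map_one, hev_sum, sub_eq_zero] at h1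
    exact h1.symm
  -- linear sections
  have hs : ∀ i, ∃ s : Matrix (Fin (d i)) (Fin (d i)) F →ₗ[F] (Q → F), ∀ X, ev (σ i) (s X) = X := by
    intro i
    obtain ⟨s, hs⟩ := (evL (σ i)).exists_rightInverse_of_surjective
      (LinearMap.range_eq_top.2 (evL_surj (hσ i)))
    refine ⟨s, fun X => ?_⟩
    rw [← evL_apply]
    exact LinearMap.congr_fun hs X
  choose s hs using hs
  let L : ∀ i, Matrix (Fin (d i)) (Fin (d i)) F →ₗ[F] Matrix (Fin n) (Fin n) F := fun i =>
    (LinearMap.mulRight F (P i)) ∘ₗ (evL ρ') ∘ₗ s i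
  let R : ∀ i, Matrix (Fin (d i)) (Fin (d i)) F →ₗ[F] Matrix (Fin n) (Fin n) F := fun i =>
    (LinearMap.mulLeft F (P i)) ∘ₗ (evL ρ') ∘ₗ s i
  have hL : ∀ i a, ev ρ' a * P i = L i (ev (σ i) a) := by
    intro i a
    change _ = evL ρ' (s i (ev (σ i) a)) * P i
    rw [evL_apply, ← sub_eq_zero, ← sub_mul, ← hev_sub]
    change _ * ev ρ' (f i) = 0
    rw [← ev_mulF]
    apply hJ
    intro j
    rw [ev_mulF, hf, hev_sub]
    by_cases hji : j = i
    · subst hji
      rw [hs, sub_self, zero_mul]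
    · rw [if_neg hji, mul_zero]
  have hR : ∀ i a, P i * ev ρ' a = R i (ev (σ i) a) := by
    intro i a
    change _ = P i * evL ρ' (s i (ev (σ i) a))
    rw [evL_apply, ← sub_eq_zero, ← mul_sub, ← hev_sub]
    change ev ρ' (f i) * _ = 0
    rw [← ev_mulF]
    apply hJ
    intro j
    rw [ev_mulF, hf, hev_sub]
    by_cases hji : j = i
    · subst hji
      rw [hs, sub_self, mul_zero]
    · rw [if_neg hji, zero_mul]
  -- defect zero classes act as zero
  have hdz : ∀ i, P i ≠ 0 → ∀ y : Q, ¬ ℓ ∣ Nat.card (Subgroup.centralizer ({y} : Set Q)) →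
      ev (σ i) (clsum F (⊤ : Subgroup Q) y) = 0 := by
    intro i hi y hy
    obtain ⟨k, hk⟩ := hpos y y.2 (by rwa [← card_cent])
    have h1 := congrArg (ev ρ) hk
    rw [ev_iterate, hw, mul_one, ev_restrict ρ Q _ (clsum_outside Q y), clsum_restrict] at h1
    have h2 : ev ρ (0 : H → F) = 0 := by rw [ev_eq, ma_zero, map_zero]
    rw [h2] at h1
    obtain ⟨c, hc, -, -⟩ := H20.eig F Q _ (σ i) (hσ i) (clsum F (⊤ : Subgroup Q) y)
      (fun z u => clsum_isCl ⊤ y z u trivial)
    have h3 : ev ρ' (clsum F (⊤ : Subgroup Q) y) * P i = c • P i := by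
      have e1 : P i = L i 1 := by
        have := hL i (dl F 1)
        rwa [ev_dl, map_one, one_mul, ev_dl, map_one] at this
      rw [hL, hc, e1, ← map_smul]
      congr 1
      rw [Matrix.scalar_apply, Matrix.smul_one_eq_diagonal]
    have h4 : ∀ m : ℕ, ev ρ' (clsum F (⊤ : Subgroup Q) y) ^ m * P i = c ^ m • P i := by
      intro m
      induction m with
      | zero => rw [pow_zero, pow_zero, one_mul, one_smul]
      | succ m ih => rw [pow_succ, mul_assoc, h3, mul_smul_comm, ih, smul_smul, pow_succ, mul_comm]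
    have h5 := h4 k
    rw [h1, zero_mul] at h5
    have h6 : c ^ k = 0 := by
      rcases smul_eq_zero.1 h5.symm with h | h
      · exact h
      · exact absurd h hi
    have h7 : c = 0 := eq_zero_of_pow_eq_zero h6
    rw [hc, h7, map_zero]
  -- orthogonality
  have hcoef : ∀ i j, P i ≠ 0 → ∀ (b : Fin (d i)) (c : Fin (d j)),
      ∑ q : Q, σ i q * Matrix.single b c (1 : F) * σ j q⁻¹ = 0 := by
    intro i j hi b c
    by_cases hij : i = j
    · subst hij
      obtain ⟨a, ha⟩ : ∃ a, ev (σ i) a = Matrix.single b c (1 : F) := ⟨_, hs i _⟩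
      rw [← ha]
      have e1 : ∀ q : Q, σ i q * ev (σ i) a * σ i q⁻¹ =
          ∑ y : Q, a y • (σ i q * σ i y * σ i q⁻¹) := by
        intro q
        rw [ev, finsum_eq_sum_of_fintype, Finset.mul_sum, Finset.sum_mul]
        refine Finset.sum_congr rfl fun y _ => ?_
        rw [mul_smul_comm, smul_mul_assoc]
      simp only [e1]
      rw [Finset.sum_comm]
      refine Finset.sum_eq_zero fun y _ => ?_
      rw [← Finset.smul_sum, ev_clsum]
      by_cases hy : ℓ ∣ Nat.card (Subgroup.centralizer ({y} : Set Q))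
      · rw [(CharP.cast_eq_zero_iff F ℓ _).2 hy, zero_smul, smul_zero]
      · rw [hdz i hi y hy, smul_zero, smul_zero]
    · set Y := ∑ q : Q, σ i q * Matrix.single b c (1 : F) * σ j q⁻¹ with hY
      have h1 : ∀ g : Q, σ i g * Y = Y * σ j g := by
        intro g
        rw [hY, Matrix.mul_sum, Matrix.sum_mul]
        rw [← Equiv.sum_comp (Equiv.mulLeft g : Q ≃ Q)
          (fun q => σ i q * Matrix.single b c (1 : F) * σ j q⁻¹ * σ j g)]
        refine Finset.sum_congr rfl fun q _ => ?_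
        change _ = σ i (g * q) * Matrix.single b c (1 : F) * σ j (g * q)⁻¹ * σ j g
        rw [mul_inv_rev, Matrix.mul_assoc _ (σ j _) (σ j g), ← map_mul (σ j),
          inv_mul_cancel_right, map_mul (σ i)]
        simp only [Matrix.mul_assoc]
      have h2 : ev (σ i) (f i) * Y = Y * ev (σ j) (f i) := ev_intertwine _ _ Y h1 (f i)
      rw [hf, hf, if_pos rfl, if_neg (fun h => hij h.symm), Matrix.one_mul, Matrix.mul_zero] at h2
      exact h2
  -- the trace from the trivial subgroup to `Q` is zero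
  have hT : ∀ Z : Matrix (Fin n) (Fin n) F, ∑ q : Q, ρ' q * Z * ρ' q⁻¹ = 0 := by
    intro Z
    have e1 : ∀ q : Q, ρ' q * Z * ρ' q⁻¹ =
        ∑ i, ∑ j, L i (σ i q) * Z * R j (σ j q⁻¹) := by
      intro q
      have a1 : ρ' q = ∑ i, L i (σ i q) := by
        rw [← mul_one (ρ' q), ← hone, Finset.mul_sum]
        refine Finset.sum_congr rfl fun i _ => ?_
        have := hL i (dl F q)
        rwa [ev_dl, ev_dl] at this
      have a2 : ρ' q⁻¹ = ∑ j, R j (σ j q⁻¹) := by
        rw [← one_mul (ρ' q⁻¹), ← hone, Finset.sum_mul]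
        refine Finset.sum_congr rfl fun i _ => ?_
        have := hR i (dl F q⁻¹)
        rwa [ev_dl, ev_dl] at this
      rw [a1, a2, Finset.sum_mul, Finset.sum_mul]
      refine Finset.sum_congr rfl fun i _ => ?_
      rw [Finset.mul_sum]
    simp only [e1]
    rw [Finset.sum_comm]
    refine Finset.sum_eq_zero fun i _ => ?_
    rw [Finset.sum_comm]
    refine Finset.sum_eq_zero fun j _ => ?_
    by_cases hi : P i = 0
    · refine Finset.sum_eq_zero fun q _ => ?_
      have : L i (σ i q) = 0 := by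
        change evL ρ' (s i (σ i q)) * P i = 0
        rw [hi, mul_zero]
      rw [this, zero_mul, zero_mul]
    · exact bil_zero (L i) (R j) Z (fun q => σ i q) (fun q => σ j q⁻¹) (hcoef i j hi)
  -- conclusion
  have h1 : ∑ h : H, ρ h * ρ x * ρ h⁻¹ = 0 := by
    apply sum_cosets Q (fun h => ρ h * ρ x * ρ h⁻¹)
    intro r
    rw [finsum_eq_sum_of_fintype]
    have e1 : ∀ q : Q, ρ (r * (q : H)) * ρ x * ρ (r * (q : H))⁻¹ =
        ρ r * (ρ' q * ρ x * ρ' q⁻¹) * ρ r⁻¹ := by
      intro q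
      change _ = ρ r * (ρ (q : H) * ρ x * ρ ((q : H)⁻¹)) * ρ r⁻¹
      rw [mul_inv_rev, map_mul, map_mul]
      simp only [mul_assoc]
    simp only [e1]
    rw [← Finset.sum_mul, ← Finset.mul_sum, hT, mul_zero, zero_mul]
  rw [ev_clsum, hκ] at h1
  have h2 : (Nat.card (Subgroup.centralizer ({x} : Set H)) : F) ≠ 0 := by
    rw [Ne, CharP.cast_eq_zero_iff F ℓ]
    rwa [inf_top_eq] at hx
  rcases smul_eq_zero.1 h1 with h | h
  · exact h2 h
  · have h3 := congrFun (congrFun h 0) 0
    rw [Matrix.scalar_apply, Matrix.diagonal_apply_eq] at h3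
    exact hκ0 h3

end H94

end Pool.Agent.PP
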