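import Pool.Agent.Helper94_PP.Sum
import Pool.Agent.Helper96_PP.Trn
import Pool.Agent.Helper74_PP.Chf
import Pool.Agent.Helper75_PP.Transport
import Pool.Agent.Helper66_PP.Pos1

/-!
# Squad PP, part J, module DB2 (AWC_J, J7.6, 7.7): the double
-/

open scoped BigOperators

set_option linter.unusedSectionVars false

noncomputable section

namespace Pool.Agent.PP.H94

open Pool.Agent.Helper51_AWC Pool.Agent.Helper79_WRA Pool.Agent.PP

section dz

variable {F A B : Type} [Field F] [Group A] [Group B]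

theorem card_cent_equiv' (e : A ≃* B) (x : A) :
    Nat.card (Subgroup.centralizer ({x} : Set A)) =
    Nat.card (Subgroup.centralizer ({e x} : Set B)) := by
  refine Nat.card_congr (Equiv.subtypeEquiv e.toEquiv fun y => ?_)
  rw [Subgroup.mem_centralizer_singleton_iff, Subgroup.mem_centralizer_singleton_iff]
  constructor
  · intro h
    change e y * e x = e x * e y
    rw [← map_mul, h, map_mul]
  · intro h
    apply e.injective
    rw [map_mul, map_mul]
    exact h

theorem clsum_equiv (e : A ≃* B) (x : A) :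
    (fun y : B => clsum F (⊤ : Subgroup A) x (e.symm y)) = clsum F ⊤ (e x) := by
  classical
  funext y
  unfold clsum
  congr 1
  apply propext
  constructor
  · rintro ⟨q, -, h⟩
    refine ⟨e q, trivial, ?_⟩
    rw [← map_mul, ← map_inv, ← map_mul, ← h, e.apply_symm_apply]
  · rintro ⟨q, -, h⟩
    refine ⟨e.symm q, trivial, ?_⟩
    rw [h, map_mul, map_mul, map_inv, e.symm_apply_apply]

/-- the projective centre and isomorphisms -/
theorem dz_equiv {ℓ : ℕ} (e : A ≃* B) {b : B → F} (h : DZ ℓ (fun x => b (e x))) : DZ ℓ b := by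
  let L : (A → F) →ₗ[F] (B → F) := LinearMap.funLeft F F e.symm
  have h1 : L (fun x => b (e x)) = b := by
    funext y
    change b (e (e.symm y)) = b y
    rw [e.apply_symm_apply]
  rw [← h1]
  unfold DZ at h ⊢
  have h2 := Submodule.mem_map_of_mem (f := L) h
  rw [Submodule.map_span] at h2
  refine Submodule.span_mono ?_ h2
  rintro _ ⟨_, ⟨x, hx, rfl⟩, rfl⟩
  refine ⟨e x, ?_, clsum_equiv e x⟩
  rwa [← card_cent_equiv' e x]

end dz

/-- two functions with the same Brauer map have the same `ℓ`-numbers -/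
theorem lnum_congr_br {ℓ : ℕ} {F : Type} [Field F] (hF : GoodF ℓ F) (hnls : NlsStmt) {G : Type}
    [Group G] [Finite G] {P X : Subgroup G} (hP : IsPGroup ℓ P) (hPX : P ≤ X)
    (hXP : X ≤ Subgroup.normalizer (P : Set G)) {a b : G → F} (ha : IsCl (fun t : X => a t))
    (hb : IsCl (fun t : X => b t)) (hab : br P a = br P b) : lnum X a = lnum X b := by
  have hn : (P.subgroupOf X).Normal := (Subgroup.normal_subgroupOf_iff_le_normalizer hPX).2 hXP
  have hp : IsPGroup ℓ (P.subgroupOf X) := hP.comap_of_injective X.subtype X.subtype_injective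
  have hbr : ∀ c : G → F, br (P.subgroupOf X) (fun t : X => c t) = fun t : X => br P c t := by
    intro c
    funext t
    unfold br
    have hiff : t ∈ Subgroup.centralizer ((P.subgroupOf X : Subgroup X) : Set X) ↔
        (t : G) ∈ Subgroup.centralizer (P : Set G) := by
      rw [Subgroup.mem_centralizer_iff, Subgroup.mem_centralizer_iff]
      constructor
      · intro h y hy
        exact congrArg Subtype.val (h ⟨y, hPX hy⟩ hy)
      · intro h y hy
        exact Subtype.ext (h y hy)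
    by_cases h : (t : G) ∈ Subgroup.centralizer (P : Set G)
    · rw [if_pos h, if_pos (hiff.2 h)]
    · rw [if_neg h, if_neg (fun h2 => h (hiff.1 h2))]
  have key : ∀ f ∈ IBr F X, actF (fun t : X => a t) f = actF (fun t : X => b t) f := by
    rintro f ⟨n, ρ, hρ, rfl⟩
    have h3 := ((hnls ℓ F hF X (P.subgroupOf X) hn hp n ρ hρ).2 _ ha).2
    have h4 := ((hnls ℓ F hF X (P.subgroupOf X) hn hp n ρ hρ).2 _ hb).2
    rw [h3, h4, hbr, hbr, hab]
  unfold lnum
  congr 1
  ext f
  constructor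
  · rintro ⟨hf, h2⟩
    exact ⟨hf, by rw [← key f hf]; exact h2⟩
  · rintro ⟨hf, h2⟩
    exact ⟨hf, by rw [key f hf]; exact h2⟩

section lam

variable {X : Type} [Group X] (Y : Subgroup X) [hY : Y.Normal]

/-- the first projection -/
def pr1 : Lam Y →* X := (MonoidHom.fst X X).comp (Lam Y).subtype

/-- the second projection -/
def pr2 : Lam Y →* X := (MonoidHom.snd X X).comp (Lam Y).subtype

theorem pr1_apply (p : Lam Y) : pr1 Y p = p.1.1 := rfl

theorem pr2_apply (p : Lam Y) : pr2 Y p = p.1.2 := rfl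

variable {Y}

theorem lam_ext {p q : Lam Y} (h1 : p.1.1 = q.1.1) (h2 : p.1.2 = q.1.2) : p = q :=
  Subtype.ext (Prod.ext h1 h2)

theorem mem_lam (p : Lam Y) : p.1.1⁻¹ * p.1.2 ∈ Y := p.2

theorem fst_mem_iff (p : Lam Y) : p.1.1 ∈ Y ↔ p.1.2 ∈ Y := by
  have h := mem_lam p
  constructor
  · intro h1
    have := Y.mul_mem h1 h
    rwa [mul_inv_cancel_left] at this
  · intro h1
    have := Y.mul_mem h1 (Y.inv_mem h)
    rw [mul_inv_rev, inv_inv, mul_inv_cancel_left] at this
    exact this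

/-- elements of the double -/
def mkL (a : X) (n : Y) : Lam Y := ⟨(a, a * n), by
  change a⁻¹ * (a * n) ∈ Y
  rw [inv_mul_cancel_left]
  exact n.2⟩

/-- the equivalence of the double with `X × Y` -/
def lamEquiv : X × Y ≃ Lam Y where
  toFun := fun p => mkL p.1 p.2
  invFun := fun p => (p.1.1, ⟨p.1.1⁻¹ * p.1.2, mem_lam p⟩)
  left_inv := fun _ => Prod.ext rfl (Subtype.ext (inv_mul_cancel_left _ _))
  right_inv := fun _ => lam_ext rfl (mul_inv_cancel_left _ _)

theorem sum_lam {V : Type*} [AddCommMonoid V] [Fintype X] [Fintype Y] [Fintype (Lam Y)]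
    (g : Lam Y → V) : ∑ p, g p = ∑ a : X, ∑ n : Y, g (mkL a n) := by
  rw [← Equiv.sum_comp lamEquiv g, Fintype.sum_prod_type]
  rfl

/-- `(1, y)` and `(y, 1)` -/
def inL (y : Y) : Lam Y := ⟨(y, 1), by
  change (y : X)⁻¹ * 1 ∈ Y
  rw [mul_one]
  exact Y.inv_mem y.2⟩

def inR (y : Y) : Lam Y := ⟨(1, y), by
  change (1 : X)⁻¹ * y ∈ Y
  rw [inv_one, one_mul]
  exact y.2⟩

theorem mem_prod_lam {S S' : Subgroup X} {p : Lam Y} :
    p ∈ (S.prod S').subgroupOf (Lam Y) ↔ p.1.1 ∈ S ∧ p.1.2 ∈ S' := Iff.rfl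

theorem mem_YY2 {p : Lam Y} : p ∈ YY2 Y ↔ p.1.1 ∈ Y ∧ p.1.2 ∈ Y := Iff.rfl

theorem mem_fstP {L : Subgroup X} {p : Lam Y} : p ∈ fstP Y L ↔ p.1.1 ∈ L := Iff.rfl

instance YY2_normal : (YY2 Y).Normal := by
  constructor
  rintro p ⟨h1, h2⟩ g
  exact ⟨hY.conj_mem _ h1 _, hY.conj_mem _ h2 _⟩

/-- products of local subgroups are local -/
theorem loc_prod {ℓ : ℕ} {R S R' S' : Subgroup X} (h : Loc ℓ Y R S) (h' : Loc ℓ Y R' S') :
    Loc ℓ (YY2 Y) ((R.prod R').subgroupOf (Lam Y)) ((S.prod S').subgroupOf (Lam Y)) where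
  pgrp := by
    rintro ⟨p, hp1, hp2⟩
    obtain ⟨k, hk⟩ := h.pgrp ⟨_, hp1⟩
    obtain ⟨k', hk'⟩ := h'.pgrp ⟨_, hp2⟩
    refine ⟨k + k', Subtype.ext (lam_ext ?_ ?_)⟩
    · change p.1.1 ^ ℓ ^ (k + k') = 1
      have := congrArg Subtype.val hk
      change p.1.1 ^ ℓ ^ k = 1 at this
      rw [pow_add, pow_mul, this, one_pow]
    · change p.1.2 ^ ℓ ^ (k + k') = 1
      have := congrArg Subtype.val hk'
      change p.1.2 ^ ℓ ^ k' = 1 at this
      rw [add_comm, pow_add, pow_mul, this, one_pow]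
  le := by
    rintro p ⟨h1, h2⟩
    exact ⟨h.le h1, h'.le h2⟩
  leS := by
    rintro p ⟨h1, h2⟩
    exact ⟨h.leS h1, h'.leS h2⟩
  cent := by
    intro p hp
    rw [Subgroup.mem_centralizer_iff] at hp
    refine ⟨h.cent ?_, h'.cent ?_⟩
    · rw [Subgroup.mem_centralizer_iff]
      intro r hr
      have := hp (inL ⟨r, h.le hr⟩) ⟨hr, R'.one_mem⟩
      exact congrArg (fun q : Lam Y => q.1.1) this
    · rw [Subgroup.mem_centralizer_iff]
      intro r hr
      have := hp (inR ⟨r, h'.le hr⟩) ⟨R.one_mem, hr⟩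
      exact congrArg (fun q : Lam Y => q.1.2) this
  norm := by
    rintro p ⟨hp1, hp2⟩
    rw [Subgroup.mem_normalizer_iff]
    intro q
    have e1 := (Subgroup.mem_normalizer_iff.1 (h.norm hp1)) q.1.1
    have e2 := (Subgroup.mem_normalizer_iff.1 (h'.norm hp2)) q.1.2
    exact and_congr e1 e2

end lam

end Pool.Agent.PP.H94
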