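import Pool.Agent.Helper67_PP.Stmts
import Pool.Agent.Helper94_PP.Pos2
import Pool.Agent.Helper74_PP.Tens

/-!
# Squad PP, module PSE: positivity of the idempotent of the group of Clifford theory
-/

open scoped BigOperators

set_option linter.unusedSectionVars false

noncomputable section

namespace Pool.Agent.PP.H94

open Pool.Agent.Helper51_AWC Pool.Agent.Helper79_WRA Pool.Agent.PP

variable {F : Type} [Field F] {H : Type} [Group H]

/-- an element of the group ring which is nilpotent in all irreducible representations is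
nilpotent -/
theorem nil_of_irr [Finite H] [IsAlgClosed F] {x : MonoidAlgebra F H}
    (h : ∀ (n : ℕ) (ρ : H →* Matrix (Fin n) (Fin n) F), IsIrr ρ → IsNilpotent (repA ρ x)) :
    IsNilpotent x := by
  obtain ⟨n, d, π, hd, hπ, hJ, hall⟩ := H20.sim_struct (F := F) (MonoidAlgebra F H)
  have h1 : ∀ i, IsNilpotent (π x i) := by
    intro i
    let Φ : MonoidAlgebra F H →ₐ[F] Matrix (Fin (d i)) (Fin (d i)) F :=
      (Pi.evalAlgHom F _ i).comp π
    have hΦ : Function.Surjective Φ := (Function.surjective_eval i).comp hπ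
    have h1 := h (d i) (H20.ofAlg Φ) (H20.ofAlg_irr (hd i) Φ hΦ)
    have e : repA (H20.ofAlg Φ) = Φ := by
      change MonoidAlgebra.lift F _ H ((MonoidAlgebra.lift F _ H).symm Φ) = Φ
      exact Equiv.apply_symm_apply _ _
    rw [e] at h1
    exact h1
  choose k hk using h1
  have h2 : π x ^ (∑ i, k i) = 0 := by
    funext i
    rw [Pi.pow_apply, Pi.zero_apply]
    exact pow_eq_zero_of_le (Finset.single_le_sum (fun _ _ => Nat.zero_le _) (Finset.mem_univ i))
      (hk i)
  have h3 : x ^ (∑ i, k i) ∈ Ring.jacobson (MonoidAlgebra F H) := by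
    rw [← hJ, map_pow, h2]
  have hart : IsArtinianRing (MonoidAlgebra F H) := IsArtinianRing.of_finite F _
  obtain ⟨m, hm⟩ : IsNilpotent (Ring.jacobson (MonoidAlgebra F H)) :=
    IsSemiprimaryRing.isNilpotent
  refine ⟨(∑ i, k i) * (m + 1), ?_⟩
  have h4 : ∀ j : ℕ, (x ^ (∑ i, k i)) ^ (j + 1) ∈
      Ring.jacobson (MonoidAlgebra F H) ^ (j + 1) := by
    intro j
    induction j with
    | zero => rw [zero_add, pow_one, Submodule.pow_one]; exact h3
    | succ j ih =>
      rw [pow_succ, Submodule.pow_succ (n := j + 1)]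
      exact Ideal.mul_mem_mul ih h3
  rw [pow_mul]
  have h7 := Ideal.pow_le_pow_right (Nat.le_succ m) (h4 m)
  rw [hm] at h7
  exact h7

open Classical in
/-- sums along a surjective homomorphism -/
theorem sum_hom {A B V : Type} [Group A] [Group B] [Fintype A] [Fintype B] [AddCommGroup V]
    (g : A →* B) (hg : Function.Surjective g) (φ : B → V) :
    ∑ a, φ (g a) = Nat.card g.ker • ∑ b, φ b := by
  have h1 : ∑ a : A, φ (g a) =
      ∑ b : B, ∑ a ∈ Finset.univ.filter (fun a : A => g a = b), φ (g a) :=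
    (Finset.sum_fiberwise _ _ _).symm
  rw [h1, Finset.smul_sum]
  refine Finset.sum_congr rfl fun b _ => ?_
  obtain ⟨a₀, ha₀⟩ := hg b
  have h2 : ∑ a ∈ Finset.univ.filter (fun a : A => g a = b), φ (g a) =
      ∑ a ∈ Finset.univ.filter (fun a : A => g a = b), φ b := by
    refine Finset.sum_congr rfl fun a ha => ?_
    rw [(Finset.mem_filter.1 ha).2]
  rw [h2, Finset.sum_const]
  congr 1
  rw [Nat.card_eq_fintype_card, ← Finset.card_univ]
  symm
  refine Finset.card_bij (fun c _ => a₀ * (c : A)) ?_ ?_ ?_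
  · intro c _
    rw [Finset.mem_filter]
    refine ⟨Finset.mem_univ _, ?_⟩
    rw [map_mul, (MonoidHom.mem_ker).1 c.2, mul_one, ha₀]
  · intro c _ c' _ h
    exact Subtype.ext (mul_left_cancel h)
  · intro a ha
    have ha' := (Finset.mem_filter.1 ha).2
    refine ⟨⟨a₀⁻¹ * a, ?_⟩, Finset.mem_univ _, by rw [mul_inv_cancel_left]⟩
    rw [MonoidHom.mem_ker, map_mul, map_inv, ha₀, ha', inv_mul_cancel]

open Classical in
/-- the sum over the conjugates under a subgroup -/
theorem sum_conj' {V : Type} [AddCommGroup V] [Fintype H] (Q : Subgroup H) [Fintype Q] (x : H)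
    (f : H → V) :
    ∑ g : Q, f (g * x * (g : H)⁻¹) =
      Nat.card (Subgroup.centralizer ({x} : Set H) ⊓ Q : Subgroup H) •
      ∑ y : H, if ∃ g ∈ Q, y = g * x * g⁻¹ then f y else 0 := by
  have h1 : ∑ g : Q, f (g * x * (g : H)⁻¹) =
      ∑ y : H, ∑ g ∈ Finset.univ.filter (fun g : Q => g * x * (g : H)⁻¹ = y),
        f (g * x * (g : H)⁻¹) :=
    (Finset.sum_fiberwise _ _ _).symm
  rw [h1, Finset.smul_sum]
  refine Finset.sum_congr rfl fun y _ => ?_
  by_cases hy : ∃ g ∈ Q, y = g * x * g⁻¹
  · rw [if_pos hy]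
    obtain ⟨g₀, hg₀Q, hg₀⟩ := hy
    have h2 : ∑ g ∈ Finset.univ.filter (fun g : Q => g * x * (g : H)⁻¹ = y),
        f (g * x * (g : H)⁻¹) =
        ∑ g ∈ Finset.univ.filter (fun g : Q => g * x * (g : H)⁻¹ = y), f y := by
      refine Finset.sum_congr rfl fun g hg => ?_
      rw [(Finset.mem_filter.1 hg).2]
    rw [h2, Finset.sum_const]
    congr 1
    rw [Nat.card_eq_fintype_card, ← Finset.card_univ]
    symm
    refine Finset.card_bij (fun c _ => ⟨g₀ * (c : H), Q.mul_mem hg₀Q c.2.2⟩) ?_ ?_ ?_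
    · intro c _
      rw [Finset.mem_filter]
      refine ⟨Finset.mem_univ _, ?_⟩
      have hc := Subgroup.mem_centralizer_singleton_iff.1 c.2.1
      rw [hg₀]
      have : g₀ * (c : H) * x * (g₀ * (c : H))⁻¹ = g₀ * ((c : H) * x) * (c : H)⁻¹ * g₀⁻¹ := by
        group
      change g₀ * (c : H) * x * (g₀ * (c : H))⁻¹ = _
      rw [this, hc]
      group
    · intro c _ c' _ h
      exact Subtype.ext (mul_left_cancel (congrArg Subtype.val h))
    · intro g hg
      have hg' := (Finset.mem_filter.1 hg).2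
      refine ⟨⟨g₀⁻¹ * g, ?_, Q.mul_mem (Q.inv_mem hg₀Q) g.2⟩, Finset.mem_univ _,
        Subtype.ext (mul_inv_cancel_left g₀ (g : H))⟩
      apply Subgroup.mem_centralizer_singleton_iff.2
      rw [hg₀] at hg'
      have h3 : (g : H) * x = g₀ * x * g₀⁻¹ * g := by
        rw [← hg', inv_mul_cancel_right]
      rw [mul_assoc, h3]
      group
  · rw [if_neg hy, smul_zero]
    refine Finset.sum_eq_zero fun g hg => ?_
    exact absurd ⟨g, g.2, (Finset.mem_filter.1 hg).2.symm⟩ hy

/-- the value of a class sum -/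
theorem ev_clsum' [Fintype H] {n : ℕ} (ρ : H →* Matrix (Fin n) (Fin n) F) (Q : Subgroup H)
    [Fintype Q] (x : H) :
    ∑ g : Q, ρ (g * x * (g : H)⁻¹) =
      (Nat.card (Subgroup.centralizer ({x} : Set H) ⊓ Q : Subgroup H) : F) •
        ev ρ (clsum F Q x) := by
  classical
  have h1 := sum_conj' Q x (fun y => ρ y)
  have h2 : ∑ g : Q, ρ (g * x * (g : H)⁻¹) =
      Nat.card (Subgroup.centralizer ({x} : Set H) ⊓ Q : Subgroup H) •
      ∑ y : H, if ∃ g ∈ Q, y = g * x * g⁻¹ then ρ y else 0 := by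
    rw [← h1]
  rw [h2, ← Nat.cast_smul_eq_nsmul F, ev, finsum_eq_sum_of_fintype]
  congr 1
  refine Finset.sum_congr rfl fun y _ => ?_
  unfold clsum
  by_cases hy : ∃ g ∈ Q, y = g * x * g⁻¹
  · rw [if_pos hy, if_pos hy, one_smul]
  · rw [if_neg hy, if_neg hy, zero_smul]

theorem eq_zero_of_pow_zero {w : F} {j : ℕ} (h : w ^ j = 0) : w = 0 := by
  by_contra hw
  exact pow_ne_zero j hw h

/-- PSE -/
theorem pse : H67.PseStmt := by
  classical
  intro ℓ F _ hF G E _ _ _ _ C L n ρ p α K hKn hC hcov N hN hNL hcomm hprime e he hpos f hf hex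
  have := hF.closed
  have := hF.char
  have hfG := Fintype.ofFinite G
  have hfE := Fintype.ofFinite E
  rintro xh hxh hxc
  obtain ⟨m, hm, rfl⟩ := hxh
  have hmN : p m ∈ N := hm
  set M := N.comap p with hM
  set π := QuotientGroup.mk' K with hπ
  have hfD := Fintype.ofFinite (E ⧸ K)
  have hfM := Fintype.ofFinite M
  have hfN := Fintype.ofFinite N
  have hfMh := Fintype.ofFinite (M.map π)
  set κs := clsum F (M.map π) (π m) with hκs
  -- `α` is a scalar on `M`
  have hsc : ∀ x ∈ M, ∃ w : F, α x = Matrix.scalar (Fin n) w := by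
    intro x hx
    apply schur hcov.irr
    intro c
    refine hcov.impl x c c ?_
    have := hcomm (p x) hx c c.2
    rw [this, mul_inv_cancel_right]
  obtain ⟨w, hw⟩ := hsc m hm
  have hconj : ∀ y : M, α (y * m * (y : E)⁻¹) = Matrix.scalar (Fin n) w := by
    intro y
    obtain ⟨v, hv⟩ := hsc y y.2
    rw [map_mul, map_mul, hv, hw]
    have h1 : Matrix.scalar (Fin n) v * α (y : E)⁻¹ = 1 := by
      rw [← hv, ← map_mul, mul_inv_cancel, map_one]
    rw [← map_mul, mul_comm v w, map_mul, mul_assoc, h1, mul_one]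
  -- the representations
  have key : ∀ (d : ℕ) (κ : E ⧸ K →* Matrix (Fin d) (Fin d) F), IsIrr κ →
      IsNilpotent (repA κ (ma κs * ma f)) := by
    intro d κ hκ
    rw [map_mul, ← ev_eq, ← ev_eq]
    by_cases hz : ev κ f = 0
    · rw [hz, mul_zero]
      exact IsNilpotent.zero
    obtain ⟨v, hv, -, hv01⟩ := H20.eig F (E ⧸ K) d κ hκ f hf.1
    have hv1 : v = 1 := by
      rcases hv01 hf with h | h
      · subst h
        exact absurd (by rw [hv, map_zero]) hz
      · exact h
    subst hv1
    rw [hv, map_one, mul_one]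
    obtain ⟨k, σ, P, Q, hσ, hσe, hPQ, hσκ⟩ := hex d κ hκ hz
    -- the sum over `N`
    set T := ∑ q : N, σ (q * p m * (q : G)⁻¹) with hT
    have hTnil : IsNilpotent T := by
      rw [hT, ev_clsum' σ N (p m)]
      by_cases hl : ℓ ∣ Nat.card (Subgroup.centralizer ({p m} : Set G) ⊓ N : Subgroup G)
      · rw [(CharP.cast_eq_zero_iff F ℓ _).2 hl, zero_smul]
        exact IsNilpotent.zero
      · obtain ⟨j, hj⟩ := hpos (p m) hmN hl
        have h1 := congrArg (ev σ) hj
        have h2 : ev σ (0 : G → F) = 0 := by rw [ev_eq, ma_zero, map_zero]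
        rw [ev_iterate, hσe, mul_one, h2] at h1
        exact IsNilpotent.smul ⟨j, h1⟩ _
    -- the sum over `M`
    let g : M →* N := (p.comp M.subtype).codRestrict N (fun x => x.2)
    have hg : Function.Surjective g := by
      rintro ⟨q, hq⟩
      have h1 : q ∈ p.range := by rw [hcov.range]; exact hNL hq
      obtain ⟨x, hx⟩ := h1
      exact ⟨⟨x, by rw [hM, Subgroup.mem_comap, hx]; exact hq⟩, Subtype.ext hx⟩
    set S := ∑ y : M, σ (p (y * m * (y : E)⁻¹)) with hS
    have hST : S = Nat.card g.ker • T := by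
      rw [hT, ← sum_hom g hg (fun q : N => σ (q * p m * (q : G)⁻¹)), hS]
      refine Finset.sum_congr rfl fun y _ => ?_
      change σ (p (y * m * (y : E)⁻¹)) = σ (p (y : E) * p m * (p (y : E))⁻¹)
      rw [map_mul p, map_mul p, map_inv p]
    have hSnil : IsNilpotent S := by
      rw [hST]
      exact IsNilpotent.smul hTnil _
    have hcommS : Q * P * S = S * (Q * P) := by
      rw [hS, Matrix.mul_sum, Matrix.sum_mul]
      exact Finset.sum_congr rfl fun y _ => (hσκ _).1
    have hPSQ : ∀ j : ℕ, (P * S * Q) ^ j = P * S ^ j * Q := by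
      intro j
      induction j with
      | zero => rw [pow_zero, pow_zero, Matrix.mul_one, hPQ]
      | succ j ih =>
        have hcj : Q * P * S ^ 1 = S ^ 1 * (Q * P) := by rw [pow_one, hcommS]
        calc (P * S * Q) ^ (j + 1) = (P * S ^ j * Q) * (P * S * Q) := by rw [pow_succ, ih]
          _ = P * S ^ j * (Q * P * S) * Q := by simp only [Matrix.mul_assoc]
          _ = P * S ^ j * (S * (Q * P)) * Q := by rw [hcommS]
          _ = P * (S ^ j * S) * Q * (P * Q) := by simp only [Matrix.mul_assoc]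
          _ = P * S ^ (j + 1) * Q := by rw [hPQ, Matrix.mul_one, pow_succ]
    have hPnil : IsNilpotent (P * S * Q) := by
      obtain ⟨j, hj⟩ := hSnil
      exact ⟨j, by rw [hPSQ, hj, Matrix.mul_zero, Matrix.zero_mul]⟩
    -- the sum over the image
    let g' : M →* M.map π := (π.comp M.subtype).codRestrict (M.map π)
      (fun x => Subgroup.mem_map_of_mem π x.2)
    have hg' : Function.Surjective g' := by
      rintro ⟨q, x, hx, rfl⟩
      exact ⟨⟨x, hx⟩, rfl⟩
    have h3 : P * S * Q = ((w * Nat.card g'.ker) * (Nat.card (Subgroup.centralizer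
        ({π m} : Set (E ⧸ K)) ⊓ M.map π : Subgroup (E ⧸ K)) : F)) • kr 1 (ev κ κs) := by
      have e1 : P * S * Q = ∑ y : M, kr (α (y * m * (y : E)⁻¹)) (κ (π (y * m * (y : E)⁻¹))) := by
        rw [hS, Matrix.mul_sum, Matrix.sum_mul]
        exact Finset.sum_congr rfl fun y _ => (hσκ _).2
      have e2 : ∀ y : M, kr (α (y * m * (y : E)⁻¹)) (κ (π (y * m * (y : E)⁻¹))) =
          w • kr (1 : Matrix (Fin n) (Fin n) F) (κ ((g' y : E ⧸ K) * π m * (g' y : E ⧸ K)⁻¹)) := by
        intro y
        rw [hconj y, ← H74.kr_smul_left]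
        have e3 : Matrix.scalar (Fin n) w = w • (1 : Matrix (Fin n) (Fin n) F) := by
          rw [Matrix.scalar_apply, Matrix.smul_one_eq_diagonal]
        rw [e3]
        rfl
      rw [e1]
      simp only [e2]
      rw [← Finset.smul_sum,
        sum_hom g' hg' (fun q : M.map π => kr (1 : Matrix (Fin n) (Fin n) F)
          (κ ((q : E ⧸ K) * π m * (q : E ⧸ K)⁻¹)))]
      have e4 : ∑ q : M.map π, kr (1 : Matrix (Fin n) (Fin n) F)
          (κ ((q : E ⧸ K) * π m * (q : E ⧸ K)⁻¹)) =
          kr 1 (∑ q : M.map π, κ ((q : E ⧸ K) * π m * (q : E ⧸ K)⁻¹)) := by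
        have e5 : ∀ s : Finset (M.map π), ∑ q ∈ s, kr (1 : Matrix (Fin n) (Fin n) F)
            (κ ((q : E ⧸ K) * π m * (q : E ⧸ K)⁻¹)) =
            kr 1 (∑ q ∈ s, κ ((q : E ⧸ K) * π m * (q : E ⧸ K)⁻¹)) := by
          intro s
          induction s using Finset.induction_on with
          | empty =>
            rw [Finset.sum_empty, Finset.sum_empty]
            have := H74.kr_smul_right (n := n) (0 : F) (1 : Matrix (Fin n) (Fin n) F)
              (0 : Matrix (Fin d) (Fin d) F)
            rw [zero_smul, zero_smul] at this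
            exact this.symm
          | insert a s ha ih => rw [Finset.sum_insert ha, Finset.sum_insert ha, ih,
              H74.kr_add_right]
        exact e5 _
      rw [e4, ev_clsum' κ (M.map π) (π m), H74.kr_smul_right, ← Nat.cast_smul_eq_nsmul F,
        smul_smul, smul_smul]
    have hw0 : w ≠ 0 := by
      rintro rfl
      have h1 : α m * α m⁻¹ = 1 := by rw [← map_mul, mul_inv_cancel, map_one]
      rw [hw, map_zero, zero_mul] at h1
      have : NeZero n := ⟨hcov.irr.1.ne'⟩
      exact zero_ne_one h1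
    have hker : (Nat.card g'.ker : F) ≠ 0 := by
      rw [Ne, CharP.cast_eq_zero_iff F ℓ]
      intro hdiv
      apply hprime
      refine hdiv.trans ?_
      -- the kernel embeds into `C ⊓ N`
      let i : g'.ker →* (C ⊓ N : Subgroup G) :=
        ((p.comp M.subtype).comp g'.ker.subtype).codRestrict (C ⊓ N) (by
          rintro ⟨y, hy⟩
          have h1 : π (y : E) = 1 := congrArg Subtype.val ((MonoidHom.mem_ker).1 hy)
          have h2 : (y : E) ∈ K := (QuotientGroup.eq_one_iff _).1 h1
          obtain ⟨c, hc, -⟩ := (hcov.mem _).1 h2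
          refine ⟨?_, y.2⟩
          change p (y : E) ∈ C
          rw [hc]
          exact c.2)
      have hi : Function.Injective i := by
        rw [injective_iff_map_eq_one]
        rintro ⟨y, hy⟩ h
        have h1 : π (y : E) = 1 := congrArg Subtype.val ((MonoidHom.mem_ker).1 hy)
        have h2 : (y : E) ∈ K := (QuotientGroup.eq_one_iff _).1 h1
        obtain ⟨c, hc, hc'⟩ := (hcov.mem _).1 h2
        have h3 : p (y : E) = 1 := congrArg Subtype.val h
        have h4 : c = 1 := Subtype.ext (by rw [← hc, h3]; rfl)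
        rw [h4, map_one] at hc'
        exact Subtype.ext (Subtype.ext (hcov.faithful _ h3 hc'))
      exact Subgroup.card_dvd_of_injective i hi
    have hcent : (Nat.card (Subgroup.centralizer ({π m} : Set (E ⧸ K)) ⊓ M.map π :
        Subgroup (E ⧸ K)) : F) ≠ 0 := by
      rw [Ne, CharP.cast_eq_zero_iff F ℓ]
      exact hxc
    -- conclusion
    obtain ⟨j, hj⟩ := hPnil
    rw [h3, smul_pow] at hj
    have h4 : ∀ j : ℕ, kr (1 : Matrix (Fin n) (Fin n) F) (ev κ κs) ^ j =
        kr 1 (ev κ κs ^ j) := by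
      intro j
      induction j with
      | zero => rw [pow_zero, pow_zero, H74.kr_one]
      | succ j ih => rw [pow_succ, ih, H74.kr_mul, Matrix.mul_one, pow_succ]
    rw [h4] at hj
    rcases smul_eq_zero.1 hj with h | h
    · exact absurd (eq_zero_of_pow_zero h) (mul_ne_zero (mul_ne_zero hw0 hker) hcent)
    · refine ⟨j, H74.kr_one_inj_right hcov.irr.1 ?_⟩
      rw [h]
      have := H74.kr_smul_right (n := n) (0 : F) (1 : Matrix (Fin n) (Fin n) F)
        (0 : Matrix (Fin d) (Fin d) F)
      rw [zero_smul, zero_smul] at this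
      exact this.symm
  obtain ⟨k, hk⟩ := nil_of_irr key
  have hcommf : Commute (ma κs) (ma f) :=
    (Subalgebra.mem_center_iff.1 ((isCl_iff f).1 hf.1) (ma κs))
  refine ⟨k, ?_⟩
  apply ma_injective
  rw [ma_iterate, ma_zero]
  rw [hcommf.mul_pow] at hk
  have h5 := ((isIdem_iff f).1 hf).2
  have h6 : ma κs ^ k * ma f ^ k * ma f = 0 := by rw [hk, zero_mul]
  rw [mul_assoc, ← pow_succ, h5.pow_succ_eq] at h6
  exact h6

end Pool.Agent.PP.H94
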