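import Pool.Agent.Helper96_PP.Fnl
import Pool.Agent.Helper66_PP.StmtsF

/-!
# Squad PP, module REL: the relative form of the final theorem, step (R1)

If `GoodP` holds for `N ≤ G` and `e` is a central idempotent of `F G` with `Pos(e, N)`, then the
alternating sum over all chains of `ℓ`-subgroups of `G` vanishes (not only the one over the chains
of `N`).
-/

open scoped BigOperators

noncomputable section

namespace Pool.Agent.PP

open Pool.Agent.Helper51_AWC Pool.Agent.Helper79_WRA

/-- REL: the alternating sum over all chains of `G` vanishes if `e` is positive over a normal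
subgroup `N` for which `GoodP` holds. -/
def RelStmt : Prop := ∀ (ℓ : ℕ) [Fact ℓ.Prime] (F : Type) [Field F], GoodF ℓ F →
  ∀ (G : Type) [Group G] [Finite G] (N : Subgroup G), N.Normal → GoodP ℓ F N →
  ∀ e : G → F, IsIdem e → Pos ℓ e N → YY ℓ ⊤ e = 0

/-- REL with the hypothesis on the groups `D` with `Z(D) ≤ [D, D]` and outer part generated by two
elements. -/
def RelQStmt : Prop := ∀ (ℓ : ℕ) [Fact ℓ.Prime] (F : Type) [Field F], GoodF ℓ F →
  ∀ (G : Type) [Group G] [Finite G] (N : Subgroup G), N.Normal → GoodQ ℓ F N →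
  ∀ e : G → F, IsIdem e → Pos ℓ e N → YY ℓ ⊤ e = 0

namespace H94

open Pool.Agent.Helper79_WRA.H91

/-- REL from the main theorem. -/
theorem rel (hmain : MainStmt) : RelStmt := by
  intro ℓ _ F _ hF G _ _ N hN hg e he hp
  rw [H96.rel_eq_top hF N hN e he, hmain ℓ F hF G N hN hg e he hp]
  intro c hc1 hc2 hc3 _
  have hcm := mem_chainsOn.1 hc1
  obtain ⟨t1, t2⟩ := H94.top_mem hcm.2.2 ⟨_, hcm.2.1⟩
  have htp : IsPGroup ℓ (top c) := (mem_psubIn.1 (hcm.1 t1)).2
  have hX1 := H96.centralizer_top_le t2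
  have hX2 : stab c ≤ Subgroup.normalizer ((top c : Subgroup G) : Set G) := by
    intro x hx
    exact (H94.mem_stab'.1 hx) _ t1
  have hidem : IsIdem (fun t : stab c => br (top c) e t) :=
    (H20.brm ℓ F hF G (top c) (stab c) htp hX1 hX2).2.2 e he
  have hcent : cent N c = Subgroup.centralizer ((top c : Subgroup G) : Set G) ⊓ N :=
    H46.cent_eq hc1 N
  have hposc : Pos ℓ (fun t : stab c => br (top c) e t) ((cent N c).subgroupOf (stab c)) := by
    rw [hcent]
    exact H66.ps1 ℓ F hF G (top c) N htp hN hc3 e he hp (stab c) hX1 hX2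
  have hnorm : ((cent N c).subgroupOf (stab c)).Normal := by
    constructor
    intro x hx g
    rw [Subgroup.mem_subgroupOf] at hx ⊢
    exact Pool.Agent.Helper79_WRA.H46.conj_mem_cent hN g.2 hx
  exact hmain ℓ F hF _ _ hnorm (hg.subgroupOf _ inf_le_left) _ hidem hposc

/-- REL for `GoodQ`. -/
theorem relQ (hmain : MainStmt) (hv : VStmt) (hstm : StmStmt) : RelQStmt := by
  intro ℓ _ F _ hF G _ _ N hN hg e he hp
  exact rel hmain ℓ F hF G N hN (hv ℓ F hF G N hN (hstm ℓ F hF G N hN hg)) e he hp

end H94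

end Pool.Agent.PP
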