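import Pool.Agent.Helper94_PP.Db2b

/-!
# Squad PP, part J, module DB2 (AWC_J, J7.7): the pair sums vanish
-/

open scoped BigOperators

set_option linter.unusedSectionVars false

noncomputable section

namespace Pool.Agent.PP.H94

open Pool.Agent.Helper51_AWC Pool.Agent.Helper79_WRA Pool.Agent.PP

section lcs

theorem lcs_mono {G : Type} [Group G] {A B : Subgroup G} (h : A ≤ B) (n : ℕ) :
    Subgroup.lowerCentralSeries A n ≤ Subgroup.lowerCentralSeries B n := by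
  induction n with
  | zero => exact h
  | succ n ih =>
    rw [Subgroup.lowerCentralSeries_succ, Subgroup.lowerCentralSeries_succ]
    exact Subgroup.commutator_mono ih h

end lcs

section final

variable {ℓ : ℕ} {F : Type} [Field F] {τ : F → ℂ} {X : Type} [Group X] [Finite X]
  {Y : Subgroup X} [hY : Y.Normal]

theorem card_YY2 (S S' : Subgroup X) :
    Nat.card ↥(YY2 Y ⊓ ((S.prod S').subgroupOf (Lam Y))) =
      Nat.card ↥(Y ⊓ S) * Nat.card ↥(Y ⊓ S') := by
  rw [← Nat.card_prod]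
  refine Nat.card_congr
    { toFun := fun p => (⟨p.1.1.1, p.2.1.1, p.2.2.1⟩, ⟨p.1.1.2, p.2.1.2, p.2.2.2⟩)
      invFun := fun p => ⟨⟨(p.1, p.2), Y.mul_mem (Y.inv_mem p.1.2.1) p.2.2.1⟩,
        ⟨p.1.2.1, p.2.2.1⟩, ⟨p.1.2.2, p.2.2.2⟩⟩
      left_inv := fun p => rfl
      right_inv := fun p => rfl }

open Classical in
/-- one term of the pair sum -/
def tm (τ : F → ℂ) (Y : Subgroup X) (f : X → F) (t : Finset (Subgroup X)) (x y : X)
    (v : X → F) : ℂ :=
  if x ∈ stab t ∧ y ∈ stab t then (-1 : ℂ) ^ (t.card + 1) * (Nat.card ↥(Y ⊓ stab t) : ℂ)⁻¹ *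
    SS τ Y (stab t) (top t) f x y v else 0

open Classical in
/-- the sum over the chains fixed by `x` and `y` -/
def D1 (τ : F → ℂ) (ℓ : ℕ) (Y : Subgroup X) (f : X → F) (x y : X) (v : X → F) : ℂ :=
  ∑ t ∈ (chainsOn (psubIn ℓ Y) ⊥).filter NormalChain, tm τ Y f t x y v

theorem DJ_eq [Fintype Y] (f : X → F) (x y : X) (v : X → F) :
    DJ τ ℓ Y f x y v = ∑ n : Y, ∑ m : Y, D1 τ ℓ Y f (x * n) (y * m) v := by
  classical
  unfold DJ
  rw [finsum_eq_sum_of_fintype]
  refine Finset.sum_congr rfl fun n _ => ?_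
  rw [finsum_eq_sum_of_fintype]
  refine Finset.sum_congr rfl fun m _ => ?_
  unfold D1
  rw [Finset.sum_filter, Finset.sum_filter]
  refine Finset.sum_congr rfl fun t _ => ?_
  unfold tm
  by_cases h1 : NormalChain t
  · by_cases h2 : x * (n : X) ∈ stab t ∧ y * (m : X) ∈ stab t
    · rw [if_pos ⟨h1, h2⟩, if_pos h1, if_pos h2]
    · rw [if_neg (fun h => h2 h.2), if_pos h1, if_neg h2]
  · rw [if_neg (fun h => h1 h.1), if_neg h1]

theorem DJ_mul [Fintype Y] (f : X → F) (x y : X) (v : X → F) (n m : Y) :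
    DJ τ ℓ Y f (x * n) (y * m) v = DJ τ ℓ Y f x y v := by
  rw [DJ_eq, DJ_eq]
  refine Fintype.sum_equiv (Equiv.mulLeft n) _ _ fun n' => ?_
  refine Fintype.sum_equiv (Equiv.mulLeft m) _ _ fun m' => ?_
  change D1 τ ℓ Y f (x * n * n') (y * m * m') v = D1 τ ℓ Y f (x * (n * n' : X)) (y * (m * m' : X)) v
  rw [mul_assoc x, mul_assoc y]

open Classical in
/-- averaging over the cosets -/
theorem avg [Fintype X] [Fintype Y] (g : X → X → ℂ) (h : ∑ a, ∑ b, g a b = 0) :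
    ∑ a : X, ∑ b : X, ∑ n : Y, ∑ m : Y, g (a * n) (b * m) = 0 := by
  have h1 : ∀ n m : Y, ∑ a : X, ∑ b : X, g (a * n) (b * m) = 0 := by
    intro n m
    rw [← h]
    refine Fintype.sum_equiv (Equiv.mulRight (n : X)) _ _ fun a => ?_
    exact Fintype.sum_equiv (Equiv.mulRight (m : X)) _ _ fun b => rfl
  calc ∑ a : X, ∑ b : X, ∑ n : Y, ∑ m : Y, g (a * n) (b * m)
      = ∑ a : X, ∑ n : Y, ∑ b : X, ∑ m : Y, g (a * n) (b * m) :=
        Finset.sum_congr rfl fun a _ => Finset.sum_comm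
    _ = ∑ n : Y, ∑ a : X, ∑ b : X, ∑ m : Y, g (a * n) (b * m) := Finset.sum_comm
    _ = ∑ n : Y, ∑ a : X, ∑ m : Y, ∑ b : X, g (a * n) (b * m) :=
        Finset.sum_congr rfl fun n _ => Finset.sum_congr rfl fun a _ => Finset.sum_comm
    _ = ∑ n : Y, ∑ m : Y, ∑ a : X, ∑ b : X, g (a * n) (b * m) :=
        Finset.sum_congr rfl fun n _ => Finset.sum_comm
    _ = 0 := Finset.sum_eq_zero fun n _ => Finset.sum_eq_zero fun m _ => h1 n m

theorem fstP_normal {L : Subgroup X} (hL : L.Normal) : (fstP Y L).Normal := hL.comap _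

open Classical in
/-- DBL for groups which are nilpotent modulo `Y` -/
theorem dbl_core (hnls : NlsStmt) (hbrm : BrmStmt) (hnch : NchStmt) (hps3 : Ps3Stmt)
    (hlct : LctStmt) (hcl : ClStmt) (hloc : LocStmt) (hxf : XfsStmt) (hinn : InnStmt)
    (htfa : TfaStmt) (huni : UniStmt) (hdb1 : Db1Stmt) (hssp : SspStmt)
    (hF : GoodF ℓ F) (hτ : IsLift τ) {f : X → F} (hf : SBlk Y f)
    (hdz : ¬ DZ ℓ (fun t : Y => f t)) (hnil : NilMod (⊤ : Subgroup X) Y) (hH : HypY ℓ F Y) :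
    DAll τ ℓ Y f := by
  have hfact : Fact ℓ.Prime := ⟨hF.prime⟩
  have hfX := Fintype.ofFinite X
  have hfY := Fintype.ofFinite Y
  have hfL := Fintype.ofFinite (Lam Y)
  obtain ⟨hxu, hXn, hYX, hun, -⟩ := hxf ℓ F hF X Y hY f hf
  obtain ⟨u, u', hu, hucos⟩ := exists_units hxf hF Y hY hf
  set J := XF f Y with hJ
  have hnilJ : NilMod J Y := by
    obtain ⟨n, hn⟩ := hnil
    exact ⟨n, (lcs_mono le_top n).trans hn⟩
  obtain ⟨hS, hunit, E, hE, hEf, hsupp, hBB⟩ := hdb1 ℓ F hF τ hτ X Y f hf hnilJ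
  set M := fstP Y J with hM
  have hMn : M.Normal := fstP_normal hXn
  have hYM : YY2 Y ≤ M := by
    rintro p ⟨h1, -⟩
    exact hYX h1
  have hMX : M ≤ XF (sig Y f f) (YY2 Y) := by
    intro p hp
    obtain ⟨v, v', hv⟩ := (hxu _).1 hp
    exact Subgroup.subset_closure ⟨_, _, hunit v v' p hv⟩
  let cond : X → X → Prop := fun x y => RegM ℓ J x ∧ x * y * x⁻¹ * y⁻¹ ∈ J
  set N := (chainsOn (psubIn ℓ Y) (⊥ : Subgroup X)).filter NormalChain with hN
  -- one pair of chains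
  have h1 : ∀ t ∈ N, ∀ s ∈ N, ∑ p : Lam Y, ∑ q : Lam Y, (if cond p.1.1 q.1.1 then
      tm τ Y f t p.1.1 q.1.1 (u p.1.1 q.1.1) *
        (starRingEnd ℂ) (tm τ Y f s p.1.2 q.1.2 (u p.1.1 q.1.1)) else 0) =
      (-1 : ℂ) ^ (s.card + 1) * ((YY2 Y).relIndex M : ℂ) * ((-1 : ℂ) ^ (t.card + 1) *
        ((Nat.card (((stab t).prod (stab s)).subgroupOf (Lam Y)) : ℂ) *
          (lnum (((stab t).prod (stab s)).subgroupOf (Lam Y)) E : ℂ))) := by
    intro t ht s hs
    rw [hN, Finset.mem_filter] at ht hs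
    have hlt := hlct ℓ X Y hF.prime t ht.1 ht.2
    have hls := hlct ℓ X Y hF.prime s hs.1 hs.2
    have h2 := loc_sum hcl htfa hinn hloc hF hτ (YY2 Y) YY2_normal hS (loc_prod hlt hls) M hMn
      hYM hMX hE hEf hsupp (fun p q => sig Y (u p.1.1 q.1.1) (u' p.1.1 q.1.1))
      (fun p q => sig Y (u' p.1.1 q.1.1) (u p.1.1 q.1.1))
      (fun p q hpq => hunit _ _ (p * q * p⁻¹ * q⁻¹) (hu p.1.1 q.1.1 hpq))
    have h3 : (-1 : ℂ) ^ (s.card + 1) * ((YY2 Y).relIndex M : ℂ) * ((-1 : ℂ) ^ (t.card + 1) *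
        ((Nat.card (((stab t).prod (stab s)).subgroupOf (Lam Y)) : ℂ) *
          (lnum (((stab t).prod (stab s)).subgroupOf (Lam Y)) E : ℂ))) =
        ((-1 : ℂ) ^ (t.card + 1) * (-1 : ℂ) ^ (s.card + 1)) * (((YY2 Y).relIndex M : ℂ) *
        ((Nat.card (((stab t).prod (stab s)).subgroupOf (Lam Y)) : ℂ) *
          (lnum (((stab t).prod (stab s)).subgroupOf (Lam Y)) E : ℂ))) := by ring
    rw [h3, h2, Finset.mul_sum]
    refine Finset.sum_congr rfl fun p _ => ?_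
    rw [Finset.mul_sum]
    refine Finset.sum_congr rfl fun q _ => ?_
    have hcond : (RegM ℓ M p ∧ p * q * p⁻¹ * q⁻¹ ∈ M) ↔ cond p.1.1 q.1.1 := Iff.rfl
    by_cases hc : cond p.1.1 q.1.1
    · rw [if_pos hc]
      unfold tm
      by_cases hpt : p.1.1 ∈ stab t ∧ q.1.1 ∈ stab t
      · by_cases hps : p.1.2 ∈ stab s ∧ q.1.2 ∈ stab s
        · rw [if_pos hpt, if_pos hps, if_pos ⟨⟨⟨hpt.1, hps.1⟩, ⟨hpt.2, hps.2⟩⟩, hcond.2 hc⟩]
          rw [hBB p q _ _ (hu p.1.1 q.1.1 hc.2),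
            hssp ℓ F hF τ hτ X Y f hf _ _ _ _ hlt hls p q hpt.1 hpt.2 hps.1 hps.2 _ _
              (hu p.1.1 q.1.1 hc.2), card_YY2]
          rw [map_mul, map_mul, map_pow, map_neg, map_one, map_inv₀, map_natCast]
          push_cast
          rw [mul_inv]
          ring
        · rw [if_neg hps, map_zero, mul_zero, if_neg, mul_zero]
          rintro ⟨⟨h4, h5⟩, -⟩
          exact hps ⟨h4.2, h5.2⟩
      · rw [if_neg hpt, zero_mul, if_neg, mul_zero]
        rintro ⟨⟨h4, h5⟩, -⟩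
        exact hpt ⟨h4.1, h5.1⟩
    · rw [if_neg hc, if_neg, mul_zero]
      rintro ⟨-, h4⟩
      exact hc (hcond.1 h4)
  -- the sum over all pairs of chains
  have key : ∑ p : Lam Y, ∑ q : Lam Y, (if cond p.1.1 q.1.1 then
      D1 τ ℓ Y f p.1.1 q.1.1 (u p.1.1 q.1.1) *
        (starRingEnd ℂ) (D1 τ ℓ Y f p.1.2 q.1.2 (u p.1.1 q.1.1)) else 0) = 0 := by
    have h2 : ∀ p q : Lam Y, (if cond p.1.1 q.1.1 then
        D1 τ ℓ Y f p.1.1 q.1.1 (u p.1.1 q.1.1) *
          (starRingEnd ℂ) (D1 τ ℓ Y f p.1.2 q.1.2 (u p.1.1 q.1.1)) else 0) =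
        ∑ t ∈ N, ∑ s ∈ N, (if cond p.1.1 q.1.1 then
          tm τ Y f t p.1.1 q.1.1 (u p.1.1 q.1.1) *
          (starRingEnd ℂ) (tm τ Y f s p.1.2 q.1.2 (u p.1.1 q.1.1)) else 0) := by
      intro p q
      by_cases hc : cond p.1.1 q.1.1
      · simp only [if_pos hc]
        unfold D1
        rw [map_sum, Finset.sum_mul_sum]
      · simp only [if_neg hc]
        rw [Finset.sum_const_zero, Finset.sum_const_zero]
    simp only [h2]
    have h3 : ∑ p : Lam Y, ∑ q : Lam Y, ∑ t ∈ N, ∑ s ∈ N, (if cond p.1.1 q.1.1 then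
          tm τ Y f t p.1.1 q.1.1 (u p.1.1 q.1.1) *
          (starRingEnd ℂ) (tm τ Y f s p.1.2 q.1.2 (u p.1.1 q.1.1)) else 0) =
        ∑ s ∈ N, ∑ t ∈ N, ∑ p : Lam Y, ∑ q : Lam Y, (if cond p.1.1 q.1.1 then
          tm τ Y f t p.1.1 q.1.1 (u p.1.1 q.1.1) *
          (starRingEnd ℂ) (tm τ Y f s p.1.2 q.1.2 (u p.1.1 q.1.1)) else 0) := by
      calc _ = ∑ p : Lam Y, ∑ t ∈ N, ∑ q : Lam Y, ∑ s ∈ N, _ :=
            Finset.sum_congr rfl fun p _ => Finset.sum_comm
        _ = ∑ t ∈ N, ∑ p : Lam Y, ∑ q : Lam Y, ∑ s ∈ N, _ := Finset.sum_comm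
        _ = ∑ t ∈ N, ∑ p : Lam Y, ∑ s ∈ N, ∑ q : Lam Y, _ :=
            Finset.sum_congr rfl fun t _ => Finset.sum_congr rfl fun p _ => Finset.sum_comm
        _ = ∑ t ∈ N, ∑ s ∈ N, ∑ p : Lam Y, ∑ q : Lam Y, _ :=
            Finset.sum_congr rfl fun t _ => Finset.sum_comm
        _ = _ := Finset.sum_comm
    rw [h3]
    refine Finset.sum_eq_zero fun s hs => ?_
    rw [Finset.sum_congr rfl fun t ht => h1 t ht s hs, ← Finset.mul_sum]
    have hs' := hs
    rw [hN, Finset.mem_filter] at hs'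
    have h4 := inner hnls hbrm hnch hps3 hlct hF hf hdz hnil hH hE hEf hs'.1 hs'.2
    have h5 : ((∑ t ∈ (chainsOn (psubIn ℓ Y) (⊥ : Subgroup X)).filter NormalChain,
      (-1 : ℤ) ^ (t.card + 1) *
      ((Nat.card (((stab t).prod (stab s)).subgroupOf (Lam Y)) : ℤ) *
        (lnum (((stab t).prod (stab s)).subgroupOf (Lam Y)) E : ℤ)) : ℤ) : ℂ) = 0 := by
      rw [h4, Int.cast_zero]
    push_cast at h5
    rw [h5, mul_zero]
  -- sums over `X`
  let Δ : X → X → ℂ := fun a b => DJ τ ℓ Y f a b (u a b)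
  let g : X → X → ℂ := fun a b => if cond a b then
    D1 τ ℓ Y f a b (u a b) * (starRingEnd ℂ) (Δ a b) else 0
  have hg : ∑ a : X, ∑ b : X, g a b = 0 := by
    rw [← key, sum_lam]
    refine Finset.sum_congr rfl fun a _ => ?_
    have h2 : ∀ n : Y, ∑ q : Lam Y, (if cond (mkL a n).1.1 q.1.1 then
        D1 τ ℓ Y f (mkL a n).1.1 q.1.1 (u (mkL a n).1.1 q.1.1) *
        (starRingEnd ℂ) (D1 τ ℓ Y f (mkL a n).1.2 q.1.2 (u (mkL a n).1.1 q.1.1)) else 0) =
        ∑ b : X, ∑ m : Y, (if cond a b then D1 τ ℓ Y f a b (u a b) *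
        (starRingEnd ℂ) (D1 τ ℓ Y f (a * n) (b * m) (u a b)) else 0) := by
      intro n
      rw [sum_lam]
      rfl
    simp only [h2]
    rw [Finset.sum_comm]
    refine Finset.sum_congr rfl fun b _ => ?_
    change (if cond a b then D1 τ ℓ Y f a b (u a b) * (starRingEnd ℂ) (Δ a b) else 0) = _
    by_cases hc : cond a b
    · simp only [if_pos hc]
      change _ * (starRingEnd ℂ) (DJ τ ℓ Y f a b (u a b)) = _
      rw [DJ_eq, map_sum, Finset.mul_sum]
      refine Finset.sum_congr rfl fun n _ => ?_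
      rw [map_sum, Finset.mul_sum]
    · simp only [if_neg hc]
      rw [Finset.sum_const_zero, Finset.sum_const_zero]
  have h2 := avg (Y := Y) g hg
  have hcondm : ∀ (a b : X) (n m : Y), cond (a * n) (b * m) ↔ cond a b := by
    intro a b n m
    exact and_congr (regM_mul hXn a n (hYX n.2))
      (comm_mul_mem hXn a b n m (hYX n.2) (hYX m.2))
  have h3 : ∀ a b : X, ∑ n : Y, ∑ m : Y, g (a * n) (b * m) =
      if cond a b then ((Complex.normSq (Δ a b) : ℝ) : ℂ) else 0 := by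
    intro a b
    by_cases hc : cond a b
    · rw [if_pos hc, ← Complex.mul_conj]
      have h4 : ∀ n m : Y, g (a * n) (b * m) = D1 τ ℓ Y f (a * n) (b * m) (u a b) *
          (starRingEnd ℂ) (Δ a b) := by
        intro n m
        change (if cond (a * n) (b * m) then D1 τ ℓ Y f (a * n) (b * m) (u (a * n) (b * m)) *
          (starRingEnd ℂ) (DJ τ ℓ Y f (a * n) (b * m) (u (a * n) (b * m))) else 0) = _
        rw [if_pos ((hcondm a b n m).2 hc), hucos a b n m n.2 m.2, DJ_mul]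
      simp only [h4]
      simp only [← Finset.sum_mul]
      congr 1
      exact (DJ_eq f a b (u a b)).symm
    · rw [if_neg hc]
      refine Finset.sum_eq_zero fun n _ => Finset.sum_eq_zero fun m _ => ?_
      change (if cond (a * n) (b * m) then _ else _) = _
      rw [if_neg (fun h => hc ((hcondm a b n m).1 h))]
  simp only [h3] at h2
  have h4 : ∑ a : X, ∑ b : X, (if cond a b then Complex.normSq (Δ a b) else 0) = 0 := by
    have h5 : ((∑ a : X, ∑ b : X, (if cond a b then Complex.normSq (Δ a b) else 0) : ℝ) : ℂ) =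
        0 := by
      rw [← h2]
      push_cast
      refine Finset.sum_congr rfl fun a _ => Finset.sum_congr rfl fun b _ => ?_
      by_cases hc : cond a b
      · rw [if_pos hc, if_pos hc]
      · rw [if_neg hc, if_neg hc, Complex.ofReal_zero]
    exact_mod_cast h5
  intro x y hx hxy
  have h5 := (Finset.sum_eq_zero_iff_of_nonneg (fun a _ => Finset.sum_nonneg fun b _ => by
    by_cases hc : cond a b
    · rw [if_pos hc]; exact Complex.normSq_nonneg _
    · rw [if_neg hc])).1 h4 x (Finset.mem_univ _)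
  have h6 := (Finset.sum_eq_zero_iff_of_nonneg (fun b _ => by
    by_cases hc : cond x b
    · rw [if_pos hc]; exact Complex.normSq_nonneg _
    · rw [if_neg hc])).1 h5 y (Finset.mem_univ _)
  rw [if_pos (⟨hx, hxy⟩ : cond x y)] at h6
  exact huni ℓ F hF τ hτ X Y hY f hf x y _ _ (hu x y hxy) (Complex.normSq_eq_zero.1 h6)

end final

/-- DBL (J-III) -/
theorem dbln (hnls : NlsStmt) (hbrm : BrmStmt) (hnch : NchStmt) (hps3 : Ps3Stmt)
    (hlct : LctStmt) (hcl : ClStmt) (hloc : LocStmt) (hxf : XfsStmt) (hinn : InnStmt)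
    (htfa : TfaStmt) (huni : UniStmt) (hdb1 : Db1Stmt) (hssp : SspStmt) (hmov : MovStmt)
    (hfra : FraStmt) (hrst : RstStmt) : DblnStmt := by
  intro ℓ _ F _ hF τ hτ X _ _ Y hY f hf hdz hH x y hx hxy
  obtain ⟨hxu, hXn, hYX, -⟩ := hxf ℓ F hF X Y hY f hf
  obtain ⟨L, hYL, ⟨j, hj, hxj⟩, ⟨j', hj', hyj⟩, n, hn⟩ := hfra X Y (XF f Y) hY hXn hYX x y hxy
  obtain ⟨hfL, hXL, hback⟩ := hrst ℓ F hF τ X Y hY f hf L hYL
  have hYn : (Y.subgroupOf L).Normal := inferInstance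
  -- the statement for `L`
  have hnil : NilMod (⊤ : Subgroup L) (Y.subgroupOf L) := by
    refine ⟨n, fun q hq => ?_⟩
    have h1 : ∀ (k : ℕ) (q : L), q ∈ Subgroup.lowerCentralSeries (⊤ : Subgroup L) k →
        (q : X) ∈ Subgroup.lowerCentralSeries L k := by
      intro k
      have h2 : (Subgroup.lowerCentralSeries (⊤ : Subgroup L) k).map L.subtype ≤
          Subgroup.lowerCentralSeries L k := by
        induction k with
        | zero =>
          rintro _ ⟨q, -, rfl⟩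
          exact q.2
        | succ k ih =>
          rw [Subgroup.lowerCentralSeries_succ, Subgroup.lowerCentralSeries_succ,
            Subgroup.map_commutator]
          refine Subgroup.commutator_mono ih ?_
          rintro _ ⟨q, -, rfl⟩
          exact q.2
      intro q hq
      exact h2 ⟨q, hq, rfl⟩
    exact hn (h1 n q hq)
  let e : Y.subgroupOf L ≃* Y := Subgroup.subgroupOfEquivOfLe hYL
  have hdzL : ¬ DZ ℓ (fun t : Y.subgroupOf L => (fun t : L => f t) t) := by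
    intro h
    exact hdz (dz_equiv e h)
  have hHL : HypY ℓ F (Y.subgroupOf L) := by
    intro H₁ _ _ Q₁ hQ₁ hiso hmu hout hi
    obtain ⟨e₁⟩ := hiso
    obtain ⟨i, hi⟩ := hi
    refine hH H₁ Q₁ hQ₁ ⟨e₁.trans e⟩ (hmu.trans ?_) hout
      ⟨(MonoidHom.prodMap L.subtype L.subtype).comp i, ?_⟩
    rotate_left
    · exact (Function.Injective.prodMap L.subtype_injective L.subtype_injective).comp hi
    unfold mu
    have h0 : (Subgroup.center X).relIndex Y =
        ((Subgroup.center X).comap L.subtype).relIndex (Y.subgroupOf L) := by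
      rw [Subgroup.relIndex_comap, Subgroup.map_subgroupOf_eq_of_le hYL]
    rw [h0]
    refine Subgroup.relIndex_le_of_le_left ?_ Subgroup.FiniteIndex.index_ne_zero
    intro q hq
    rw [Subgroup.mem_center_iff]
    intro k
    exact Subtype.ext (Subgroup.mem_center_iff.1 hq k)
  have hall := dbl_core hnls hbrm hnch hps3 hlct hcl hloc hxf hinn htfa huni hdb1 hssp hF hτ hfL
    hdzL hnil hHL
  -- in `L`
  have h1 : DZero τ ℓ Y f (x * j) (y * j') := by
    refine hback ⟨x * j, hxj⟩ ⟨y * j', hyj⟩ (hall _ _ ?_ ?_)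
    · have h2 := (regM_mul hXn x j hj (ℓ := ℓ)).2 hx
      obtain ⟨s, hs, h3⟩ := h2
      exact ⟨s, hs, (hXL _).2 h3⟩
    · rw [hXL]
      exact (comm_mul_mem hXn x y j j' hj hj').2 hxy
  have h2 := (hmov ℓ F hF τ hτ X Y hY f hf (x * j) (y * j')
    ((comm_mul_mem hXn x y j j' hj hj').2 hxy) j⁻¹ ((XF f Y).inv_mem hj)).1 h1
  rw [mul_inv_cancel_right] at h2
  have h3 := (hmov ℓ F hF τ hτ X Y hY f hf x (y * j') ?_ j'⁻¹ ((XF f Y).inv_mem hj')).2 h2
  · rw [mul_inv_cancel_right] at h3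
    exact h3
  · have := (comm_mul_mem hXn x y 1 j' (XF f Y).one_mem hj').2 hxy
    rwa [mul_one] at this

end Pool.Agent.PP.H94
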