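import Pool.Agent.Helper66_PP.StmtsJ
import Pool.Agent.Helper94_PP.Pos2
import Pool.Agent.Helper67_PP.Ex
import Pool.Agent.Helper75_PP.Corner

/-!
# Squad PP, part J, module SUM (AWC_J, J6)
-/

open scoped BigOperators

set_option linter.unusedSectionVars false

noncomputable section

namespace Pool.Agent.PP.H94

open Pool.Agent.Helper51_AWC Pool.Agent.Helper79_WRA Pool.Agent.PP

/-- regularity modulo a subgroup -/
theorem regM_iff {ℓ : ℕ} {X : Type} [Group X] (M S : Subgroup X) [(M.subgroupOf S).Normal] (x : S) :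
    Reg ℓ (x : S ⧸ M.subgroupOf S) ↔ RegM ℓ M (x : X) := by
  unfold Reg RegM
  constructor
  · intro h
    refine ⟨_, h, ?_⟩
    have h1 : ((x : S) : S ⧸ M.subgroupOf S) ^ orderOf ((x : S) : S ⧸ M.subgroupOf S) = 1 :=
      pow_orderOf_eq_one _
    rw [← QuotientGroup.mk_pow, QuotientGroup.eq_one_iff, Subgroup.mem_subgroupOf] at h1
    exact h1
  · rintro ⟨s, hs, h⟩
    have h1 : ((x : S) : S ⧸ M.subgroupOf S) ^ s = 1 := by
      rw [← QuotientGroup.mk_pow, QuotientGroup.eq_one_iff, Subgroup.mem_subgroupOf]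
      exact h
    exact Nat.Coprime.coprime_dvd_left (orderOf_dvd_of_pow_eq_one h1) hs

theorem regM_mul {ℓ : ℕ} {X : Type} [Group X] {M : Subgroup X} (hM : M.Normal) (x n : X)
    (hn : n ∈ M) : RegM ℓ M (x * n) ↔ RegM ℓ M x := by
  unfold RegM
  have h : ∀ s : ℕ, (x * n) ^ s ∈ M ↔ x ^ s ∈ M := by
    intro s
    rw [← QuotientGroup.eq_one_iff, ← QuotientGroup.eq_one_iff (N := M) (x ^ s),
      QuotientGroup.mk_pow, QuotientGroup.mk_pow, QuotientGroup.mk_mul_of_mem x hn]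
  simp only [h]

theorem comm_mul {X : Type} [Group X] {M : Subgroup X} (hM : M.Normal) (x y n m : X)
    (hn : n ∈ M) (hm : m ∈ M) :
    (x * y * x⁻¹ * y⁻¹)⁻¹ * ((x * n) * (y * m) * (x * n)⁻¹ * (y * m)⁻¹) ∈ M := by
  rw [← QuotientGroup.eq_one_iff]
  have h1 : QuotientGroup.mk' M n = 1 := (QuotientGroup.eq_one_iff _).2 hn
  have h2 : QuotientGroup.mk' M m = 1 := (QuotientGroup.eq_one_iff _).2 hm
  change QuotientGroup.mk' M _ = 1
  simp only [map_mul, map_inv, h1, h2, mul_one]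
  group

theorem comm_mul_mem {X : Type} [Group X] {M : Subgroup X} (hM : M.Normal) (x y n m : X)
    (hn : n ∈ M) (hm : m ∈ M) :
    (x * n) * (y * m) * (x * n)⁻¹ * (y * m)⁻¹ ∈ M ↔ x * y * x⁻¹ * y⁻¹ ∈ M := by
  have h := comm_mul hM x y n m hn hm
  constructor
  · intro h1
    have h2 := M.mul_mem h1 (M.inv_mem h)
    have e : (x * n) * (y * m) * (x * n)⁻¹ * (y * m)⁻¹ *
        ((x * y * x⁻¹ * y⁻¹)⁻¹ * ((x * n) * (y * m) * (x * n)⁻¹ * (y * m)⁻¹))⁻¹ =
        x * y * x⁻¹ * y⁻¹ := by group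
    rwa [e] at h2
  · intro h1
    have h2 := M.mul_mem h1 h
    rwa [mul_inv_cancel_left] at h2

section local_sum

variable {ℓ : ℕ} {F : Type} [Field F] {τ : F → ℂ} {X : Type} [Group X] [Fintype X]

/-- the sums `S_S` vanish if `Br_R(f) = 0` -/
theorem SS_zero (hloc : LocStmt) (hF : GoodF ℓ F) (Y : Subgroup X) (hY : Y.Normal) {f : X → F}
    (hf : SBlk Y f) {R S : Subgroup X} (hRS : Loc ℓ Y R S) (h0 : br R f = 0) (x y : X)
    (u : X → F) : SS τ Y S R f x y u = 0 := by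
  obtain ⟨-, hff, h1, -, -, hall⟩ := hloc ℓ F hF X Y hY f hf
  unfold SS
  have he : phiS Y S f x y = ∅ := by
    rw [Set.eq_empty_iff_forall_notMem]
    rintro φ ⟨hφ, hφf, -, -⟩
    have h2 := hall R S hRS f hff φ hφ hφf
    rw [h1, one_smul, h0] at h2
    have h3 : actF (fun t : ↥(Y ⊓ S) => (0 : X → F) t) φ = 0 := by
      funext z
      change ∑ᶠ t : ↥(Y ⊓ S), (0 : F) * φ (t * z) = 0
      simp
    rw [h3] at h2
    obtain ⟨n, ρ, hρ, rfl⟩ := hφ
    exact H75.tr_ne_zero hρ h2.symm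
  rw [he]
  simp

open Classical in
/-- The `ℓ`-number at a normal chain as a sum over pairs. -/
theorem loc_sum (hcl : ClStmt) (htfa : TfaStmt) (hinn : InnStmt) (hloc : LocStmt)
    (hF : GoodF ℓ F) (hτ : IsLift τ) (Y : Subgroup X) (hY : Y.Normal) {f : X → F} (hf : SBlk Y f)
    {R S : Subgroup X} (hRS : Loc ℓ Y R S) (M : Subgroup X) (hM : M.Normal) (hYM : Y ≤ M)
    (hMX : M ≤ XF f Y) {e : X → F} (he : IsIdem e) (hef : mulF e f = e)
    (hsupp : ∀ h, h ∉ M → e h = 0) (u u' : X → X → X → F)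
    (hu : ∀ x y, x * y * x⁻¹ * y⁻¹ ∈ M →
      IsUnitOver f Y (x * y * x⁻¹ * y⁻¹) (u x y) (u' x y)) :
    (Y.relIndex M : ℂ) * ((Nat.card S : ℂ) * (lnum S e : ℂ)) =
      ∑ x : X, ∑ y : X, if (x ∈ S ∧ y ∈ S) ∧ RegM ℓ M x ∧ x * y * x⁻¹ * y⁻¹ ∈ M then
        (Nat.card ↥(Y ⊓ S) : ℂ)⁻¹ * (BB τ f Y M e x y (u x y) * SS τ Y S R f x y (u x y))
        else 0 := by
  have hfS := Fintype.ofFinite S
  have hn : (M.subgroupOf S).Normal := inferInstance
  set T : ℂ := ∑ x : X, ∑ y : X, if (x ∈ S ∧ y ∈ S) ∧ RegM ℓ M x ∧ x * y * x⁻¹ * y⁻¹ ∈ M then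
        (BB τ f Y M e x y (u x y) * SS τ Y S R f x y (u x y)) else 0 with hT
  have hcard0 : (Nat.card ↥(Y ⊓ S) : ℂ) ≠ 0 := by
    rw [Nat.cast_ne_zero]
    exact Nat.card_pos.ne'
  have hTr : (∑ x : X, ∑ y : X, if (x ∈ S ∧ y ∈ S) ∧ RegM ℓ M x ∧ x * y * x⁻¹ * y⁻¹ ∈ M then
        (Nat.card ↥(Y ⊓ S) : ℂ)⁻¹ * (BB τ f Y M e x y (u x y) * SS τ Y S R f x y (u x y))
        else 0) = (Nat.card ↥(Y ⊓ S) : ℂ)⁻¹ * T := by
    rw [hT, Finset.mul_sum]
    refine Finset.sum_congr rfl fun x _ => ?_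
    rw [Finset.mul_sum]
    refine Finset.sum_congr rfl fun y _ => ?_
    rw [mul_ite, mul_zero]
  rw [hTr]
  -- the counting lemma
  have h1 := hcl ℓ F hF τ hτ S (M.subgroupOf S) (fun t : S => e t)
    (fun x y => by
      change e ((y : X) * x * (y : X)⁻¹) = e x
      exact he.1 x y)
    (fun h hh => hsupp h (fun h' => hh (Subgroup.mem_subgroupOf.2 h')))
  have h2 : (Nat.card S : ℂ) * Nat.card (M.subgroupOf S) * (lnum S e : ℂ) = T := by
    have e1 : (lnum S e : ℂ) = ({θ : S → F | θ ∈ IBr F S ∧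
        actF (fun t : S => e t) θ = θ}.ncard : ℂ) := rfl
    rw [e1, h1]
    have e2 : (∑ᶠ (x : S) (y : S) (_ : Reg ℓ (x : S ⧸ M.subgroupOf S) ∧
        x * y * x⁻¹ * y⁻¹ ∈ M.subgroupOf S), csum τ (M.subgroupOf S) (fun t : S => e t) x y) =
        ∑ x : S, ∑ y : S, if ((x : X) ∈ S ∧ (y : X) ∈ S) ∧ RegM ℓ M (x : X) ∧
          (x * y * x⁻¹ * y⁻¹ : X) ∈ M then
          (BB τ f Y M e x y (u x y) * SS τ Y S R f x y (u x y)) else 0 := by
      rw [finsum_eq_sum_of_fintype]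
      refine Finset.sum_congr rfl fun x _ => ?_
      rw [finsum_eq_sum_of_fintype]
      refine Finset.sum_congr rfl fun y _ => ?_
      by_cases hc : Reg ℓ (x : S ⧸ M.subgroupOf S) ∧ x * y * x⁻¹ * y⁻¹ ∈ M.subgroupOf S
      · have hc' : RegM ℓ M (x : X) ∧ (x * y * x⁻¹ * y⁻¹ : X) ∈ M :=
          ⟨(regM_iff M S x).1 hc.1, hc.2⟩
        rw [if_pos ⟨⟨x.2, y.2⟩, hc'⟩, finsum_eq_if, if_pos hc]
        exact htfa ℓ F hF τ hτ X Y hY f hf R S hRS M hM hYM hMX e he hef hsupp x y hc'.2 _ _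
          (hu _ _ hc'.2)
      · rw [if_neg, finsum_eq_if, if_neg hc]
        rintro ⟨-, h, h'⟩
        exact hc ⟨(regM_iff M S x).2 h, h'⟩
    rw [e2, hT, H67.sum_sub (X := S) (fun x => ∑ y : X, if (x ∈ S ∧ y ∈ S) ∧ RegM ℓ M x ∧
      x * y * x⁻¹ * y⁻¹ ∈ M then
        (BB τ f Y M e x y (u x y) * SS τ Y S R f x y (u x y)) else 0)]
    · refine Finset.sum_congr rfl fun x _ => ?_
      symm
      apply H67.sum_sub (X := S) (fun y => if ((x : X) ∈ S ∧ y ∈ S) ∧ RegM ℓ M (x : X) ∧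
        x * y * (x : X)⁻¹ * y⁻¹ ∈ M then
        (BB τ f Y M e x y (u x y) * SS τ Y S R f x y (u x y)) else 0)
      intro y hy
      rw [if_neg]
      rintro ⟨⟨-, h⟩, -⟩
      exact hy h
    · intro x hx
      refine Finset.sum_eq_zero fun y _ => ?_
      rw [if_neg]
      rintro ⟨⟨h, -⟩, -⟩
      exact hx h
  have h3 : Nat.card (M.subgroupOf S) = Nat.card ↥(M ⊓ S) := by
    refine Nat.card_congr
      { toFun := fun c => ⟨(c : S), ⟨Subgroup.mem_subgroupOf.1 c.2, (c : S).2⟩⟩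
        invFun := fun c => ⟨⟨c, c.2.2⟩, Subgroup.mem_subgroupOf.2 c.2.1⟩
        left_inv := fun c => rfl
        right_inv := fun c => rfl }
  by_cases hbr : br R f = 0
  · have hT0 : T = 0 := by
      rw [hT]
      refine Finset.sum_eq_zero fun x _ => Finset.sum_eq_zero fun y _ => ?_
      rw [SS_zero hloc hF Y hY hf hRS hbr, mul_zero, ite_self]
    rw [hT0] at h2 ⊢
    have h4 : (lnum S e : ℂ) = 0 := by
      rcases mul_eq_zero.1 h2 with h | h
      · rcases mul_eq_zero.1 h with h | h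
        · exact absurd h (by rw [Nat.cast_eq_zero]; exact Nat.card_pos.ne')
        · exact absurd h (by rw [Nat.cast_eq_zero]; exact Nat.card_pos.ne')
      · exact h
    rw [h4]
    ring
  · obtain ⟨-, h4, -⟩ := hinn ℓ F hF X Y hY f hf R S hRS hbr
    rw [h3, h4 M hYM hMX] at h2
    rw [← h2]
    push_cast
    field_simp

end local_sum

/-- a choice of units over the commutators which depends only on the cosets modulo `Y` -/
theorem exists_units (hxf : XfsStmt) {ℓ : ℕ} {F : Type} [Field F] (hF : GoodF ℓ F) {X : Type}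
    [Group X] [Finite X] (Y : Subgroup X) (hY : Y.Normal) {f : X → F} (hf : SBlk Y f) :
    ∃ u u' : X → X → X → F, (∀ x y, x * y * x⁻¹ * y⁻¹ ∈ XF f Y →
      IsUnitOver f Y (x * y * x⁻¹ * y⁻¹) (u x y) (u' x y)) ∧
      ∀ x y n m, n ∈ Y → m ∈ Y → u (x * n) (y * m) = u x y := by
  classical
  obtain ⟨hxu, hXn, hYX, hun, -⟩ := hxf ℓ F hF X Y hY f hf
  have hex : ∀ a b : X ⧸ Y, ∃ p : (X → F) × (X → F),
      (a.out * b.out * a.out⁻¹ * b.out⁻¹ ∈ XF f Y →
        IsUnitOver f Y (a.out * b.out * a.out⁻¹ * b.out⁻¹) p.1 p.2) := by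
    intro a b
    by_cases h : a.out * b.out * a.out⁻¹ * b.out⁻¹ ∈ XF f Y
    · obtain ⟨u, u', hu⟩ := (hxu _).1 h
      exact ⟨(u, u'), fun _ => hu⟩
    · exact ⟨(0, 0), fun h' => absurd h' h⟩
  choose P hP using hex
  refine ⟨fun x y => (P x y).1, fun x y => (P x y).2, ?_, ?_⟩
  · intro x y hxy
    have hn : ∀ z : X, ((z : X ⧸ Y).out)⁻¹ * z ∈ Y := by
      intro z
      rw [← QuotientGroup.eq]
      exact Quotient.out_eq' _
    have e : ∀ z : X, (z : X ⧸ Y).out * (((z : X ⧸ Y).out)⁻¹ * z) = z := fun z =>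
      mul_inv_cancel_left _ _
    set a := (x : X ⧸ Y).out with ha
    set b := (y : X ⧸ Y).out with hb
    have h1 := comm_mul hY a b _ _ (hn x) (hn y)
    have h2 := (comm_mul_mem hXn a b _ _ (hYX (hn x)) (hYX (hn y))).1 (by rwa [e, e])
    rw [e, e] at h1
    have h3 := (hun _ _ _ (hP x y h2)).2.2.1 _ h1
    rwa [mul_inv_cancel_left] at h3
  · intro x y n m hn hm
    have h1 : ((x * n : X) : X ⧸ Y) = (x : X ⧸ Y) := QuotientGroup.mk_mul_of_mem x hn
    have h2 : ((y * m : X) : X ⧸ Y) = (y : X ⧸ Y) := QuotientGroup.mk_mul_of_mem y hm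
    change (P ((x * n : X) : X ⧸ Y) ((y * m : X) : X ⧸ Y)).1 = _
    rw [h1, h2]

/-- SUM -/
theorem sum (hnch : NchStmt) (hcl : ClStmt) (hloc : LocStmt) (hxf : XfsStmt) (hsup : SupJStmt)
    (hlct : LctStmt) (hinn : InnStmt) (htfa : TfaStmt) (hbby : BbyStmt) : SumStmt := by
  classical
  intro ℓ F _ hF τ hτ X _ _ Y hY f hf hD e he hef
  have : Fact ℓ.Prime := ⟨hF.prime⟩
  have hfX := Fintype.ofFinite X
  have hfY := Fintype.ofFinite Y
  obtain ⟨hxu, hXn, hYX, hun, -⟩ := hxf ℓ F hF X Y hY f hf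
  obtain ⟨u, u', hu, hucos⟩ := exists_units hxf hF Y hY hf
  set M := XF f Y with hM
  have hsupp : ∀ h, h ∉ M → e h = 0 := hsup ℓ F hF X Y hY f hf e he hef
  let cond : X → X → Prop := fun x y => RegM ℓ M x ∧ x * y * x⁻¹ * y⁻¹ ∈ M
  let A : X → X → Finset (Subgroup X) → ℂ := fun x y d => (-1 : ℂ) ^ (d.card + 1) *
    ((Nat.card ↥(Y ⊓ stab d) : ℂ)⁻¹ *
      (BB τ f Y M e x y (u x y) * SS τ Y (stab d) (top d) f x y (u x y)))
  let G : X → X → ℂ := fun x y => if cond x y then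
    ∑ d ∈ (chainsOn (psubIn ℓ Y) ⊥).filter (fun d => NormalChain d ∧ x ∈ stab d ∧ y ∈ stab d),
      A x y d else 0
  -- the sum over all pairs
  have h1 : ∑ x : X, ∑ y : X, G x y = (Y.relIndex M : ℂ) * ((YY ℓ Y e : ℤ) : ℂ) := by
    have e1 : ((YY ℓ Y e : ℤ) : ℂ) = ∑ d ∈ (chainsOn (psubIn ℓ Y) ⊥).filter NormalChain,
        (-1 : ℂ) ^ (d.card + 1) * ((Nat.card (stab d) : ℂ) * (lnum (stab d) e : ℂ)) := by
      have := hnch ℓ X Y (fun S _ => (Nat.card S : ℤ) * (lnum S e : ℤ))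
      unfold YY
      rw [this]
      push_cast
      rfl
    rw [e1, Finset.mul_sum]
    have e2 : ∀ d ∈ (chainsOn (psubIn ℓ Y) ⊥).filter NormalChain,
        (Y.relIndex M : ℂ) * ((-1 : ℂ) ^ (d.card + 1) *
          ((Nat.card (stab d) : ℂ) * (lnum (stab d) e : ℂ))) =
        ∑ x : X, ∑ y : X, if (x ∈ stab d ∧ y ∈ stab d) ∧ cond x y then A x y d else 0 := by
      intro d hd
      rw [Finset.mem_filter] at hd
      have h2 := loc_sum hcl htfa hinn hloc hF hτ Y hY hf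
        (hlct ℓ X Y hF.prime d hd.1 hd.2) M hXn hYX le_rfl he hef hsupp u u' hu
      rw [mul_left_comm, h2, Finset.mul_sum]
      refine Finset.sum_congr rfl fun x _ => ?_
      rw [Finset.mul_sum]
      refine Finset.sum_congr rfl fun y _ => ?_
      rw [mul_ite, mul_zero]
    rw [Finset.sum_congr rfl e2]
    symm
    rw [Finset.sum_comm]
    refine Finset.sum_congr rfl fun x _ => ?_
    rw [Finset.sum_comm]
    refine Finset.sum_congr rfl fun y _ => ?_
    symm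
    by_cases hc : cond x y
    · change (if cond x y then ∑ d ∈ (chainsOn (psubIn ℓ Y) ⊥).filter
        (fun d => NormalChain d ∧ x ∈ stab d ∧ y ∈ stab d), A x y d else 0) = _
      rw [if_pos hc, Finset.sum_filter, Finset.sum_filter]
      refine Finset.sum_congr rfl fun d _ => ?_
      by_cases hN : NormalChain d
      · by_cases hs : x ∈ stab d ∧ y ∈ stab d
        · rw [if_pos ⟨hN, hs⟩, if_pos hN, if_pos ⟨hs, hc⟩]
        · rw [if_neg (fun h => hs h.2), if_pos hN, if_neg (fun h => hs h.1)]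
      · rw [if_neg (fun h => hN h.1), if_neg hN]
    · change (if cond x y then ∑ d ∈ (chainsOn (psubIn ℓ Y) ⊥).filter
        (fun d => NormalChain d ∧ x ∈ stab d ∧ y ∈ stab d), A x y d else 0) = _
      rw [if_neg hc]
      symm
      refine Finset.sum_eq_zero fun d _ => ?_
      rw [if_neg (fun h => hc h.2)]
  -- it vanishes
  have h2 : ∑ x : X, ∑ y : X, G x y = 0 := by
    apply sum_cosets Y (fun x => ∑ y : X, G x y)
    intro r
    rw [finsum_eq_sum_of_fintype, Finset.sum_comm]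
    apply sum_cosets Y (fun y => ∑ n : Y, G (r * n) y)
    intro s
    rw [finsum_eq_sum_of_fintype, Finset.sum_comm]
    have hcond : ∀ n m : Y, cond (r * n) (s * m) ↔ cond r s := by
      intro n m
      exact and_congr (regM_mul hXn r n (hYX n.2))
        (comm_mul_mem hXn r s n m (hYX n.2) (hYX m.2))
    by_cases hc : cond r s
    · have e3 : ∀ n m : Y, G (r * n) (s * m) = BB τ f Y M e r s (u r s) *
          ∑ t ∈ (chainsOn (psubIn ℓ Y) ⊥).filter
            (fun t => NormalChain t ∧ r * n ∈ stab t ∧ s * m ∈ stab t),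
            (-1 : ℂ) ^ (t.card + 1) * (Nat.card ↥(Y ⊓ stab t) : ℂ)⁻¹ *
              SS τ Y (stab t) (top t) f (r * n) (s * m) (u r s) := by
        intro n m
        change (if cond (r * n) (s * m) then _ else _) = _
        rw [if_pos ((hcond n m).2 hc), Finset.mul_sum]
        refine Finset.sum_congr rfl fun t _ => ?_
        change (-1 : ℂ) ^ (t.card + 1) * ((Nat.card ↥(Y ⊓ stab t) : ℂ)⁻¹ *
          (BB τ f Y M e (r * n) (s * m) (u (r * n) (s * m)) *
            SS τ Y (stab t) (top t) f (r * n) (s * m) (u (r * n) (s * m)))) = _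
        rw [hucos r s n m n.2 m.2, hbby ℓ F hF τ X Y hY f hf M e hXn hYX r s (u r s) n n.2 m m.2]
        ring
      simp only [e3]
      have h4 := hD r s hc.1 hc.2 (u r s) (u' r s) (hu r s hc.2)
      unfold DJ at h4
      rw [finsum_eq_sum_of_fintype] at h4
      simp only [finsum_eq_sum_of_fintype] at h4
      simp only [← Finset.mul_sum]
      rw [h4, mul_zero]
    · refine Finset.sum_eq_zero fun n _ => Finset.sum_eq_zero fun m _ => ?_
      change (if cond (r * n) (s * m) then _ else _) = _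
      rw [if_neg (fun h => hc ((hcond n m).1 h))]
  rw [h2] at h1
  rcases mul_eq_zero.1 h1.symm with h | h
  · exfalso
    rw [Nat.cast_eq_zero] at h
    exact Subgroup.FiniteIndex.index_ne_zero h
  · exact_mod_cast h

end Pool.Agent.PP.H94
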