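import Pool.Agent.Helper94_PP.Bridge
import Pool.Agent.Helper20_PP.Ibr

/-!
# Squad PP: the radical of a normal subgroup acts as zero (Clifford)
-/

open scoped BigOperators

set_option linter.unusedSectionVars false

noncomputable section

namespace Pool.Agent.PP.H94

open Pool.Agent.Helper51_AWC Pool.Agent.Helper79_WRA Pool.Agent.PP

variable {F : Type} [Field F] {H : Type} [Group H] [Finite H]

/-- the radical: all irreducible representations vanish -/
def InJ (a : MonoidAlgebra F H) : Prop :=
  ∀ (n : ℕ) (ρ : H →* Matrix (Fin n) (Fin n) F), IsIrr ρ → repA ρ a = 0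

theorem repA_surj {n : ℕ} {ρ : H →* Matrix (Fin n) (Fin n) F} (hρ : IsIrr ρ) :
    Function.Surjective (repA ρ) := (H20.lift_surjective ρ).2 hρ.2

theorem inJ_iff [IsAlgClosed F] (a : MonoidAlgebra F H) :
    InJ a ↔ a ∈ Ring.jacobson (MonoidAlgebra F H) := by
  obtain ⟨n, d, π, hd, hπ, hJ, hall⟩ := H20.sim_struct (F := F) (MonoidAlgebra F H)
  rw [← hJ]
  constructor
  · intro h
    funext i
    let Φ : MonoidAlgebra F H →ₐ[F] Matrix (Fin (d i)) (Fin (d i)) F :=
      (Pi.evalAlgHom F _ i).comp π
    have hΦ : Function.Surjective Φ := (Function.surjective_eval i).comp hπ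
    have h1 := h (d i) (H20.ofAlg Φ) (H20.ofAlg_irr (hd i) Φ hΦ)
    have e : repA (H20.ofAlg Φ) = Φ := by
      change MonoidAlgebra.lift F _ H ((MonoidAlgebra.lift F _ H).symm Φ) = Φ
      exact Equiv.apply_symm_apply _ _
    rw [e] at h1
    exact h1
  · intro h m ρ hρ
    obtain ⟨i, -, hi⟩ := hall m (repA ρ) hρ.1 (repA_surj hρ)
    rw [hi, h]
    rfl

/-- conjugation of the group ring of a normal subgroup -/
def cj (Q : Subgroup H) [Q.Normal] (h : H) : MonoidAlgebra F Q →ₐ[F] MonoidAlgebra F Q :=
  MonoidAlgebra.mapDomainAlgHom F F ((MulAut.conjNormal h : MulAut Q) : Q →* Q)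

theorem cj_single (Q : Subgroup H) [Q.Normal] (h : H) (q : Q) (c : F) :
    cj Q h (MonoidAlgebra.single q c) = MonoidAlgebra.single (MulAut.conjNormal h q) c := by
  change MonoidAlgebra.mapDomain _ _ = _
  rw [MonoidAlgebra.mapDomain_single]
  rfl

theorem inJ_cj (Q : Subgroup H) [Q.Normal] (h : H) {a : MonoidAlgebra F Q} (ha : InJ a) :
    InJ (cj Q h a) := by
  intro n ρ hρ
  have h1 : IsIrr (ρ.comp ((MulAut.conjNormal h : MulAut Q) : Q →* Q)) := by
    refine ⟨hρ.1, ?_⟩
    rw [← hρ.2]
    congr 1
    ext x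
    constructor
    · rintro ⟨q, rfl⟩
      exact ⟨_, rfl⟩
    · rintro ⟨q, rfl⟩
      refine ⟨(MulAut.conjNormal h : MulAut Q).symm q, ?_⟩
      change ρ ((MulAut.conjNormal h : MulAut Q) ((MulAut.conjNormal h : MulAut Q).symm q)) = _
      rw [MulEquiv.apply_symm_apply]
  have h2 := ha n _ h1
  have e : ∀ b : MonoidAlgebra F Q, repA ρ (cj Q h b) =
      repA (ρ.comp ((MulAut.conjNormal h : MulAut Q) : Q →* Q)) b := by
    intro b
    induction b using MonoidAlgebra.induction_linear with
    | zero => rw [map_zero, map_zero, map_zero]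
    | add x y hx hy => rw [map_add, map_add, map_add, hx, hy]
    | single g c => rw [cj_single, repA_single, repA_single]; rfl
  rw [e, h2]

theorem repA_cj {n : ℕ} (Q : Subgroup H) [Q.Normal] (ρ : H →* Matrix (Fin n) (Fin n) F) (h : H)
    (a : MonoidAlgebra F Q) : ρ h * repA (ρ.comp Q.subtype) a =
      repA (ρ.comp Q.subtype) (cj Q h a) * ρ h := by
  induction a using MonoidAlgebra.induction_linear with
  | zero => rw [map_zero, map_zero, map_zero, mul_zero, zero_mul]
  | add x y hx hy => rw [map_add, map_add, map_add, mul_add, add_mul, hx, hy]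
  | single g c =>
    rw [cj_single, repA_single, repA_single, mul_smul_comm, smul_mul_assoc]
    congr 1
    change ρ h * ρ (g : H) = ρ ((MulAut.conjNormal h g : Q) : H) * ρ h
    rw [← map_mul, ← map_mul, MulAut.conjNormal_apply, inv_mul_cancel_right]

/-- The radical of a normal subgroup acts as zero on the irreducible representations. -/
theorem clr [IsAlgClosed F] (Q : Subgroup H) [Q.Normal] {n : ℕ}
    {ρ : H →* Matrix (Fin n) (Fin n) F} (hρ : IsIrr ρ) {a : MonoidAlgebra F Q} (ha : InJ a) :
    repA (ρ.comp Q.subtype) a = 0 := by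
  classical
  by_contra hne
  set Φ := repA (ρ.comp Q.subtype) with hΦ
  set J := Ring.jacobson (MonoidAlgebra F Q) with hJ
  have hart : IsArtinianRing (MonoidAlgebra F Q) := IsArtinianRing.of_finite F _
  obtain ⟨m, hm⟩ : IsNilpotent J := IsSemiprimaryRing.isNilpotent
  -- the right ideals
  let S : ℕ → Submodule F (Matrix (Fin n) (Fin n) F) := fun k =>
    Submodule.span F {x | ∃ b ∈ J ^ k, ∃ W, x = Φ b * W}
  have hS1 : (1 : Matrix (Fin n) (Fin n) F) ∈ S 1 := by
    obtain ⟨i, j, -, hs⟩ := H20.mat_gen _ hne
    rw [← hs]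
    refine Submodule.sum_mem _ fun p _ => ?_
    have key : ∀ (U : Matrix (Fin n) (Fin n) F), ∀ W, U * Φ a * W ∈ S 1 := by
      intro U
      have hU : U ∈ Submodule.span F (Set.range ρ) := by rw [hρ.2]; trivial
      induction hU using Submodule.span_induction with
      | mem x hx =>
        obtain ⟨h, rfl⟩ := hx
        intro W
        rw [hΦ, repA_cj, mul_assoc]
        refine Submodule.subset_span ⟨cj Q h a, ?_, _, rfl⟩
        rw [Submodule.pow_one, hJ, ← inJ_iff]
        exact inJ_cj Q h ha
      | zero =>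
        intro W
        rw [zero_mul, zero_mul]
        exact Submodule.zero_mem _
      | add x y _ _ hx hy =>
        intro W
        rw [add_mul, add_mul]
        exact Submodule.add_mem _ (hx W) (hy W)
      | smul c x _ hx =>
        intro W
        rw [smul_mul_assoc, smul_mul_assoc]
        exact Submodule.smul_mem _ _ (hx W)
    exact key _ _
  have hSk : ∀ k, (1 : Matrix (Fin n) (Fin n) F) ∈ S (k + 1) := by
    intro k
    induction k with
    | zero => exact hS1
    | succ k ih =>
      have key : ∀ b ∈ J ^ (k + 1), ∀ V, V ∈ S 1 → ∀ W, Φ b * V * W ∈ S (k + 1 + 1) := by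
        intro b hb V hV
        induction hV using Submodule.span_induction with
        | mem x hx =>
          obtain ⟨b', hb', W', rfl⟩ := hx
          intro W
          rw [Submodule.pow_one] at hb'
          have e : Φ b * (Φ b' * W') * W = Φ (b * b') * (W' * W) := by
            rw [map_mul]
            noncomm_ring
          rw [e]
          refine Submodule.subset_span ⟨b * b', ?_, _, rfl⟩
          rw [Submodule.pow_succ (n := k + 1)]
          exact Ideal.mul_mem_mul hb hb'
        | zero =>
          intro W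
          rw [mul_zero, zero_mul]
          exact Submodule.zero_mem _
        | add x y _ _ hx hy =>
          intro W
          rw [mul_add, add_mul]
          exact Submodule.add_mem _ (hx W) (hy W)
        | smul c x _ hx =>
          intro W
          rw [mul_smul_comm, smul_mul_assoc]
          exact Submodule.smul_mem _ _ (hx W)
      refine Submodule.span_induction (p := fun x _ => x ∈ S (k + 1 + 1)) ?_ ?_ ?_ ?_ ih
      · rintro x ⟨b, hb, W, rfl⟩
        have := key b hb 1 hS1 W
        rwa [mul_one] at this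
      · exact Submodule.zero_mem _
      · intro x y _ _ hx hy
        exact Submodule.add_mem _ hx hy
      · intro c x _ hx
        exact Submodule.smul_mem _ _ hx
  have h1 := hSk m
  have h2 : S (m + 1) = ⊥ := by
    rw [eq_bot_iff]
    refine Submodule.span_le.2 ?_
    rintro x ⟨b, hb, W, rfl⟩
    have hb' := Ideal.pow_le_pow_right (Nat.le_succ m) hb
    rw [hm] at hb'
    have hb0 : b = 0 := hb'
    rw [hb0, map_zero, zero_mul]
    exact Submodule.zero_mem _
  rw [h2, Submodule.mem_bot] at h1
  have : NeZero n := ⟨hρ.1.ne'⟩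
  exact one_ne_zero h1

/-- The same for functions. -/
theorem clr' [IsAlgClosed F] (Q : Subgroup H) [Q.Normal] {n : ℕ}
    {ρ : H →* Matrix (Fin n) (Fin n) F} (hρ : IsIrr ρ) {a : Q → F}
    (ha : ∀ (k : ℕ) (σ : Q →* Matrix (Fin k) (Fin k) F), IsIrr σ → ev σ a = 0) :
    ev (ρ.comp Q.subtype) a = 0 := by
  rw [ev_eq]
  apply clr Q hρ
  intro k σ hσ
  rw [← ev_eq]
  exact ha k σ hσ

end Pool.Agent.PP.H94
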