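import Pool.Agent.Helper94_PP.Rel
import Pool.Agent.Helper46_PP.Blk
import Pool.Agent.Helper75_PP.PosT

/-!
# Squad PP, the relative form of the final theorem, step (R2)

If all blocks `b` of the subgroup `N` with `e b ≠ 0` are positive, then `Pos(e, N)` holds.
-/

open scoped BigOperators

noncomputable section

namespace Pool.Agent.PP.H94

open Pool.Agent.Helper51_AWC Pool.Agent.Helper79_WRA Pool.Agent.PP

section lemp

variable {F G : Type} [Field F] [Group G]

/-- the order of the centraliser of an element of `N` in `N` -/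
theorem card_cent_sub {N : Subgroup G} {x : G} (hx : x ∈ N) :
    Nat.card (Subgroup.centralizer ({(⟨x, hx⟩ : N)} : Set N) ⊓ ⊤ : Subgroup N) =
      Nat.card (Subgroup.centralizer ({x} : Set G) ⊓ N : Subgroup G) := by
  refine Nat.card_congr
    { toFun := fun y => ⟨y.1.1, ?_⟩
      invFun := fun y => ⟨⟨y.1, y.2.2⟩, ?_⟩
      left_inv := fun y => rfl
      right_inv := fun y => rfl }
  · have h := Subgroup.mem_inf.1 y.2
    rw [Subgroup.mem_centralizer_singleton_iff] at h
    rw [Subgroup.mem_inf, Subgroup.mem_centralizer_singleton_iff]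
    exact ⟨congrArg Subtype.val h.1, y.1.2⟩
  · have h := Subgroup.mem_inf.1 y.2
    rw [Subgroup.mem_centralizer_singleton_iff] at h
    rw [Subgroup.mem_inf, Subgroup.mem_centralizer_singleton_iff]
    exact ⟨Subtype.ext h.1, Subgroup.mem_top _⟩

/-- the class sum of an element of `N` is the extension of the class sum in the group `N` -/
theorem ext0_clsum {N : Subgroup G} {x : G} (hx : x ∈ N) :
    ext0 N (clsum F (⊤ : Subgroup N) ⟨x, hx⟩) = clsum F N x := by
  classical
  funext y
  by_cases hy : y ∈ N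
  · rw [H46.ext0_of_mem _ hy]
    unfold clsum
    have hiff : (∃ q ∈ (⊤ : Subgroup N), (⟨y, hy⟩ : N) = q * ⟨x, hx⟩ * q⁻¹) ↔
        ∃ q ∈ N, y = q * x * q⁻¹ := by
      constructor
      · rintro ⟨q, _, h⟩
        exact ⟨q, q.2, congrArg Subtype.val h⟩
      · rintro ⟨q, hq, h⟩
        exact ⟨⟨q, hq⟩, Subgroup.mem_top _, Subtype.ext h⟩
    by_cases h : ∃ q ∈ N, y = q * x * q⁻¹
    · rw [if_pos h, if_pos (hiff.2 h)]
    · rw [if_neg h, if_neg (fun h' => h (hiff.1 h'))]
  · rw [H46.ext0_of_not_mem _ hy]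
    unfold clsum
    rw [if_neg]
    rintro ⟨q, hq, rfl⟩
    exact hy (mul_mem (mul_mem hq hx) (inv_mem hq))

theorem ext0_zero' (N : Subgroup G) : ext0 N (0 : N → F) = 0 := by
  funext x
  by_cases hx : x ∈ N
  · rw [H46.ext0_of_mem _ hx]; rfl
  · rw [H46.ext0_of_not_mem _ hx]; rfl

variable [Finite G]

/-- iterates of the multiplication by an extended element -/
theorem ext0_iter {N : Subgroup G} (a b : N → F) (n : ℕ) :
    ext0 N ((mulF a)^[n] b) = (mulF (ext0 N a))^[n] (ext0 N b) := by
  induction n with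
  | zero => rfl
  | succ n ih =>
    rw [Function.iterate_succ_apply', Function.iterate_succ_apply', H46.ext0_mul, ih]

/-- iterates of the multiplication commute with the multiplication by a central element -/
theorem mul_iter {e : G → F} (he : IsCl e) (a b : G → F) (n : ℕ) :
    (mulF a)^[n] (mulF e b) = mulF e ((mulF a)^[n] b) := by
  induction n with
  | zero => rfl
  | succ n ih =>
    rw [Function.iterate_succ_apply', Function.iterate_succ_apply', ih, ← mulF_assoc, ← mulF_assoc,
      H46.mulF_comm he a]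

theorem iter_zero' (a : G → F) (n : ℕ) : (mulF a)^[n] (0 : G → F) = 0 := by
  induction n with
  | zero => rfl
  | succ n ih => rw [Function.iterate_succ_apply', ih, H46.mulF_zero]

theorem iter_add' (a b c : G → F) (n : ℕ) :
    (mulF a)^[n] (b + c) = (mulF a)^[n] b + (mulF a)^[n] c := by
  induction n with
  | zero => rfl
  | succ n ih =>
    rw [Function.iterate_succ_apply', Function.iterate_succ_apply', Function.iterate_succ_apply',
      ih, H46.mulF_add]

theorem iter_mono {a b : G → F} {n m : ℕ} (h : (mulF a)^[n] b = 0) (hm : n ≤ m) :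
    (mulF a)^[m] b = 0 := by
  obtain ⟨k, rfl⟩ := Nat.exists_eq_add_of_le hm
  rw [add_comm, Function.iterate_add_apply, h, iter_zero']

/-- (R2): if all blocks of `N` under `e` are positive, then `e` is positive over `N`. -/
theorem pos_of_blocks (ℓ : ℕ) (N : Subgroup G) (e : G → F) (he : IsCl e)
    (h : ∀ b : N → F, IsBlk b → mulF e (ext0 N b) ≠ 0 → Pos ℓ b ⊤) : Pos ℓ e N := by
  intro x hx hd
  have key : ∀ g : N → F, IsIdem g →
      ∃ n : ℕ, (mulF (clsum F N x))^[n] (mulF e (ext0 N g)) = 0 := by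
    apply H46.idem_induction
    · refine ⟨0, ?_⟩
      rw [ext0_zero', H46.mulF_zero]
      rfl
    · intro b hb
      by_cases h0 : mulF e (ext0 N b) = 0
      · exact ⟨0, h0⟩
      · obtain ⟨n, hn⟩ := h b hb h0 ⟨x, hx⟩ (Subgroup.mem_top _)
          (by rw [card_cent_sub hx]; exact hd)
        refine ⟨n, ?_⟩
        rw [mul_iter he, ← ext0_clsum hx, ← ext0_iter, hn, ext0_zero', H46.mulF_zero]
    · rintro e₁ e₂ _ _ _ ⟨n, hn⟩ ⟨m, hm⟩
      refine ⟨max n m, ?_⟩
      rw [H46.ext0_add, H46.mulF_add, iter_add', iter_mono hn (le_max_left _ _),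
        iter_mono hm (le_max_right _ _), add_zero]
  obtain ⟨n, hn⟩ := key _ H46.isIdem_one
  refine ⟨n, ?_⟩
  rwa [H46.ext0_dl, H46.mulF_one] at hn

end lemp

end Pool.Agent.PP.H94
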