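import Pool.Agent.Helper94_PP.Db2a
import Pool.Agent.Helper20_PP.Mov
import Pool.Agent.Helper36_PP.Involves
import Pool.Agent.Helper18_PP.Dzf

/-!
# Squad PP, part J, module DB2 (AWC_J, J7.6): positivity and the hypothesis
-/

open scoped BigOperators

set_option linter.unusedSectionVars false

noncomputable section

namespace Pool.Agent.PP.H94

open Pool.Agent.Helper51_AWC Pool.Agent.Helper79_WRA Pool.Agent.PP

section ft

variable {F : Type} [Field F] {X : Type} [Group X] [Finite X] {Y : Subgroup X} [hY : Y.Normal]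

/-- `f ⊗ 1` -/
def ft (Y : Subgroup X) [Y.Normal] (f : X → F) : Lam Y → F :=
  open Classical in fun p => if p.1.2 = 1 then f p.1.1 else 0

/-- `(f ⊗ S(f)) (f ⊗ 1) = f ⊗ S(f)` -/
theorem sig_ft {f : X → F} (hf : SBlk Y f) : mulF (sig Y f f) (ft Y f) = sig Y f f := by
  classical
  have hfX := Fintype.ofFinite X
  have hfY := Fintype.ofFinite Y
  have hfL := Fintype.ofFinite (Lam Y)
  funext p
  have hff := congrFun (H20.f_mul_f hf) p.1.1
  unfold mulF at hff ⊢
  rw [finsum_eq_sum_of_fintype] at hff ⊢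
  have hmem : ∀ n : Y, (p.1.2 * (n : X))⁻¹ * p.1.2 ∈ Y := by
    intro n
    have e : (p.1.2 * (n : X))⁻¹ * p.1.2 = (n : X)⁻¹ := by group
    rw [e]
    exact Y.inv_mem n.2
  let i : Y → Lam Y := fun n => ⟨(p.1.2 * n, p.1.2), hmem n⟩
  have hi : Function.Injective i := by
    intro n m h
    have h1 : p.1.2 * (n : X) = p.1.2 * (m : X) := congrArg (fun q : Lam Y => q.1.1) h
    exact Subtype.ext (mul_left_cancel h1)
  have h1 : ∑ q : Lam Y, sig Y f f q * ft Y f (q⁻¹ * p) =
      ∑ n : Y, sig Y f f (i n) * ft Y f ((i n)⁻¹ * p) := by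
    symm
    apply Fintype.sum_of_injective i hi
    · intro q hq
      have h2 : ft Y f (q⁻¹ * p) = 0 := by
        unfold ft
        rw [if_neg]
        intro h3
        apply hq
        have h4 : q.1.2 = p.1.2 := by
          have h5 : (q.1.2)⁻¹ * p.1.2 = 1 := h3
          exact inv_mul_eq_one.1 h5
        refine ⟨⟨(q.1.2)⁻¹ * q.1.1, ?_⟩, ?_⟩
        · have := Y.inv_mem (mem_lam q)
          rwa [mul_inv_rev, inv_inv] at this
        · apply lam_ext
          · change p.1.2 * ((q.1.2)⁻¹ * q.1.1) = q.1.1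
            rw [← h4, mul_inv_cancel_left]
          · exact h4.symm
      rw [h2, mul_zero]
    · intro n
      rfl
  rw [h1]
  have h2 : ∀ n : Y, sig Y f f (i n) * ft Y f ((i n)⁻¹ * p) =
      (f (p.1.2 * n) * f ((p.1.2 * n)⁻¹ * p.1.1)) * f (p.1.2)⁻¹ := by
    intro n
    have h3 : ft Y f ((i n)⁻¹ * p) = f ((p.1.2 * n)⁻¹ * p.1.1) := by
      unfold ft
      rw [if_pos]
      · rfl
      · exact inv_mul_cancel p.1.2
    rw [h3]
    change f (p.1.2 * n) * f (p.1.2)⁻¹ * _ = _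
    ring
  simp only [h2]
  rw [← Finset.sum_mul]
  change _ = f p.1.1 * f (p.1.2)⁻¹
  by_cases hp : p.1.2 ∈ Y
  · congr 1
    rw [← hff, H67.sum_sub (X := Y) (fun t => f t * f (t⁻¹ * p.1.1))
      (fun t ht => by rw [hf.supp t ht, zero_mul])]
    exact Fintype.sum_equiv (Equiv.mulLeft (⟨p.1.2, hp⟩ : Y)) _ _ fun n => rfl
  · rw [hf.supp (p.1.2)⁻¹ (fun h => hp (by have := Y.inv_mem h; rwa [inv_inv] at this)), mul_zero,
      mul_zero]

theorem br_mul_right {G : Type} [Group G] [Finite G] {P : Subgroup G} {a b : G → F}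
    (hb : ∀ t, t ∉ Subgroup.centralizer (P : Set G) → b t = 0) :
    br P (mulF a b) = mulF (br P a) b := by
  classical
  have hfG := Fintype.ofFinite G
  funext x
  unfold mulF
  by_cases hx : x ∈ Subgroup.centralizer (P : Set G)
  · rw [H66.br_of_mem hx]
    rw [finsum_eq_sum_of_fintype, finsum_eq_sum_of_fintype]
    refine Finset.sum_congr rfl fun t _ => ?_
    by_cases ht : t ∈ Subgroup.centralizer (P : Set G)
    · rw [H66.br_of_mem ht]
    · rw [hb (t⁻¹ * x), mul_zero, mul_zero]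
      intro h
      apply ht
      have := mul_mem hx (inv_mem h)
      rwa [mul_inv_rev, inv_inv, mul_inv_cancel_left] at this
  · rw [H66.br_of_not_mem hx, finsum_eq_sum_of_fintype]
    symm
    refine Finset.sum_eq_zero fun t _ => ?_
    by_cases ht : t ∈ Subgroup.centralizer (P : Set G)
    · rw [hb (t⁻¹ * x), mul_zero]
      intro h
      apply hx
      have := mul_mem ht h
      rwa [mul_inv_cancel_left] at this
    · rw [H66.br_of_not_mem ht, zero_mul]

end ft

section inner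

variable {ℓ : ℕ} {F : Type} [Field F] {X : Type} [Group X] [Finite X] {Y : Subgroup X}
  [hY : Y.Normal]

/-- the hypothesis on the groups `H₁` with a normal subgroup `Q₁ ≅ Y` -/
def HypY (ℓ : ℕ) (F : Type) [Field F] {X : Type} [Group X] (Y : Subgroup X) : Prop :=
  ∀ (H₁ : Type) [Group H₁] [Finite H₁] (Q₁ : Subgroup H₁), Q₁.Normal → Nonempty (Q₁ ≃* Y) →
    mu Q₁ ≤ mu Y → (∃ n : ℕ, Subgroup.lowerCentralSeries (⊤ : Subgroup H₁) n ≤
      Q₁ ⊔ Subgroup.centralizer (Q₁ : Set H₁)) → (∃ i : H₁ →* X × X, Function.Injective i) →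
      YH ℓ F Q₁

open Classical in
/-- The inner sum at a normal chain `u` of the second factor vanishes. -/
theorem inner (hnls : NlsStmt) (hbrm : BrmStmt) (hnch : NchStmt) (hps3 : Ps3Stmt)
    (hlct : LctStmt) (hF : GoodF ℓ F) {f : X → F} (hf : SBlk Y f)
    (hdz : ¬ DZ ℓ (fun t : Y => f t)) (hnil : NilMod (⊤ : Subgroup X) Y) (hH : HypY ℓ F Y)
    {E : Lam Y → F} (hE : IsIdem E) (hEf : mulF E (sig Y f f) = E) {u : Finset (Subgroup X)}
    (hu : u ∈ chainsOn (psubIn ℓ Y) ⊥) (hun : NormalChain u) :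
    ∑ t ∈ (chainsOn (psubIn ℓ Y) ⊥).filter NormalChain, (-1 : ℤ) ^ (t.card + 1) *
      ((Nat.card (((stab t).prod (stab u)).subgroupOf (Lam Y)) : ℤ) *
        (lnum (((stab t).prod (stab u)).subgroupOf (Lam Y)) E : ℤ)) = 0 := by
  have hfact : Fact ℓ.Prime := ⟨hF.prime⟩
  have hlu := hlct ℓ X Y hF.prime u hu hun
  set Λu : Subgroup (Lam Y) := (stab u).comap (pr2 Y) with hΛu
  set R1 : Subgroup (Lam Y) := ((⊥ : Subgroup X).prod (top u)).subgroupOf (Lam Y) with hR1
  set φ : Λu →* X := (pr1 Y).comp Λu.subtype with hφ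
  set Q₁ : Subgroup Λu := ((pr2 Y).comp Λu.subtype).ker with hQ₁
  set eu : Λu → F := fun t => br R1 E t with heu
  have hmemQ : ∀ q : Λu, q ∈ Q₁ ↔ q.1.1.2 = 1 := fun q => Iff.rfl
  have hQY : ∀ q : Λu, q ∈ Q₁ → q.1.1.1 ∈ Y := by
    intro q hq
    rw [fst_mem_iff, (hmemQ q).1 hq]
    exact Y.one_mem
  have hR1p : IsPGroup ℓ R1 := by
    have := (loc_prod (⟨IsPGroup.of_bot, bot_le, bot_le, le_top, ?_⟩ : Loc ℓ Y ⊥ ⊤) hlu).pgrp
    · exact this
    · intro x _
      rw [Subgroup.mem_normalizer_iff]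
      intro y
      rw [Subgroup.mem_bot, Subgroup.mem_bot]
      constructor
      · rintro rfl
        group
      · intro h
        have h1 := congrArg (fun z => x⁻¹ * z * x) h
        have e : x⁻¹ * (x * y * x⁻¹) * x = y := by group
        change x⁻¹ * (x * y * x⁻¹) * x = x⁻¹ * 1 * x at h1
        rw [e] at h1
        rw [h1]
        group
  have hcR1 : ∀ p : Lam Y, p ∈ Subgroup.centralizer (R1 : Set (Lam Y)) ↔
      p.1.2 ∈ Subgroup.centralizer ((top u : Subgroup X) : Set X) := by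
    intro p
    rw [Subgroup.mem_centralizer_iff, Subgroup.mem_centralizer_iff]
    constructor
    · intro h r hr
      have := h (inR ⟨r, hlu.le hr⟩) ⟨(⊥ : Subgroup X).one_mem, hr⟩
      exact congrArg (fun q : Lam Y => q.1.2) this
    · rintro h r ⟨hr1, hr2⟩
      apply lam_ext
      · have h1 : r.1.1 = 1 := (Subgroup.mem_bot).1 hr1
        change r.1.1 * p.1.1 = p.1.1 * r.1.1
        rw [h1, one_mul, mul_one]
      · exact h _ hr2
  have hc1 : Subgroup.centralizer (R1 : Set (Lam Y)) ≤ Λu := by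
    intro p hp
    exact hlu.cent ((hcR1 p).1 hp)
  have hn1 : Λu ≤ Subgroup.normalizer (R1 : Set (Lam Y)) := by
    intro p hp
    rw [Subgroup.mem_normalizer_iff]
    intro q
    have e2 := (Subgroup.mem_normalizer_iff.1 (hlu.norm hp)) q.1.2
    refine and_congr ?_ e2
    change q.1.1 ∈ (⊥ : Subgroup X) ↔ p.1.1 * q.1.1 * (p.1.1)⁻¹ ∈ (⊥ : Subgroup X)
    rw [Subgroup.mem_bot, Subgroup.mem_bot]
    constructor
    · intro h
      rw [h]
      group
    · intro h
      have h1 := congrArg (fun z => (p.1.1)⁻¹ * z * p.1.1) h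
      have e : (p.1.1)⁻¹ * (p.1.1 * q.1.1 * (p.1.1)⁻¹) * p.1.1 = q.1.1 := by group
      change (p.1.1)⁻¹ * (p.1.1 * q.1.1 * (p.1.1)⁻¹) * p.1.1 = (p.1.1)⁻¹ * 1 * p.1.1 at h1
      rw [e] at h1
      rw [h1]
      group
  have hidem : IsIdem eu := (hbrm ℓ F hF (Lam Y) R1 Λu hR1p hc1 hn1).2.2 E hE
  -- the isomorphism
  let e : Q₁ ≃* Y :=
    { toFun := fun q => ⟨q.1.1.1.1, hQY q.1 q.2⟩
      invFun := fun y => ⟨⟨inL y, by
        change (1 : X) ∈ stab u
        exact (stab u).one_mem⟩, (hmemQ _).2 rfl⟩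
      left_inv := fun q => Subtype.ext (Subtype.ext (lam_ext rfl ((hmemQ _).1 q.2).symm))
      right_inv := fun y => rfl
      map_mul' := fun q q' => rfl }
  have hmapQ : Q₁.map φ = Y := by
    ext y
    constructor
    · rintro ⟨q, hq, rfl⟩
      exact hQY q hq
    · intro hy
      exact ⟨(e.symm ⟨y, hy⟩ : Q₁), (e.symm ⟨y, hy⟩).2, rfl⟩
  have hcommQ : ∀ k : Λu, φ k = 1 → ∀ m ∈ Q₁, k * m = m * k := by
    intro k hk m hm
    apply Subtype.ext
    apply lam_ext
    · change k.1.1.1 * m.1.1.1 = m.1.1.1 * k.1.1.1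
      have h1 : k.1.1.1 = 1 := hk
      rw [h1, one_mul, mul_one]
    · change k.1.1.2 * m.1.1.2 = m.1.1.2 * k.1.1.2
      rw [(hmemQ m).1 hm, one_mul, mul_one]
  have hkerQ : ¬ ℓ ∣ Nat.card (φ.ker ⊓ Q₁ : Subgroup Λu) := by
    have h1 : (φ.ker ⊓ Q₁ : Subgroup Λu) = ⊥ := by
      rw [eq_bot_iff]
      rintro q ⟨h1, h2⟩
      rw [Subgroup.mem_bot]
      exact Subtype.ext (lam_ext h1 ((hmemQ q).1 h2))
    rw [h1, Subgroup.card_bot]
    exact fun h => hF.prime.one_lt.ne' (Nat.dvd_one.1 h)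
  have hmu : mu Q₁ ≤ mu Y := by
    have h0 : mu Y = ((Subgroup.center X).comap φ).relIndex Q₁ := by
      rw [Subgroup.relIndex_comap, hmapQ]
      rfl
    rw [h0, ← Subgroup.inf_relIndex_right _ Q₁]
    refine Subgroup.relIndex_le_of_le_left ?_ ?_
    · rintro q ⟨h1, h2⟩
      rw [Subgroup.mem_center_iff]
      intro k
      apply Subtype.ext
      apply lam_ext
      · have h3 := Subgroup.mem_center_iff.1 h1 k.1.1.1
        exact h3
      · change k.1.1.2 * q.1.1.2 = q.1.1.2 * k.1.1.2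
        rw [(hmemQ q).1 h2, one_mul, mul_one]
    · exact Subgroup.FiniteIndex.index_ne_zero
  have hout : ∃ n : ℕ, Subgroup.lowerCentralSeries (⊤ : Subgroup Λu) n ≤
      Q₁ ⊔ Subgroup.centralizer (Q₁ : Set Λu) := by
    obtain ⟨n, hn⟩ := hnil
    refine ⟨n, fun q hq => ?_⟩
    have h1 : q.1.1.1 ∈ Y := hn (lcs_mem φ hq)
    set a : Q₁ := e.symm ⟨q.1.1.1, h1⟩ with ha
    have h2 : (a : Λu)⁻¹ * q ∈ Subgroup.centralizer (Q₁ : Set Λu) := by
      rw [Subgroup.mem_centralizer_iff]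
      intro m hm
      refine (hcommQ _ ?_ m hm).symm
      change (q.1.1.1)⁻¹ * q.1.1.1 = 1
      exact inv_mul_cancel _
    have h3 := Subgroup.mul_mem_sup a.2 h2
    rwa [mul_inv_cancel_left] at h3
  -- positivity
  have hext : ext0 Q₁ (fun q : Q₁ => f q.1.1.1.1) = fun t : Λu => ft Y f t := by
    funext t
    unfold ext0 ft
    by_cases h : t ∈ Q₁
    · rw [dif_pos h, if_pos ((hmemQ t).1 h)]
    · rw [dif_neg h, if_neg (fun h' => h ((hmemQ t).2 h'))]
  have hpos : Pos ℓ eu Q₁ := by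
    refine (hps3 ℓ F hF Λu Q₁ inferInstance (fun q : Q₁ => f q.1.1.1.1) ?_ ?_ eu hidem ?_).1 ?_
    · exact H18.blk_equiv e hf.blk
    · rw [hext, eq_top_iff]
      intro g _ x
      change ft Y f ((g : Lam Y) * x * (g : Lam Y)⁻¹) = ft Y f x
      unfold ft
      have h1 : ((g : Lam Y) * x * (g : Lam Y)⁻¹).1.2 = 1 ↔ (x : Lam Y).1.2 = 1 := by
        change g.1.1.2 * x.1.1.2 * (g.1.1.2)⁻¹ = 1 ↔ x.1.1.2 = 1
        rw [mul_inv_eq_one]
        constructor
        · intro h
          exact mul_left_cancel (a := g.1.1.2) (by rw [h, mul_one])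
        · intro h
          rw [h, mul_one]
      by_cases h : (x : Lam Y).1.2 = 1
      · rw [if_pos h, if_pos (h1.2 h)]
        exact hf.cl x.1.1.1 g.1.1.1
      · rw [if_neg h, if_neg (fun h' => h (h1.1 h'))]
    · rw [hext, heu, ← H75.mulF_res Λu (ft Y f)
        (fun x hx => H66.br_of_not_mem (fun h => hx (hc1 h)))]
      have hsup : ∀ t, t ∉ Subgroup.centralizer (R1 : Set (Lam Y)) → ft Y f t = 0 := by
        intro t ht
        unfold ft
        rw [if_neg]
        intro h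
        apply ht
        rw [hcR1, h]
        exact one_mem _
      rw [← br_mul_right hsup]
      have h3 : mulF E (ft Y f) = E := by
        rw [← hEf, mulF_assoc, sig_ft hf]
      rw [h3]
    · intro h
      exact hdz (dz_equiv e h)
  -- the hypothesis
  have h1 : YY ℓ Q₁ eu = 0 := hH Λu Q₁ inferInstance ⟨e⟩ hmu hout
    ⟨(Lam Y).subtype.comp Λu.subtype, (Lam Y).subtype_injective.comp Λu.subtype_injective⟩
    eu hidem hpos
  unfold YY at h1
  have h2 := H74.chf hF.prime φ Q₁ inferInstance hcommQ hkerQ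
    (fun S => (Nat.card S : ℤ) * (lnum S eu : ℤ))
  rw [h2, hmapQ, hnch ℓ X Y (fun S _ => (Nat.card (S.comap φ) : ℤ) *
    (lnum (S.comap φ) eu : ℤ))] at h1
  rw [← h1]
  refine Finset.sum_congr rfl fun t ht => ?_
  rw [Finset.mem_filter] at ht
  have hlt := hlct ℓ X Y hF.prime t ht.1 ht.2
  have hloc := loc_prod hlt hlu
  set S2 : Subgroup (Lam Y) := ((stab t).prod (stab u)).subgroupOf (Lam Y) with hS2
  have hmapS : ((stab t).comap φ).map Λu.subtype = S2 := by
    ext p
    constructor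
    · rintro ⟨q, hq, rfl⟩
      exact ⟨hq, q.2⟩
    · rintro ⟨h3, h4⟩
      exact ⟨⟨p, h4⟩, h3, rfl⟩
  have e1 : lnum ((stab t).comap φ) eu = lnum S2 (br R1 E) := by
    rw [← hmapS, H75.lnum_map Λu.subtype Λu.subtype_injective]
    rfl
  have e2 : Nat.card ((stab t).comap φ) = Nat.card S2 := by
    rw [← hmapS, Subgroup.card_map_of_injective Λu.subtype_injective]
  have e3 : lnum S2 (br R1 E) = lnum S2 E := by
    refine lnum_congr_br hF hnls hloc.pgrp hloc.leS hloc.norm ?_ ?_ ?_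
    · intro x y
      exact hidem.1 ⟨x, x.2.2⟩ ⟨y, y.2.2⟩
    · intro x y
      exact hE.1 _ _
    · funext p
      by_cases hp : p ∈ Subgroup.centralizer
          ((((top t).prod (top u)).subgroupOf (Lam Y) : Subgroup (Lam Y)) : Set (Lam Y))
      · rw [H66.br_of_mem hp, H66.br_of_mem hp, H66.br_of_mem]
        refine Subgroup.centralizer_le ?_ hp
        rintro r ⟨hr1, hr2⟩
        refine ⟨?_, hr2⟩
        have h5 : r.1.1 = 1 := (Subgroup.mem_bot).1 hr1
        change r.1.1 ∈ top t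
        rw [h5]
        exact (top t).one_mem
      · rw [H66.br_of_not_mem hp, H66.br_of_not_mem hp]
  rw [e1, e2, e3]

end inner

end Pool.Agent.PP.H94
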