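import Pool.Agent.Helper79_WRA.Defs

/-!
# Squad PP: modular characters over an algebraically closed field, `ℓ`-numbers, relative sums

`F` is an algebraically closed field of characteristic `ℓ` in which every nonzero element is a root
of unity (for example the residue field of the algebraic integers).  An element of the group ring
`F H` is a function `H → F`.
-/

open scoped BigOperators

noncomputable section

namespace Pool.Agent.PP

open Pool.Agent.Helper51_AWC Pool.Agent.Helper79_WRA

/-- The conditions on the field of coefficients. -/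
structure GoodF (ℓ : ℕ) (F : Type) [Field F] : Prop where
  prime : ℓ.Prime
  char : CharP F ℓ
  closed : IsAlgClosed F
  tors : ∀ w : F, w ≠ 0 → ∃ n : ℕ, 0 < n ∧ w ^ n = 1

section defs

variable {F H : Type} [Field F] [Group H]

/-- An irreducible matrix representation over an algebraically closed field: the matrices span the
matrix algebra. -/
def IsIrr {n : ℕ} (ρ : H →* Matrix (Fin n) (Fin n) F) : Prop :=
  0 < n ∧ Submodule.span F (Set.range ρ) = ⊤

/-- The trace of a matrix representation. -/
def tr {n : ℕ} (ρ : H →* Matrix (Fin n) (Fin n) F) : H → F := fun h => (ρ h).trace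

variable (F H) in
/-- The traces of the irreducible representations of `H` over `F`. -/
def IBr : Set (H → F) := {f | ∃ (n : ℕ) (ρ : H →* Matrix (Fin n) (Fin n) F), IsIrr ρ ∧ f = tr ρ}

/-- class functions -/
def IsCl (a : H → F) : Prop := ∀ x y, a (y * x * y⁻¹) = a x

/-- The action of an element of the group ring on functions: `(a * f)(x) = f(a x)`. -/
def actF (a f : H → F) : H → F := fun x => ∑ᶠ t, a t * f (t * x)

/-- the product in the group ring -/
def mulF (a b : H → F) : H → F := fun x => ∑ᶠ t, a t * b (t⁻¹ * x)

/-- central idempotents of the group ring -/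
def IsIdem (e : H → F) : Prop := IsCl e ∧ mulF e e = e

/-- the value of a representation at an element of the group ring -/
def ev {n : ℕ} (ρ : H →* Matrix (Fin n) (Fin n) F) (a : H → F) : Matrix (Fin n) (Fin n) F :=
  ∑ᶠ t, a t • ρ t

/-- The `ℓ`-number of a subgroup `X` and a class function `a` of `G`: the number of irreducible
modular characters of `X` on which the restriction of `a` acts as the identity. -/
def lnum {G : Type} [Group G] (X : Subgroup G) (a : G → F) : ℕ :=
  {f : X → F | f ∈ IBr F X ∧ actF (fun t : X => a t) f = f}.ncard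

/-- The Brauer map: restriction to the centraliser of `R`. -/
def br {G : Type} [Group G] (R : Subgroup G) (a : G → F) : G → F :=
  open Classical in fun t => if t ∈ Subgroup.centralizer (R : Set G) then a t else 0

/-- An element is `ℓ`-regular if its order is prime to `ℓ`. -/
def Reg (ℓ : ℕ) (x : H) : Prop := (orderOf x).Coprime ℓ

/-- `|H|` times the relative alternating sum of the `ℓ`-numbers over the chains of `ℓ`-subgroups
of `Q`. -/
def YY (ℓ : ℕ) {G : Type} [Group G] [Finite G] (Q : Subgroup G) (e : G → F) : ℤ :=
  ∑ d ∈ chainsOn (psubIn ℓ Q) ⊥, (-1) ^ (d.card + 1) *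
    ((Nat.card (stab d) : ℤ) * (lnum (stab d) e : ℤ))

/-- the class sum of `x` under conjugation by `Q` -/
def clsum (F : Type) [Field F] {H : Type} [Group H] (Q : Subgroup H) (x : H) : H → F :=
  open Classical in fun y => if ∃ q ∈ Q, y = q * x * q⁻¹ then 1 else 0

/-- `Pos(e, Q)`: the products of the central idempotent `e` with the class sums of `Q` of
`ℓ`-defect zero are nilpotent (all blocks of `Q` under `e` have positive defect). -/
def Pos (ℓ : ℕ) (e : H → F) (Q : Subgroup H) : Prop :=
  ∀ x ∈ Q, ¬ ℓ ∣ Nat.card (Subgroup.centralizer ({x} : Set H) ⊓ Q : Subgroup H) →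
    ∃ n : ℕ, (mulF (clsum F Q x))^[n] e = 0

variable (F) in
/-- the statement `A(G)`: the alternating sum vanishes for all central idempotents of positive
defect -/
def AA (ℓ : ℕ) (G : Type) [Group G] [Finite G] : Prop :=
  ∀ e : G → F, IsIdem e → Pos ℓ e ⊤ → YY ℓ ⊤ e = 0

/-- primitive central idempotents -/
def IsBlk (f : H → F) : Prop :=
  IsIdem f ∧ f ≠ 0 ∧ ∀ g : H → F, IsIdem g → mulF f g = f ∨ mulF f g = 0

variable (F H) in
/-- the class functions -/
def cfs : Submodule F (H → F) where
  carrier := {f | IsCl f}
  add_mem' := by
    intro a b ha hb x y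
    change a _ + b _ = a x + b x
    rw [ha, hb]
  zero_mem' := fun _ _ => rfl
  smul_mem' := by
    intro c a ha x y
    change c * a _ = c * a x
    rw [ha]

variable (F H) in
/-- the class functions which depend only on the `ℓ'`-part of an element -/
def TT (ℓ : ℕ) : Submodule F (H → F) where
  carrier := {f | IsCl f ∧ ∀ x y, Commute x y → (∃ n : ℕ, y ^ ℓ ^ n = 1) → f (x * y) = f x}
  add_mem' := by
    rintro a b ⟨ha, ha'⟩ ⟨hb, hb'⟩
    refine ⟨(cfs F H).add_mem ha hb, fun x y hxy hy => ?_⟩
    change a _ + b _ = a x + b x
    rw [ha' x y hxy hy, hb' x y hxy hy]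
  zero_mem' := ⟨fun _ _ => rfl, fun _ _ _ _ => rfl⟩
  smul_mem' := by
    rintro c a ⟨ha, ha'⟩
    refine ⟨(cfs F H).smul_mem c ha, fun x y hxy hy => ?_⟩
    change c * a _ = c * a x
    rw [ha' x y hxy hy]

/-- the action of an element of the group ring as a linear map -/
def actL [Finite H] (a : H → F) : (H → F) →ₗ[F] (H → F) where
  toFun f := actF a f
  map_add' f g := by
    funext x
    have := Fintype.ofFinite H
    simp only [actF, Pi.add_apply, finsum_eq_sum_of_fintype, mul_add, Finset.sum_add_distrib]
  map_smul' c f := by
    funext x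
    have := Fintype.ofFinite H
    simp only [actF, Pi.smul_apply, finsum_eq_sum_of_fintype, smul_eq_mul, RingHom.id_apply,
      Finset.mul_sum]
    exact Finset.sum_congr rfl fun t _ => by ring

/-- the rank of the action of `a` on a space of functions -/
def rk [Finite H] (a : H → F) (V : Submodule F (H → F)) : ℕ :=
  Module.finrank F (V.map (actL a))

end defs

end Pool.Agent.PP
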